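import Pool.Agent.H21.Poly.Collapse

/-! The dynamic part: chains of absorbers. -/

namespace Pool.Agent.H21.Poly

open Finset Classical Pool.Agent.H21.Tile

/-- A stage of level `j`: from any set of vertices we can pass to a smaller one which is sparse to
some weight function in `j` colours. -/
def StageP {α : Type*} [Fintype α] {k : ℕ} (F : (r : ℕ) → SimpleGraph (Fin r))
    (col : α → α → Fin k) (T : ℝ) (j : ℕ) (z δ X : ℝ) (Y : ℕ) : Prop :=
  ∀ (R : Finset α) (Q : α → Prop) (a : ℝ) (b : ℕ), 0 ≤ a → a + X ≤ T → (∀ v, Q v → v ∉ R) →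
    (∀ (D : Finset (Fin k)) (ζ : α → ℝ) (R' : Finset α), D.card = j → R' ⊆ R →
      (∀ v, 0 ≤ ζ v) → (∀ v, ζ v ≤ 1) → (∀ v, ζ v ≠ 0 → v ∈ R ∧ v ∉ R') →
      z * R'.card ≤ mass ζ → (∀ v ∈ R', nbw col D ζ v ≤ δ * mass ζ) →
      Done F col R' (fun v => Q v ∨ ζ v ≠ 0) (a * R'.card) b) →
    Done F col R Q ((a + X) * R.card) (b + Y)

theorem stage_one {α : Type*} [Fintype α] [Nonempty α] {k Δ ℓ K : ℕ}
    (F : (r : ℕ) → SimpleGraph (Fin r))
    (hdeg : ∀ r x, (univ.filter ((F r).Adj x)).card ≤ Δ)
    (col : α → α → Fin k) (hsymm : ∀ a b, col a b = col b a) (hℓ : Δ + 1 ≤ 2 ^ ℓ)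
    (hK : 0 < K) (hlin : LinRam F col K) (hk : 0 < k) (s' B : ℕ)
    (hB : B = Bx Δ ℓ (s' + 1) (k - 1))
    (σF : ℝ) (hσF : 0 < σF) (hflex : FlexProp F col K σF)
    (τ : ℝ) (hτ : 0 ≤ τ) (mg ms : ℕ) (hmg : (1 - 1 / (2 * (K : ℝ))) ^ mg ≤ τ)
    (hms : (1 - 1 / (2 * (K : ℝ))) ^ ms * (1 / σF) ≤ 1)
    (T : ℝ) (hT : T + (Δ * Δ + Δ + 1) * τ ≤ (1 / 2) ^ B * ((1 / 2) ^ B * σF)) (hTσ : T ≤ σF) :
    StageP F col T 1 ((1 / 2) ^ B * σF) ((1 / 2) ^ s') ((Δ * Δ + Δ) * τ) (mg + ms + 3) := by
  intro R Q a b ha haT hQ hcont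
  have hKR : (1:ℝ) ≤ K := by exact_mod_cast hK
  have hX0 : (0:ℝ) ≤ (Δ * Δ + Δ) * τ := by positivity
  by_cases hbig : 1 ≤ σF * R.card
  swap
  · push Not at hbig
    refine ⟨∅, by simp, ?_, ?_⟩
    · rw [card_empty, Nat.cast_zero]
      have : (0:ℝ) ≤ R.card := Nat.cast_nonneg _
      positivity
    · rw [union_empty]
      apply (greedy_small hK hlin ms R _).mono (by omega)
      have h2 : (R.card : ℝ) < 1 / σF := by
        rw [lt_div_iff₀ hσF]; linarith
      have h4 : (0:ℝ) < (1 - 1 / (2 * (K : ℝ))) ^ ms := by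
        apply pow_pos
        have : 1 / (2 * (K : ℝ)) ≤ 1 / 2 := by
          apply one_div_le_one_div_of_le (by norm_num); linarith
        linarith
      calc (1 - 1 / (2 * (K : ℝ))) ^ ms * R.card < (1 - 1 / (2 * (K : ℝ))) ^ ms * (1 / σF) :=
            mul_lt_mul_of_pos_left h2 h4
        _ ≤ 1 := hms
  obtain ⟨Φ, X, g, hΦR, hXR, hΦX, hgσ, hKg, hmono⟩ := hflex R hbig
  obtain ⟨R1, hR1⟩ : ∃ R1, R1 = R \ (Φ ∪ X) := ⟨_, rfl⟩
  have hR1R : R1 ⊆ R := by rw [hR1]; exact sdiff_subset
  have hR1m : ∀ v, v ∈ R1 ↔ v ∈ R ∧ v ∉ Φ ∧ v ∉ X := by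
    intro v; rw [hR1, mem_sdiff, mem_union, not_or]
  have hR1c : (R1.card : ℝ) ≤ R.card := by exact_mod_cast card_le_card hR1R
  obtain ⟨w, hwdef⟩ : ∃ w : α → ℝ, w = fun v => if v ∈ Φ then 1 else 0 := ⟨_, rfl⟩
  have hw0 : ∀ v, 0 ≤ w v := by intro v; rw [hwdef]; beta_reduce; split_ifs <;> norm_num
  have hw1 : ∀ v, w v ≤ 1 := by intro v; rw [hwdef]; beta_reduce; split_ifs <;> norm_num
  have hwn : ∀ v, w v ≠ 0 → v ∈ Φ := by
    intro v hv
    by_contra hcon
    apply hv
    rw [hwdef]; simp [hcon]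
  have hwm : mass w = Φ.card := by
    rw [hwdef]; unfold mass; simp
  have hgΦ : (g : ℝ) ≤ Φ.card := by
    have : g ≤ Φ.card := (Nat.le_add_left _ _).trans hKg
    exact_mod_cast this
  obtain ⟨U, hUQ, hUc, hUt⟩ := collapse F hdeg col hsymm hℓ hK hlin (k - 1) s' B hB ∅
    (by rw [sdiff_empty, card_univ, Fintype.card_fin]; omega) τ mg hmg w hw0 hw1
    (by rw [eD_empty]; positivity) R1
    (by
      intro v hv
      by_contra hcon
      exact ((hR1m v).mp hv).2.1 (hwn v hcon))
    (by
      intro v _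
      rw [nbw_empty]
      have := mass_nonneg hw0
      positivity) σF hσF.le (by
      rw [hwm]
      calc σF * R1.card ≤ σF * R.card := by gcongr
        _ ≤ g := hgσ
        _ ≤ _ := hgΦ) Q (fun v hv h => hQ v hv (hR1R h)) a ha (by linarith) b (by
      intro D' ζ R' hD' hR' hζ0 hζw hζm hζs
      refine hcont D' ζ R' (by rw [hD', card_empty]) (hR'.trans hR1R) hζ0
        (fun v => (hζw v).trans (hw1 v)) ?_ hζm hζs
      intro v hv
      have h1 : v ∈ Φ := by
        apply hwn v
        intro h
        exact hv (le_antisymm ((hζw v).trans h.le) (hζ0 v))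
      exact ⟨hΦR h1, fun h => ((hR1m v).mp (hR' h)).2.1 h1⟩)
  have hUc' : (U.card : ℝ) ≤ (a + (Δ * Δ + Δ) * τ) * R.card :=
    hUc.trans (mul_le_mul_of_nonneg_left hR1c (by positivity))
  have hUg : (U ∩ Φ).card ≤ g := by
    have h1 : ((U ∩ Φ).card : ℝ) ≤ g := by
      calc ((U ∩ Φ).card : ℝ) ≤ U.card := by exact_mod_cast card_le_card inter_subset_left
        _ ≤ (a + (Δ * Δ + Δ) * τ) * R.card := hUc'
        _ ≤ σF * R.card := by
            apply mul_le_mul_of_nonneg_right (haT.trans hTσ) (Nat.cast_nonneg _)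
        _ ≤ g := hgσ
    exact_mod_cast h1
  have hflexT := flex_use hlin Φ X g hΦX hKg hmono (U ∩ Φ) inter_subset_right hUg
  have hUm : ∀ v ∈ U, v ∈ Φ ∨ v ∉ R := by
    intro v hv
    rcases hUQ v hv with h | h
    · exact Or.inr (hQ v h)
    · exact Or.inl (hwn v h)
  refine ⟨U \ Φ, ?_, ?_, ?_⟩
  · intro v hv
    rw [mem_sdiff] at hv
    rcases hUQ v hv.1 with h | h
    · exact h
    · exact absurd (hwn v h) hv.2
  · refine le_trans ?_ hUc'
    exact_mod_cast card_le_card sdiff_subset
  · have hset : R ∪ (U \ Φ) = (R1 ∪ U) ∪ (X ∪ (Φ \ (U ∩ Φ))) := by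
      ext v
      have e1 := hR1m v
      have e2 : v ∈ X → v ∈ R := fun h => hXR h
      have e3 : v ∈ Φ → v ∈ R := fun h => hΦR h
      simp only [mem_union, mem_sdiff, mem_inter]
      tauto
    rw [hset]
    have h1 := hUt.union hflexT (by
      rw [disjoint_left]
      intro v hv hv2
      rw [mem_union] at hv hv2
      rcases hv with hv | hv
      · rcases hv2 with hv2 | hv2
        · exact ((hR1m v).mp hv).2.2 hv2
        · exact ((hR1m v).mp hv).2.1 (mem_sdiff.mp hv2).1
      · rcases hv2 with hv2 | hv2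
        · rcases hUm v hv with h | h
          · exact disjoint_left.mp hΦX h hv2
          · exact h (hXR hv2)
        · rw [mem_sdiff, mem_inter] at hv2
          exact hv2.2 ⟨hv, hv2.1⟩)
    exact h1.mono (by omega)

theorem stage_succ {α : Type*} [Fintype α] [Nonempty α] {k Δ ℓ K : ℕ}
    (F : (r : ℕ) → SimpleGraph (Fin r))
    (hdeg : ∀ r x, (univ.filter ((F r).Adj x)).card ≤ Δ)
    (col : α → α → Fin k) (hsymm : ∀ a b, col a b = col b a) (hℓ : Δ + 1 ≤ 2 ^ ℓ)
    (hK : 0 < K) (hlin : LinRam F col K) (j : ℕ) (hjk : j < k) (s s' B : ℕ)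
    (hB : B = Bx Δ ℓ (s' + 1) (k - j - 1)) (hs : B + s' + 1 ≤ s)
    (z : ℝ) (hz : 0 < z)
    (τ : ℝ) (hτ : 0 ≤ τ) (mg : ℕ) (hmg : (1 - 1 / (2 * (K : ℝ))) ^ mg ≤ τ)
    (T : ℝ) (hT : T + (Δ * Δ + Δ + 1) * τ ≤ (1 / 2) ^ B * ((1 / 2) ^ B * z)) (X : ℝ) (hX : 0 ≤ X)
    (Y : ℕ) (hst : StageP F col T j z ((1 / 2) ^ s) X Y) (N : ℕ)
    (hN : N = (k.choose j) * 2 ^ (B + 1)) :
    StageP F col T (j + 1) ((1 / 2) ^ B * z) ((1 / 2) ^ s') (N * X + (Δ * Δ + Δ) * τ)
      (N * Y + (mg + 1)) := by
  intro R0 Q a b ha haT hQ hcont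
  have hX0 : (0:ℝ) ≤ (Δ * Δ + Δ) * τ := by positivity
  -- the loop
  have loop : ∀ n' n : ℕ, n + n' = N → ∀ (R : Finset α) (ζ : ℕ → α → ℝ) (Ds : ℕ → Finset (Fin k)),
      R ⊆ R0 → (∀ i < n, (Ds i).card = j) → (∀ i < n, ∀ v, 0 ≤ ζ i v) → (∀ i < n, ∀ v, ζ i v ≤ 1) →
      (∀ i < n, ∀ v, ζ i v ≠ 0 → v ∈ R0 ∧ v ∉ R) → (∀ i < n, z * R.card ≤ mass (ζ i)) →
      (∀ i < n, ∀ v ∈ R, nbw col (Ds i) (ζ i) v ≤ (1 / 2) ^ s * mass (ζ i)) →
      (∀ i i', i < i' → i' < n → ∀ v, ζ i' v ≠ 0 →
        ζ i v = 0 ∧ nbw col (Ds i) (ζ i) v ≤ (1 / 2) ^ s * mass (ζ i)) →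
      Done F col R (fun v => Q v ∨ ∃ i < n, ζ i v ≠ 0)
        ((a + (Δ * Δ + Δ) * τ + n' * X) * R.card) (b + mg + 1 + n' * Y) := by
    intro n'
    induction n' with
    | zero =>
      intro n hn R ζ Ds hRR0 hDc hζ0 hζ1 hζR hζm hζs hζch
      have hnN : n = N := by omega
      rw [Nat.cast_zero, zero_mul, add_zero, zero_mul, add_zero]
      by_cases hRe : R = ∅
      · subst hRe
        exact ⟨∅, by simp, by simp, by rw [union_empty]; exact Tiles.empty.mono (by omega)⟩
      have hRpos : (0:ℝ) < R.card := by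
        exact_mod_cast card_pos.mpr (nonempty_iff_ne_empty.mpr hRe)
      -- pigeonhole
      obtain ⟨D, hDj, hDm⟩ : ∃ D ∈ (univ : Finset (Fin k)).powersetCard j, 2 ^ (B + 1) ≤
          ((range n).filter (fun i => Ds i = D)).card := by
        apply exists_le_card_fiber_of_mul_le_card_of_maps_to
        · intro i hi
          rw [mem_powersetCard]
          exact ⟨subset_univ _, hDc i (mem_range.mp hi)⟩
        · rw [← card_pos, card_powersetCard, card_univ, Fintype.card_fin]
          exact Nat.choose_pos hjk.le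
        · rw [card_powersetCard, card_univ, Fintype.card_fin, card_range, hnN, hN]
      have hDcard : D.card = j := (mem_powersetCard.mp hDj).2
      obtain ⟨I, hI, hIc⟩ := exists_subset_card_eq hDm
      have hIm : ∀ i ∈ I, i < n ∧ Ds i = D := by
        intro i hi
        have := hI hi
        rw [mem_filter, mem_range] at this
        exact this
      obtain ⟨S, hS⟩ : ∃ S : ℝ, S = z * R.card := ⟨_, rfl⟩
      have hS0 : 0 < S := by rw [hS]; positivity
      have hmi : ∀ i ∈ I, 0 < mass (ζ i) := fun i hi => by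
        have := hζm i (hIm i hi).1
        rw [← hS] at this
        linarith
      obtain ⟨t, ht⟩ : ∃ t : ℕ → ℝ, t = fun i => S / mass (ζ i) := ⟨_, rfl⟩
      have ht0 : ∀ i ∈ I, 0 < t i := fun i hi => by
        rw [ht]; have := hmi i hi; positivity
      have ht1 : ∀ i ∈ I, t i ≤ 1 := fun i hi => by
        rw [ht]; beta_reduce
        rw [div_le_one (hmi i hi), hS]; exact hζm i (hIm i hi).1
      have htm : ∀ i ∈ I, t i * mass (ζ i) = S := fun i hi => by
        rw [ht]; have := hmi i hi; beta_reduce; field_simp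
      obtain ⟨w, hwdef⟩ : ∃ w : α → ℝ, w = fun v => ∑ i ∈ I, t i * ζ i v := ⟨_, rfl⟩
      have hwm : mass w = 2 ^ (B + 1) * S := by
        rw [hwdef, mass_sum]
        have h1 : ∀ i ∈ I, mass (fun v => t i * ζ i v) = S := fun i hi => by
          rw [mass_smul]; exact htm i hi
        rw [sum_congr rfl h1, sum_const, hIc, nsmul_eq_mul]
        push_cast; rfl
      have hw0 : ∀ v, 0 ≤ w v := by
        intro v; rw [hwdef]
        exact sum_nonneg fun i hi => mul_nonneg (ht0 i hi).le (hζ0 i (hIm i hi).1 v)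
      have hwn : ∀ v, w v ≠ 0 → ∃ i ∈ I, ζ i v ≠ 0 := by
        intro v hv
        by_contra hcon
        push Not at hcon
        apply hv
        rw [hwdef]
        apply sum_eq_zero
        intro i hi
        rw [hcon i hi, mul_zero]
      have hw1 : ∀ v, w v ≤ 1 := by
        intro v
        by_cases hv : w v = 0
        · rw [hv]; norm_num
        obtain ⟨i, hi, hiv⟩ := hwn v hv
        have h1 : w v = t i * ζ i v := by
          rw [hwdef]
          apply sum_eq_single_of_mem i hi
          intro i' hi' hne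
          have : ζ i' v = 0 := by
            rcases lt_or_gt_of_ne hne with h | h
            · exact (hζch i' i h (hIm i hi).1 v hiv).1
            · by_contra hcon
              exact hiv (hζch i i' h (hIm i' hi').1 v hcon).1
          rw [this, mul_zero]
        rw [h1]
        exact mul_le_one₀ (ht1 i hi) (hζ0 i (hIm i hi).1 v) (hζ1 i (hIm i hi).1 v)
      have hwR : ∀ v ∈ R, w v = 0 := by
        intro v hv
        by_contra hcon
        obtain ⟨i, hi, hiv⟩ := hwn v hcon
        exact (hζR i (hIm i hi).1 v hiv).2 hv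
      have hws : ∀ v ∈ R, nbw col D w v ≤ (1 / 2) ^ s * mass w := by
        intro v hv
        rw [hwdef, nbw_sum, mass_sum, mul_sum]
        apply sum_le_sum
        intro i hi
        rw [nbw_smul, mass_smul]
        have h1 := hζs i (hIm i hi).1 v hv
        rw [(hIm i hi).2] at h1
        calc t i * nbw col D (ζ i) v ≤ t i * ((1 / 2) ^ s * mass (ζ i)) :=
              mul_le_mul_of_nonneg_left h1 (ht0 i hi).le
          _ = _ := by ring
      -- the density of `D` inside `w`
      have hpair : ∀ i ∈ I, ∀ i' ∈ I, eD col D (fun v => t i * ζ i v) (fun v => t i' * ζ i' v) ≤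
          (if i = i' then S ^ 2 else 0) + (1 / 2) ^ s * S ^ 2 := by
        intro i hi i' hi'
        rw [eD_smul_left, eD_smul_right]
        by_cases hii : i = i'
        · subst hii
          rw [if_pos rfl]
          have h1 := eD_le (col := col) (D := D) (hζ0 i (hIm i hi).1) (hζ0 i (hIm i hi).1)
          have h2 := htm i hi
          have h3 : t i * (t i * eD col D (ζ i) (ζ i)) ≤ t i * (t i * (mass (ζ i) * mass (ζ i))) := by
            have := (ht0 i hi).le
            gcongr
          have h4 : t i * (t i * (mass (ζ i) * mass (ζ i))) = (t i * mass (ζ i)) ^ 2 := by ring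
          rw [h4, h2] at h3
          have : 0 ≤ (1 / 2 : ℝ) ^ s * S ^ 2 := by positivity
          linarith
        · rw [if_neg hii, zero_add]
          have key : ∀ p ∈ I, ∀ p' ∈ I, p < p' →
              t p * (t p' * eD col D (ζ p') (ζ p)) ≤ (1 / 2) ^ s * S ^ 2 := by
            intro p hp p' hp' hlt
            have h1 : eD col D (ζ p') (ζ p) ≤ ((1 / 2) ^ s * mass (ζ p)) * mass (ζ p') := by
              apply eD_restr_le (hζ0 p' (hIm p' hp').1)
              intro x hx
              have h2 := (hζch p p' hlt (hIm p' hp').1 x hx).2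
              rwa [(hIm p hp).2] at h2
            have h2 : t p * (t p' * eD col D (ζ p') (ζ p)) ≤
                t p * (t p' * (((1 / 2) ^ s * mass (ζ p)) * mass (ζ p'))) := by
              have := (ht0 p hp).le
              have := (ht0 p' hp').le
              gcongr
            refine h2.trans (le_of_eq ?_)
            have h3 : t p * (t p' * (((1 / 2) ^ s * mass (ζ p)) * mass (ζ p'))) =
                (1 / 2) ^ s * ((t p * mass (ζ p)) * (t p' * mass (ζ p'))) := by ring
            rw [h3, htm p hp, htm p' hp']; ring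
          rcases lt_or_gt_of_ne hii with h | h
          · rw [eD_comm hsymm]; exact key i hi i' hi' h
          · have := key i' hi' i hi h
            calc t i * (t i' * eD col D (ζ i) (ζ i')) = t i' * (t i * eD col D (ζ i) (ζ i')) := by ring
              _ ≤ _ := this
      have hwe : eD col D w w ≤ (1 / 2) ^ B * mass w ^ 2 := by
        have h1 : eD col D w w = ∑ i ∈ I, ∑ i' ∈ I,
            eD col D (fun v => t i * ζ i v) (fun v => t i' * ζ i' v) := by
          rw [hwdef, eD_sum_left]
          apply sum_congr rfl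
          intro i _
          rw [eD_sum_right]
        have h2 : ∑ i ∈ I, ∑ i' ∈ I, eD col D (fun v => t i * ζ i v) (fun v => t i' * ζ i' v) ≤
            ∑ i ∈ I, ∑ i' ∈ I, ((if i = i' then S ^ 2 else 0) + (1 / 2) ^ s * S ^ 2) :=
          sum_le_sum fun i hi => sum_le_sum fun i' hi' => hpair i hi i' hi'
        have h3 : ∑ i ∈ I, ∑ i' ∈ I, ((if i = i' then S ^ 2 else 0) + (1 / 2) ^ s * S ^ 2) =
            2 ^ (B + 1) * S ^ 2 + 2 ^ (B + 1) * (2 ^ (B + 1) * ((1 / 2) ^ s * S ^ 2)) := by
          have h4 : ∀ i ∈ I, ∑ i' ∈ I, ((if i = i' then S ^ 2 else 0) + (1 / 2) ^ s * S ^ 2) =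
              S ^ 2 + 2 ^ (B + 1) * ((1 / 2) ^ s * S ^ 2) := by
            intro i hi
            rw [sum_add_distrib, sum_ite_eq, if_pos hi, sum_const, hIc, nsmul_eq_mul]
            push_cast; rfl
          rw [sum_congr rfl h4, sum_const, hIc, nsmul_eq_mul]
          push_cast; ring
        rw [h1]
        refine h2.trans ?_
        rw [h3, hwm]
        have h5 : (1 / 2 : ℝ) ^ s ≤ (1 / 2) ^ (B + 1) := half_pow_anti (by omega)
        have h6 : (2:ℝ) ^ (B + 1) * (1 / 2) ^ (B + 1) = 1 := by rw [← mul_pow]; norm_num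
        have h7 : (2:ℝ) ^ (B + 1) * (1 / 2) ^ B = 2 := by
          have : (1 / 2 : ℝ) ^ B = 2 * (1 / 2) ^ (B + 1) := by rw [pow_succ]; ring
          rw [this]
          calc (2:ℝ) ^ (B + 1) * (2 * (1 / 2) ^ (B + 1)) = 2 * ((2:ℝ) ^ (B + 1) * (1 / 2) ^ (B + 1)) := by
                ring
            _ = 2 := by rw [h6]; ring
        have h8 : (2:ℝ) ^ (B + 1) * ((1 / 2) ^ s * S ^ 2) ≤ S ^ 2 := by
          calc (2:ℝ) ^ (B + 1) * ((1 / 2) ^ s * S ^ 2) ≤ 2 ^ (B + 1) * ((1 / 2) ^ (B + 1) * S ^ 2) := by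
                gcongr
            _ = (2 ^ (B + 1) * (1 / 2) ^ (B + 1)) * S ^ 2 := by ring
            _ = S ^ 2 := by rw [h6, one_mul]
        calc (2:ℝ) ^ (B + 1) * S ^ 2 + 2 ^ (B + 1) * (2 ^ (B + 1) * ((1 / 2) ^ s * S ^ 2)) ≤
              2 ^ (B + 1) * S ^ 2 + 2 ^ (B + 1) * S ^ 2 := by
              gcongr
          _ = 2 ^ (B + 1) * S ^ 2 * 2 := by ring
          _ = 2 ^ (B + 1) * S ^ 2 * (2 ^ (B + 1) * (1 / 2) ^ B) := by rw [h7]
          _ = (1 / 2) ^ B * (2 ^ (B + 1) * S) ^ 2 := by ring
      have hdone := collapse F hdeg col hsymm hℓ hK hlin (k - j - 1) s' B hB D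
        (by
          rw [card_sdiff_of_subset (subset_univ D), card_univ, Fintype.card_fin, hDcard]
          omega) τ mg hmg w hw0 hw1 hwe R hwR
        (by
          intro v hv
          refine (hws v hv).trans ?_
          apply mul_le_mul_of_nonneg_right (half_pow_anti hs) (mass_nonneg hw0)) z hz.le (by
          rw [hwm, ← hS]
          have : (1:ℝ) ≤ 2 ^ (B + 1) := one_le_pow₀ (by norm_num)
          nlinarith) Q (fun v hv h => hQ v hv (hRR0 h)) a ha (by
          have h1 : (0:ℝ) ≤ N * X := by positivity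
          linarith) b (by
          intro D' η R' hD' hR' hη0 hηw hηm hηs
          refine hcont D' η R' (by rw [hD', hDcard]) (hR'.trans hRR0) hη0
            (fun v => (hηw v).trans (hw1 v)) ?_ hηm hηs
          intro v hv
          obtain ⟨i, hi, hiv⟩ := hwn v (fun h => hv (le_antisymm ((hηw v).trans h.le) (hη0 v)))
          have h1 := hζR i (hIm i hi).1 v hiv
          exact ⟨h1.1, fun h => h1.2 (hR' h)⟩)
      obtain ⟨U, hU1, hU2, hU3⟩ := hdone
      refine ⟨U, ?_, hU2, hU3⟩
      intro v hv
      rcases hU1 v hv with h | h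
      · exact Or.inl h
      · obtain ⟨i, hi, hiv⟩ := hwn v h
        exact Or.inr ⟨i, (hIm i hi).1, hiv⟩
    | succ n' ih =>
      intro n hn R ζ Ds hRR0 hDc hζ0 hζ1 hζR hζm hζs hζch
      have h1 := hst R (fun v => Q v ∨ ∃ i < n, ζ i v ≠ 0) (a + (Δ * Δ + Δ) * τ + n' * X)
        (b + mg + 1 + n' * Y) (by positivity) (by
          have h1 : (n' : ℝ) + 1 ≤ N := by exact_mod_cast (by omega : n' + 1 ≤ N)
          have h2 : ((n' : ℝ) + 1) * X ≤ N * X := mul_le_mul_of_nonneg_right h1 hX
          have h3 : ((n' : ℝ) + 1) * X = n' * X + X := by ring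
          linarith) (by
          rintro v (hv | ⟨i, hi, hiv⟩)
          · exact fun h => hQ v hv (hRR0 h)
          · exact (hζR i hi v hiv).2) (by
          intro D η R' hD hR' hη0 hη1 hηR hηm hηs
          have hup : ∀ i, i < n → Function.update ζ n η i = ζ i := fun i hi => by
            rw [Function.update_of_ne (by omega)]
          have hupD : ∀ i, i < n → Function.update Ds n D i = Ds i := fun i hi => by
            rw [Function.update_of_ne (by omega)]
          have hR'c : (R'.card : ℝ) ≤ R.card := by exact_mod_cast card_le_card hR'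
          obtain ⟨U, hU1, hU2, hU3⟩ := ih (n + 1) (by omega) R' (Function.update ζ n η)
            (Function.update Ds n D) (hR'.trans hRR0) (by
              intro i hi
              rcases Nat.lt_succ_iff_lt_or_eq.mp hi with h | h
              · rw [hupD i h]; exact hDc i h
              · rw [h, Function.update_self]; exact hD) (by
              intro i hi
              rcases Nat.lt_succ_iff_lt_or_eq.mp hi with h | h
              · rw [hup i h]; exact hζ0 i h
              · rw [h, Function.update_self]; exact hη0) (by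
              intro i hi
              rcases Nat.lt_succ_iff_lt_or_eq.mp hi with h | h
              · rw [hup i h]; exact hζ1 i h
              · rw [h, Function.update_self]; exact hη1) (by
              intro i hi
              rcases Nat.lt_succ_iff_lt_or_eq.mp hi with h | h
              · rw [hup i h]
                intro v hv
                have := hζR i h v hv
                exact ⟨this.1, fun h' => this.2 (hR' h')⟩
              · rw [h, Function.update_self]
                intro v hv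
                have := hηR v hv
                exact ⟨hRR0 this.1, this.2⟩) (by
              intro i hi
              rcases Nat.lt_succ_iff_lt_or_eq.mp hi with h | h
              · rw [hup i h]
                refine le_trans ?_ (hζm i h)
                exact mul_le_mul_of_nonneg_left hR'c hz.le
              · rw [h, Function.update_self]; exact hηm) (by
              intro i hi
              rcases Nat.lt_succ_iff_lt_or_eq.mp hi with h | h
              · rw [hup i h, hupD i h]
                intro v hv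
                exact hζs i h v (hR' hv)
              · rw [h, Function.update_self, Function.update_self]; exact hηs) (by
              intro i i' hlt hi'
              rcases Nat.lt_succ_iff_lt_or_eq.mp hi' with h | h
              · rw [hup i (by omega), hup i' h, hupD i (by omega)]
                exact hζch i i' hlt h
              · rw [h] at hlt ⊢
                rw [hup i hlt, hupD i hlt, Function.update_self]
                intro v hv
                have hvR := (hηR v hv).1
                refine ⟨?_, hζs i hlt v hvR⟩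
                by_contra hcon
                exact (hζR i hlt v hcon).2 hvR)
          refine ⟨U, ?_, hU2, hU3⟩
          intro v hv
          rcases hU1 v hv with h | ⟨i, hi, hiv⟩
          · exact Or.inl (Or.inl h)
          · rcases Nat.lt_succ_iff_lt_or_eq.mp hi with h | h
            · rw [hup i h] at hiv
              exact Or.inl (Or.inr ⟨i, h, hiv⟩)
            · rw [h, Function.update_self] at hiv
              exact Or.inr hiv)
      obtain ⟨U, hU1, hU2, hU3⟩ := h1
      refine ⟨U, hU1, hU2.trans (le_of_eq ?_), ?_⟩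
      · push_cast; ring
      · have : b + mg + 1 + n' * Y + Y = b + mg + 1 + (n' + 1) * Y := by ring
        rw [← this]; exact hU3
  obtain ⟨U, hU1, hU2, hU3⟩ := loop N 0 (by omega) R0 (fun _ _ => 0) (fun _ => ∅) le_rfl
    (by intro i hi; omega) (by intro i hi; omega) (by intro i hi; omega) (by intro i hi; omega)
    (by intro i hi; omega) (by intro i hi; omega) (by intro i i' _ hi; omega)
  refine ⟨U, ?_, hU2.trans (le_of_eq ?_), ?_⟩
  · intro v hv
    rcases hU1 v hv with h | ⟨i, hi, _⟩
    · exact h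
    · omega
  · ring
  · have : b + mg + 1 + N * Y = b + (N * Y + (mg + 1)) := by ring
    rw [← this]; exact hU3

end Pool.Agent.H21.Poly
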