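import Mathlib

/-! Bounds of the form `2 ^ (C E)`. -/

namespace Pool.Agent.H21.Poly

open Finset

/-- `f` is at most `2 ^ (C E)`. -/
def EE (E : ℕ → ℕ → ℕ) (f : ℕ → ℕ → ℝ) : Prop :=
  ∃ C : ℕ, ∀ q D : ℕ, 1 ≤ q → 1 ≤ D → f q D ≤ 2 ^ (C * E q D)

variable {E : ℕ → ℕ → ℕ}

lemma EE.mono {f g : ℕ → ℕ → ℝ} (hg : EE E g) (h : ∀ q D, 1 ≤ q → 1 ≤ D → f q D ≤ g q D) :
    EE E f := by
  obtain ⟨C, hC⟩ := hg
  exact ⟨C, fun q D hq hD => (h q D hq hD).trans (hC q D hq hD)⟩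

lemma EE.two_pow {n : ℕ → ℕ → ℕ} (C : ℕ) (h : ∀ q D, 1 ≤ q → 1 ≤ D → n q D ≤ C * E q D) :
    EE E (fun q D => 2 ^ n q D) :=
  ⟨C, fun q D hq hD => pow_le_pow_right₀ (by norm_num) (h q D hq hD)⟩

lemma EE.const (hE : ∀ q D, 1 ≤ q → 1 ≤ D → 1 ≤ E q D) (c : ℝ) : EE E (fun _ _ => c) := by
  obtain ⟨n, hn⟩ := pow_unbounded_of_one_lt c (by norm_num : (1:ℝ) < 2)
  refine ⟨n, fun q D hq hD => hn.le.trans ?_⟩
  apply pow_le_pow_right₀ (by norm_num)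
  exact Nat.le_mul_of_pos_right _ (hE q D hq hD)

lemma EE.mul {f g : ℕ → ℕ → ℝ} (hf : EE E f) (hg : EE E g)
    (hg0 : ∀ q D, 1 ≤ q → 1 ≤ D → 0 ≤ g q D) : EE E (fun q D => f q D * g q D) := by
  obtain ⟨C, hC⟩ := hf
  obtain ⟨C', hC'⟩ := hg
  refine ⟨C + C', fun q D hq hD => ?_⟩
  rw [add_mul, pow_add]
  exact mul_le_mul (hC q D hq hD) (hC' q D hq hD) (hg0 q D hq hD) (by positivity)

lemma EE.add (hE : ∀ q D, 1 ≤ q → 1 ≤ D → 1 ≤ E q D) {f g : ℕ → ℕ → ℝ} (hf : EE E f)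
    (hg : EE E g) : EE E (fun q D => f q D + g q D) := by
  obtain ⟨C, hC⟩ := hf
  obtain ⟨C', hC'⟩ := hg
  refine ⟨C + C' + 1, fun q D hq hD => ?_⟩
  have h3 := hE q D hq hD
  have h1 := (hC q D hq hD).trans (show (2:ℝ) ^ (C * E q D) ≤ 2 ^ ((C + C') * E q D) from
    pow_le_pow_right₀ (by norm_num) (Nat.mul_le_mul_right _ (by omega)))
  have h2 := (hC' q D hq hD).trans (show (2:ℝ) ^ (C' * E q D) ≤ 2 ^ ((C + C') * E q D) from
    pow_le_pow_right₀ (by norm_num) (Nat.mul_le_mul_right _ (by omega)))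
  calc f q D + g q D ≤ 2 ^ ((C + C') * E q D) + 2 ^ ((C + C') * E q D) := add_le_add h1 h2
    _ = 2 ^ ((C + C') * E q D + 1) := by rw [pow_succ]; ring
    _ ≤ _ := by
        apply pow_le_pow_right₀ (by norm_num)
        calc (C + C') * E q D + 1 ≤ (C + C') * E q D + E q D := by omega
          _ = (C + C' + 1) * E q D := by ring

lemma EE.pow {f : ℕ → ℕ → ℝ} (hf : EE E f) (hf0 : ∀ q D, 1 ≤ q → 1 ≤ D → 0 ≤ f q D) (n : ℕ) :
    EE E (fun q D => f q D ^ n) := by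
  obtain ⟨C, hC⟩ := hf
  refine ⟨C * n, fun q D hq hD => ?_⟩
  calc f q D ^ n ≤ (2 ^ (C * E q D)) ^ n := pow_le_pow_left₀ (hf0 q D hq hD) (hC q D hq hD) n
    _ = 2 ^ (C * n * E q D) := by rw [← pow_mul]; congr 1; ring

lemma EE.ceil (hE : ∀ q D, 1 ≤ q → 1 ≤ D → 1 ≤ E q D) {f : ℕ → ℕ → ℝ} (hf : EE E f)
    (hf0 : ∀ q D, 1 ≤ q → 1 ≤ D → 0 ≤ f q D) : EE E (fun q D => (⌈f q D⌉₊ : ℝ)) :=
  (EE.add hE hf (EE.const hE 1)).mono fun q D hq hD => (Nat.ceil_lt_add_one (hf0 q D hq hD)).le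

lemma EE.sum (hE : ∀ q D, 1 ≤ q → 1 ≤ D → 1 ≤ E q D) {ι : Type*} (s : Finset ι)
    (f : ι → ℕ → ℕ → ℝ) (h : ∀ i ∈ s, EE E (f i)) : EE E (fun q D => ∑ i ∈ s, f i q D) := by
  classical
  induction s using Finset.induction_on with
  | empty => simpa using EE.const hE 0
  | insert a s ha ih =>
    have h1 := EE.add hE (h a (mem_insert_self a s)) (ih fun i hi => h i (mem_insert_of_mem hi))
    refine h1.mono fun q D _ _ => le_of_eq ?_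
    rw [sum_insert ha]

/-- `x` is positive, at most one, and its inverse is at most the exponential of an `EE` function. -/
def LE' (E : ℕ → ℕ → ℕ) (x : ℕ → ℕ → ℝ) : Prop :=
  (∀ q D, 1 ≤ q → 1 ≤ D → 0 < x q D) ∧ (∀ q D, 1 ≤ q → 1 ≤ D → x q D ≤ 1) ∧
    EE E (fun q D => - Real.log (x q D))

lemma LE'.neglog_nonneg {x : ℕ → ℕ → ℝ} (hx : LE' E x) (q D : ℕ) (hq : 1 ≤ q) (hD : 1 ≤ D) :
    0 ≤ - Real.log (x q D) := by
  have := Real.log_nonpos (hx.1 q D hq hD).le (hx.2.1 q D hq hD)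
  linarith

lemma LE'.mul (hE : ∀ q D, 1 ≤ q → 1 ≤ D → 1 ≤ E q D) {x y : ℕ → ℕ → ℝ} (hx : LE' E x)
    (hy : LE' E y) : LE' E (fun q D => x q D * y q D) := by
  refine ⟨fun q D hq hD => mul_pos (hx.1 q D hq hD) (hy.1 q D hq hD),
    fun q D hq hD => mul_le_one₀ (hx.2.1 q D hq hD) (hy.1 q D hq hD).le (hy.2.1 q D hq hD), ?_⟩
  refine (EE.add hE hx.2.2 hy.2.2).mono fun q D hq hD => ?_
  rw [Real.log_mul (hx.1 q D hq hD).ne' (hy.1 q D hq hD).ne']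
  linarith

lemma LE'.pow {x : ℕ → ℕ → ℝ} (hx : LE' E x) {n : ℕ → ℕ → ℕ} (hn : EE E (fun q D => (n q D : ℝ))) :
    LE' E (fun q D => x q D ^ n q D) := by
  refine ⟨fun q D hq hD => pow_pos (hx.1 q D hq hD) _,
    fun q D hq hD => pow_le_one₀ (hx.1 q D hq hD).le (hx.2.1 q D hq hD), ?_⟩
  refine (hn.mul hx.2.2 hx.neglog_nonneg).mono fun q D hq hD => ?_
  rw [Real.log_pow]
  linarith

lemma LE'.inv {f : ℕ → ℕ → ℝ} (hf : EE E f) (hf1 : ∀ q D, 1 ≤ q → 1 ≤ D → 1 ≤ f q D) :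
    LE' E (fun q D => 1 / f q D) := by
  refine ⟨fun q D hq hD => by have := hf1 q D hq hD; positivity,
    fun q D hq hD => by
      rw [div_le_one (by have := hf1 q D hq hD; positivity)]; exact hf1 q D hq hD, ?_⟩
  refine hf.mono fun q D hq hD => ?_
  have h1 := hf1 q D hq hD
  beta_reduce
  rw [one_div, Real.log_inv, neg_neg]
  have := Real.log_le_sub_one_of_pos (show 0 < f q D by linarith)
  linarith

lemma LE'.div (hE : ∀ q D, 1 ≤ q → 1 ≤ D → 1 ≤ E q D) {x f : ℕ → ℕ → ℝ} (hx : LE' E x)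
    (hf : EE E f) (hf1 : ∀ q D, 1 ≤ q → 1 ≤ D → 1 ≤ f q D) :
    LE' E (fun q D => x q D / f q D) := by
  have := LE'.mul hE hx (LE'.inv hf hf1)
  simpa [div_eq_mul_inv] using this

end Pool.Agent.H21.Poly
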