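import Pool.Agent.H21.Poly.Final

/-! Explicit bounds for the exponent, and greedy colourings. -/

namespace Pool.Agent.H21.Poly

open Finset Classical Pool.Agent.H21.Tile

lemma greedy_colouring {r Δ : ℕ} (H : SimpleGraph (Fin r))
    (hdeg : ∀ x, (univ.filter (H.Adj x)).card ≤ Δ) :
    ∃ f : Fin r → Fin (Δ + 1), ∀ x y, H.Adj x y → f x ≠ f y := by
  have main : ∀ S : Finset (Fin r), ∃ f : Fin r → Fin (Δ + 1),
      ∀ x ∈ S, ∀ y ∈ S, H.Adj x y → f x ≠ f y := by
    intro S
    induction S using Finset.induction_on with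
    | empty => exact ⟨fun _ => 0, by simp⟩
    | insert a S ha ih =>
      obtain ⟨f, hf⟩ := ih
      obtain ⟨c, hc⟩ : ∃ c, c ∉ (univ.filter (H.Adj a)).image f := by
        by_contra hcon
        push Not at hcon
        have h1 : (univ.filter (H.Adj a)).image f = univ := eq_univ_of_forall hcon
        have h2 := (card_image_le (s := univ.filter (H.Adj a)) (f := f)).trans (hdeg a)
        rw [h1, card_univ, Fintype.card_fin] at h2
        omega
      have hup : ∀ y ∈ S, Function.update f a c y = f y := by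
        intro y hy
        rw [Function.update_of_ne]
        rintro rfl
        exact ha hy
      have hca : ∀ y, H.Adj a y → f y ≠ c := by
        intro y hy h
        apply hc
        rw [← h]
        apply mem_image_of_mem
        rw [mem_filter]; exact ⟨mem_univ _, hy⟩
      refine ⟨Function.update f a c, ?_⟩
      intro x hx y hy hxy
      rw [mem_insert] at hx hy
      rcases hx with rfl | hx
      · rcases hy with rfl | hy
        · exact absurd hxy H.irrefl
        · rw [Function.update_self, hup y hy]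
          exact (hca y hxy).symm
      · rcases hy with rfl | hy
        · rw [Function.update_self, hup x hx]
          exact hca x hxy.symm
        · rw [hup x hx, hup y hy]
          exact hf x hx y hy hxy
  obtain ⟨f, hf⟩ := main univ
  exact ⟨f, fun x y h => hf x (mem_univ _) y (mem_univ _) h⟩

lemma sq_le_two_pow (n : ℕ) : n ^ 2 ≤ 2 ^ (n + 1) := by
  induction n with
  | zero => norm_num
  | succ n ih =>
    rcases Nat.lt_or_ge n 3 with h | h
    · interval_cases n <;> norm_num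
    · have h1 : 2 ^ (n + 1 + 1) = 2 * 2 ^ (n + 1) := by ring
      rw [h1]
      nlinarith

lemma lg_sq_le (D : ℕ) (hD : 1 ≤ D) : lg D ^ 2 ≤ 4 * D := by
  refine (sq_le_two_pow (lg D)).trans ?_
  unfold lg
  have h1 : 2 ^ Nat.log 2 D ≤ D := Nat.pow_log_le_self 2 (by omega)
  have h2 : 2 ^ (Nat.log 2 D + 1 + 1) = 4 * 2 ^ Nat.log 2 D := by ring
  omega

lemma EF_three (q D : ℕ) (hD : 1 ≤ D) : EF 3 q D ≤ 3647 * (D * (q + lg D ^ 2)) := by
  have h1 : EF 3 q D = D * q + (Br D (lg D) 0 + Br D (lg D) 1) := by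
    unfold EF
    rw [show 3 - 1 = 2 by norm_num, sum_range_succ, sum_range_one]
  have hl : 1 ≤ lg D := by unfold lg; omega
  obtain ⟨l, hl'⟩ : ∃ l, l = lg D := ⟨_, rfl⟩
  rw [← hl'] at h1 hl ⊢
  have e0 : Br D l 0 = 8 + 2 * l := by
    unfold Br sr Bx; ring
  have e1 : Br D l 1 = 27 + 6 * l + 2 * ((28 + 6 * l) * (14 + 3 * l + D * (30 + 6 * l))) := by
    simp only [Br, sr, Bx]; ring
  rw [h1, e0, e1]
  have h2 : l ≤ l ^ 2 := by nlinarith
  have h3 : l ^ 2 ≤ D * l ^ 2 := Nat.le_mul_of_pos_left _ hD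
  have h4 : 1 ≤ l ^ 2 := Nat.one_le_pow _ _ hl
  have h5 : D ≤ D * l ^ 2 := Nat.le_mul_of_pos_right _ h4
  have h6 : D * l ≤ D * l ^ 2 := Nat.mul_le_mul_left _ h2
  have h7 : 2 * ((28 + 6 * l) * (14 + 3 * l + D * (30 + 6 * l))) =
      784 + 336 * l + 36 * l ^ 2 + (1680 * D + 696 * (D * l) + 72 * (D * l ^ 2)) := by ring
  rw [h7]
  have h8 : 3647 * (D * (q + l ^ 2)) = 3647 * (D * q) + 3647 * (D * l ^ 2) := by ring
  rw [h8]
  omega

/-- polynomially bounded functions -/
def PB (f : ℕ → ℕ) : Prop := ∃ e : ℕ, ∀ D, 2 ≤ D → f D ≤ D ^ e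

lemma PB.mono {f g : ℕ → ℕ} (hg : PB g) (h : ∀ D, 2 ≤ D → f D ≤ g D) : PB f := by
  obtain ⟨e, he⟩ := hg
  exact ⟨e, fun D hD => (h D hD).trans (he D hD)⟩

lemma PB.const (c : ℕ) : PB (fun _ => c) :=
  ⟨c, fun D hD => (Nat.lt_two_pow_self.le : c ≤ 2 ^ c).trans (Nat.pow_le_pow_left hD c)⟩

lemma PB.id : PB (fun D => D) := ⟨1, fun D _ => by rw [pow_one]⟩

lemma PB.add {f g : ℕ → ℕ} (hf : PB f) (hg : PB g) : PB (fun D => f D + g D) := by
  obtain ⟨e, he⟩ := hf
  obtain ⟨e', he'⟩ := hg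
  refine ⟨e + e' + 1, fun D hD => ?_⟩
  have h1 := (he D hD).trans (Nat.pow_le_pow_right (by omega) (show e ≤ e + e' by omega))
  have h2 := (he' D hD).trans (Nat.pow_le_pow_right (by omega) (show e' ≤ e + e' by omega))
  calc f D + g D ≤ 2 * D ^ (e + e') := by omega
    _ ≤ D * D ^ (e + e') := Nat.mul_le_mul_right _ hD
    _ = _ := by ring

lemma PB.mul {f g : ℕ → ℕ} (hf : PB f) (hg : PB g) : PB (fun D => f D * g D) := by
  obtain ⟨e, he⟩ := hf
  obtain ⟨e', he'⟩ := hg
  refine ⟨e + e', fun D hD => ?_⟩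
  rw [pow_add]
  exact Nat.mul_le_mul (he D hD) (he' D hD)

lemma PB.sum {ι : Type*} (s : Finset ι) (f : ι → ℕ → ℕ) (h : ∀ i ∈ s, PB (f i)) :
    PB (fun D => ∑ i ∈ s, f i D) := by
  induction s using Finset.induction_on with
  | empty => simpa using PB.const 0
  | insert a s ha ih =>
    refine ((h a (mem_insert_self a s)).add
      (ih fun i hi => h i (mem_insert_of_mem hi))).mono fun D _ => le_of_eq ?_
    rw [sum_insert ha]

lemma PB_lg : PB lg := PB.id.mono fun D hD => lg_le D (by omega)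

lemma PB_Bx (r : ℕ) : ∀ p : ℕ → ℕ, PB p → PB (fun D => Bx D (lg D) (p D) r) := by
  induction r with
  | zero =>
    intro p hp
    exact (PB.const 2).mul ((hp.add (PB.const 2)).add PB_lg)
  | succ r ih =>
    intro p hp
    have h0 := ih p hp
    exact (h0.add (PB.const 1)).add ((PB.const 2).mul ((h0.add (PB.const 2)).mul
      (((hp.add (PB.id.mul (h0.add (PB.const 4)))).add PB_lg).add (PB.const 3))))

lemma PB_sr (r : ℕ) : PB (fun D => sr D (lg D) r) := by
  induction r with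
  | zero => exact PB.const 1
  | succ r ih =>
    exact ((PB_Bx r (fun D => sr D (lg D) r + 1) (ih.add (PB.const 1))).add ih).add (PB.const 1)

lemma PB_Br (r : ℕ) : PB (fun D => Br D (lg D) r) :=
  PB_Bx r (fun D => sr D (lg D) r + 1) ((PB_sr r).add (PB.const 1))

lemma PB_EF (k C : ℕ) : PB (fun D => C * EF k (D + 1) D) :=
  (PB.const C).mul ((PB.id.mul (PB.id.add (PB.const 1))).add
    (PB.sum (range (k - 1)) (fun r D => Br D (lg D) r) (fun r _ => PB_Br r)))

/-- tilings as finite sets of finite sets, without decidability assumptions -/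
lemma unfold_tiles {α : Type} {k m : ℕ} {F : (r : ℕ) → SimpleGraph (Fin r)}
    {col : α → α → Fin k} {V : Finset α} (h : Tiles F col V m) :
    ∃ P : Finset (Finset α), P.card ≤ m ∧ (∀ p ∈ P, p.Nonempty) ∧
      (∀ p ∈ P, ∃ (j : Fin k) (r : ℕ) (f : Fin r → α), Function.Injective f ∧
        (∀ y, y ∈ p ↔ ∃ i, f i = y) ∧ ∀ a b, (F r).Adj a b → col (f a) (f b) = j) ∧
      (∀ p ∈ P, ∀ p' ∈ P, p ≠ p' → Disjoint p p') ∧ ∀ x ∈ V, ∃ p ∈ P, x ∈ p := by
  obtain ⟨P, h1, h2, h3, h4⟩ := h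
  refine ⟨P, h1, fun p hp => (h2 p hp).1, ?_, h3, ?_⟩
  · intro p hp
    obtain ⟨-, j, r, f, hf1, hf2, hf3⟩ := h2 p hp
    refine ⟨j, r, f, hf1, fun y => ?_, hf3⟩
    rw [← hf2, mem_image]
    exact ⟨fun ⟨i, _, hi⟩ => ⟨i, hi⟩, fun ⟨i, hi⟩ => ⟨i, mem_univ _, hi⟩⟩
  · intro x hx
    rw [← h4, mem_biUnion] at hx
    exact hx

end Pool.Agent.H21.Poly
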