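import Pool.Agent.H21.Tile.Defs

/-! Flexible sets. -/

namespace Pool.Agent.H21.Poly

open Finset Classical Pool.Agent.H21.Tile

/-- Existence of flexible sets. -/
def FlexProp {α : Type*} {k : ℕ} (F : (r : ℕ) → SimpleGraph (Fin r)) (col : α → α → Fin k)
    (K : ℕ) (σF : ℝ) : Prop :=
  ∀ S : Finset α, 1 ≤ σF * S.card → ∃ (Φ X : Finset α) (g : ℕ), Φ ⊆ S ∧ X ⊆ S ∧ Disjoint Φ X ∧
    σF * S.card ≤ g ∧ K * g + g ≤ Φ.card ∧
    ∀ Φ' ⊆ Φ, Φ'.card + g = Φ.card → MonoSet F col (X ∪ Φ')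

lemma flex_use {α : Type*} {k K : ℕ} {F : (r : ℕ) → SimpleGraph (Fin r)} {col : α → α → Fin k}
    (hR : LinRam F col K) (Φ X : Finset α) (g : ℕ) (hΦX : Disjoint Φ X) (hKg : K * g + g ≤ Φ.card)
    (hmono : ∀ Φ' ⊆ Φ, Φ'.card + g = Φ.card → MonoSet F col (X ∪ Φ'))
    (V : Finset α) (hV : V ⊆ Φ) (hVc : V.card ≤ g) : Tiles F col (X ∪ (Φ \ V)) 2 := by
  have hc := card_sdiff_add_card_eq_card hV
  by_cases he : V.card = g
  · exact (Tiles.single (hmono (Φ \ V) sdiff_subset (by omega))).mono (by omega)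
  · obtain ⟨p, hp, hpc, hpm⟩ := hR (Φ \ V) (g - V.card) (by omega) (by
      have : K * (g - V.card) ≤ K * g := Nat.mul_le_mul_left _ (by omega)
      omega)
    have hc2 := card_sdiff_add_card_eq_card hp
    have h1 := hmono ((Φ \ V) \ p) (sdiff_subset.trans sdiff_subset) (by omega)
    have h2 : X ∪ (Φ \ V) = (X ∪ ((Φ \ V) \ p)) ∪ p := by
      rw [union_assoc, sdiff_union_of_subset hp]
    rw [h2]
    refine (Tiles.single h1).union (Tiles.single hpm) ?_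
    rw [disjoint_union_left]
    refine ⟨?_, sdiff_disjoint⟩
    exact disjoint_of_subset_right (hp.trans sdiff_subset) hΦX.symm

end Pool.Agent.H21.Poly
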