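import Pool.Agent.H21.Poly.Emb
import Pool.Agent.H21.Tile.Absorb

/-! Absorbing a small set of vertices into a monochromatic copy, weighted version. -/

namespace Pool.Agent.H21.Poly

open Finset Classical Pool.Agent.H21.Tile

theorem absorb_w {α : Type*} [Fintype α] [Nonempty α] {k Δ : ℕ} (F : (r : ℕ) → SimpleGraph (Fin r))
    (hdeg : ∀ r x, (univ.filter ((F r).Adj x)).card ≤ Δ)
    (col : α → α → Fin k) (hsymm : ∀ a b, col a b = col b a) (c : Fin k)
    (w : α → ℝ) (hw : ∀ x, 0 ≤ w x) (δ lam : ℝ) (hδ1 : δ ≤ 1)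
    (hE : Emb col Δ c w δ lam) (L U : Finset α) (hLw : ∀ v ∈ L, w v = 0)
    (hL : ∀ v ∈ L, δ * mass w ≤ nbw col {c} w v)
    (hsize : (U.card : ℝ) + (Δ * Δ + Δ + 1) * L.card ≤ lam * mass w) :
    ∃ Y : Finset α, (∀ y ∈ Y, w y ≠ 0) ∧ Disjoint Y U ∧ Y.card ≤ (Δ * Δ + Δ) * L.card ∧
      MonoSet F col (L ∪ Y) := by
  obtain ⟨b, hb⟩ : ∃ b : ℕ, b = (Δ * Δ + Δ + 1) * L.card := ⟨_, rfl⟩
  obtain ⟨P, hPc, hP⟩ := exists_spread (F b) Δ (hdeg b) L.card (by rw [Fintype.card_fin, hb])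
  -- bijection `P → L`
  obtain ⟨ψ, hψ1, hψ2, hψ3⟩ : ∃ ψ : Fin b → α, (∀ p ∈ P, ψ p ∈ L) ∧ Set.InjOn ψ P ∧
      P.image ψ = L := by
    have e := P.equivOfCardEq hPc
    obtain ⟨a⟩ := ‹Nonempty α›
    refine ⟨fun p => if h : p ∈ P then (e ⟨p, h⟩ : α) else a, ?_, ?_, ?_⟩
    · intro p hp
      simp only [hp, dite_true]
      exact (e ⟨p, hp⟩).2
    · intro x hx y hy hxy
      rw [mem_coe] at hx hy
      simp only [hx, hy, dite_true] at hxy
      have := e.injective (Subtype.ext hxy)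
      simpa using this
    · ext y
      rw [mem_image]
      constructor
      · rintro ⟨p, hp, rfl⟩
        simp only [hp, dite_true]
        exact (e ⟨p, hp⟩).2
      · intro hy
        refine ⟨(e.symm ⟨y, hy⟩ : Fin b), (e.symm ⟨y, hy⟩).2, ?_⟩
        simp
  obtain ⟨C0, hC0⟩ : ∃ C0 : Fin b → Finset α, C0 = fun x => univ.filter
    (fun y => w y ≠ 0 ∧ ∀ p ∈ P, (F b).Adj x p → col (ψ p) y = c) := ⟨_, rfl⟩
  have hC0m : ∀ x y, y ∈ C0 x ↔ (w y ≠ 0 ∧ ∀ p ∈ P, (F b).Adj x p → col (ψ p) y = c) := by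
    intro x y; rw [hC0]; simp
  have hC0' : ∀ x, δ * mass w ≤ ∑ y ∈ C0 x, w y := by
    intro x
    by_cases hex : ∃ p ∈ P, (F b).Adj x p
    · obtain ⟨p, hp, hxp⟩ := hex
      refine (hL (ψ p) (hψ1 p hp)).trans ?_
      unfold nbw
      rw [← sum_filter]
      have h1 : ∑ y ∈ univ.filter (fun y => col (ψ p) y ∈ ({c} : Finset (Fin k))), w y =
          ∑ y ∈ (univ.filter (fun y => col (ψ p) y ∈ ({c} : Finset (Fin k)))).filter
            (fun y => w y ≠ 0), w y := (sum_filter_ne_zero _).symm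
      rw [h1]
      apply sum_le_sum_of_subset_of_nonneg _ fun x _ _ => hw x
      intro y hy
      rw [mem_filter, mem_filter] at hy
      rw [hC0m]
      refine ⟨hy.2, fun p' hp' hxp' => ?_⟩
      by_cases hpp : p = p'
      · rw [← hpp]; exact mem_singleton.mp hy.1.2
      · exact absurd ⟨hxp, hxp'⟩ ((hP p hp p' hp' hpp).2 x)
    · push Not at hex
      have h1 : ∑ y ∈ C0 x, w y = mass w := by
        unfold mass
        rw [← sum_filter_ne_zero univ]
        apply sum_congr _ fun _ _ => rfl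
        ext y
        rw [hC0m, mem_filter]
        constructor
        · intro h; exact ⟨mem_univ _, h.1⟩
        · intro h; exact ⟨h.2, fun p hp hxp => absurd hxp (hex p hp)⟩
      rw [h1]
      have := mass_nonneg hw
      nlinarith
  obtain ⟨S, hS⟩ : ∃ S : Finset (Fin b), S = univ \ P := ⟨_, rfl⟩
  have hSP : ∀ x, x ∈ S ↔ x ∉ P := fun x => by simp [hS]
  have hSb : S.card ≤ b := by
    have := card_le_univ S
    rwa [Fintype.card_fin] at this
  have hSc : S.card + P.card = b := by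
    have h1 := card_sdiff_add_card_eq_card (subset_univ P)
    rw [← hS, card_univ, Fintype.card_fin] at h1
    exact h1
  obtain ⟨φ, hφ1, hφ2, hφ3⟩ := hE b (F b) (hdeg b) C0 hC0' U S (by
      refine le_trans ?_ hsize
      have : (S.card : ℝ) ≤ (Δ * Δ + Δ + 1) * L.card := by
        have h1 : S.card ≤ (Δ * Δ + Δ + 1) * L.card := hSb.trans hb.le
        exact_mod_cast h1
      linarith)
  have hφw : ∀ x ∈ S, w (φ x) ≠ 0 := fun x hx => ((hC0m _ _).mp (hφ1 x hx).1).1
  have hφL : ∀ x ∈ S, φ x ∉ L := fun x hx h => hφw x hx (hLw _ h)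
  refine ⟨S.image φ, ?_, ?_, ?_, c, b, fun x => if x ∈ P then ψ x else φ x, ?_, ?_, ?_⟩
  · intro y hy
    rw [mem_image] at hy
    obtain ⟨x, hx, rfl⟩ := hy
    exact hφw x hx
  · rw [disjoint_left]
    intro y hy
    rw [mem_image] at hy
    obtain ⟨x, hx, rfl⟩ := hy
    exact (hφ1 x hx).2
  · refine card_image_le.trans ?_
    have h1 : (Δ * Δ + Δ + 1) * L.card = (Δ * Δ + Δ) * L.card + L.card := by ring
    omega
  · intro x y hxy
    simp only at hxy
    by_cases hx : x ∈ P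
    · by_cases hy : y ∈ P
      · rw [if_pos hx, if_pos hy] at hxy; exact hψ2 hx hy hxy
      · rw [if_pos hx, if_neg hy] at hxy
        exact absurd (hxy ▸ hψ1 x hx) (hφL y ((hSP y).mpr hy))
    · by_cases hy : y ∈ P
      · rw [if_neg hx, if_pos hy] at hxy
        exact absurd (hxy ▸ hψ1 y hy) (hφL x ((hSP x).mpr hx))
      · rw [if_neg hx, if_neg hy] at hxy
        exact hφ2 (mem_coe.mpr ((hSP x).mpr hx)) (mem_coe.mpr ((hSP y).mpr hy)) hxy
  · ext y
    rw [mem_image, mem_union, mem_image]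
    constructor
    · rintro ⟨x, _, rfl⟩
      by_cases hx : x ∈ P
      · rw [if_pos hx]; exact Or.inl (hψ1 x hx)
      · rw [if_neg hx]; exact Or.inr ⟨x, (hSP x).mpr hx, rfl⟩
    · rintro (hy | ⟨x, hx, rfl⟩)
      · rw [← hψ3, mem_image] at hy
        obtain ⟨x, hx, rfl⟩ := hy
        exact ⟨x, mem_univ _, if_pos hx⟩
      · exact ⟨x, mem_univ _, if_neg ((hSP x).mp hx)⟩
  · intro x y hxy
    beta_reduce
    by_cases hx : x ∈ P
    · by_cases hy : y ∈ P
      · exact absurd hxy (hP x hx y hy hxy.ne).1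
      · rw [if_pos hx, if_neg hy]
        have := ((hC0m _ _).mp (hφ1 y ((hSP y).mpr hy)).1).2
        exact this x hx hxy.symm
    · by_cases hy : y ∈ P
      · rw [if_neg hx, if_pos hy, hsymm]
        have := ((hC0m _ _).mp (hφ1 x ((hSP x).mpr hx)).1).2
        exact this y hy hxy
      · rw [if_neg hx, if_neg hy]
        exact hφ3 x ((hSP x).mpr hx) y ((hSP y).mpr hy) hxy

end Pool.Agent.H21.Poly
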