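import Pool.Agent.H21.Poly.Static
import Pool.Agent.H21.Poly.WAbsorb
import Pool.Agent.H21.Poly.FlexDef

/-! One absorption step. -/

namespace Pool.Agent.H21.Poly

open Finset Classical Pool.Agent.H21.Tile

/-- The vertices of a set that have been tiled up to a small set of absorbers. -/
def Done {α : Type*} {k : ℕ} (F : (r : ℕ) → SimpleGraph (Fin r)) (col : α → α → Fin k)
    (R : Finset α) (Q : α → Prop) (x : ℝ) (b : ℕ) : Prop :=
  ∃ U : Finset α, (∀ v ∈ U, Q v) ∧ (U.card : ℝ) ≤ x ∧ Tiles F col (R ∪ U) b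

theorem collapse {α : Type*} [Fintype α] [Nonempty α] {k Δ ℓ K : ℕ}
    (F : (r : ℕ) → SimpleGraph (Fin r))
    (hdeg : ∀ r x, (univ.filter ((F r).Adj x)).card ≤ Δ)
    (col : α → α → Fin k) (hsymm : ∀ a b, col a b = col b a) (hℓ : Δ + 1 ≤ 2 ^ ℓ)
    (hK : 0 < K) (hlin : LinRam F col K) (r s' B : ℕ) (hB : B = Bx Δ ℓ (s' + 1) r)
    (D : Finset (Fin k)) (hD : (univ \ D).card = r + 1)
    (τ : ℝ) (mg : ℕ) (hmg : (1 - 1 / (2 * (K : ℝ))) ^ mg ≤ τ)
    (w : α → ℝ) (hw : ∀ x, 0 ≤ w x) (hw1 : ∀ x, w x ≤ 1) (hwe : eD col D w w ≤ (1 / 2) ^ B * mass w ^ 2)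
    (R : Finset α) (hRw : ∀ v ∈ R, w v = 0)
    (hRs : ∀ v ∈ R, nbw col D w v ≤ (1 / 2) ^ (B + s' + 1) * mass w)
    (z : ℝ) (hz : 0 ≤ z) (hzm : z * R.card ≤ mass w)
    (Q : α → Prop) (hQ : ∀ v, Q v → v ∉ R) (a : ℝ) (ha : 0 ≤ a)
    (haz : a + (Δ * Δ + Δ + 1) * τ ≤ (1 / 2) ^ B * ((1 / 2) ^ B * z)) (b : ℕ)
    (hcont : ∀ (D' : Finset (Fin k)) (ζ : α → ℝ) (R' : Finset α), D'.card = D.card + 1 → R' ⊆ R →
      (∀ v, 0 ≤ ζ v) → (∀ v, ζ v ≤ w v) → (1 / 2) ^ B * z * R'.card ≤ mass ζ →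
      (∀ v ∈ R', nbw col D' ζ v ≤ (1 / 2) ^ s' * mass ζ) →
      Done F col R' (fun v => Q v ∨ ζ v ≠ 0) (a * R'.card) b) :
    Done F col R (fun v => Q v ∨ w v ≠ 0) ((a + (Δ * Δ + Δ) * τ) * R.card) (b + mg + 1) := by
  have hKR : (1:ℝ) ≤ K := by exact_mod_cast hK
  have hpow0 : (0:ℝ) ≤ (1 - 1 / (2 * (K : ℝ))) ^ mg := by
    apply pow_nonneg
    have : 1 / (2 * (K : ℝ)) ≤ 1 := by rw [div_le_one (by positivity)]; linarith
    linarith
  have hτ0 : 0 ≤ τ := hpow0.trans hmg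
  obtain ⟨c, hcD, ζ, hζ0, hζw, hζm, hζE⟩ := static (Δ := Δ) hsymm hℓ (s' + 1) r D hD w hw hw1
    (by rw [← hB]; exact hwe)
  rw [← hB] at hζm hζE
  have hζmn : 0 ≤ mass ζ := mass_nonneg hζ0
  obtain ⟨R', hR'⟩ : ∃ R', R' = R.filter
    (fun v => nbw col {c} ζ v < (1 / 2) ^ (s' + 1) * mass ζ) := ⟨_, rfl⟩
  obtain ⟨A, hA⟩ : ∃ A, A = R.filter
    (fun v => ¬ nbw col {c} ζ v < (1 / 2) ^ (s' + 1) * mass ζ) := ⟨_, rfl⟩
  have hR'R : R' ⊆ R := by rw [hR']; exact filter_subset _ _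
  have hAR : A ⊆ R := by rw [hA]; exact filter_subset _ _
  have hRA : R' ∪ A = R := by rw [hR', hA]; exact filter_union_filter_not_eq _ _
  have hRAd : Disjoint R' A := by rw [hR', hA]; exact disjoint_filter_filter_not _ _ _
  have hR'c : (R'.card : ℝ) ≤ R.card := by exact_mod_cast card_le_card hR'R
  have hAc : (A.card : ℝ) ≤ R.card := by exact_mod_cast card_le_card hAR
  have hRc : (0:ℝ) ≤ R.card := Nat.cast_nonneg _
  obtain ⟨U', hU'Q, hU'c, hU't⟩ := hcont (insert c D) ζ R' (by rw [card_insert_of_notMem hcD]) hR'R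
    hζ0 hζw (by
      refine le_trans ?_ hζm
      rw [mul_assoc]
      apply mul_le_mul_of_nonneg_left _ (by positivity)
      refine le_trans ?_ hzm
      exact mul_le_mul_of_nonneg_left hR'c hz) (by
      intro v hv
      rw [nbw_insert hcD]
      have h1 : nbw col {c} ζ v < (1 / 2) ^ (s' + 1) * mass ζ := by
        rw [hR', mem_filter] at hv; exact hv.2
      have h2 : nbw col D ζ v ≤ (1 / 2) ^ (s' + 1) * mass ζ := by
        refine (nbw_mono hζw v).trans ((hRs v (hR'R hv)).trans ?_)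
        have : (1 / 2 : ℝ) ^ (B + s' + 1) * mass w = (1 / 2) ^ (s' + 1) * ((1 / 2) ^ B * mass w) := by
          rw [add_assoc, pow_add]; ring
        rw [this]
        exact mul_le_mul_of_nonneg_left hζm (by positivity)
      have h3 : (1 / 2 : ℝ) ^ s' * mass ζ =
          (1 / 2) ^ (s' + 1) * mass ζ + (1 / 2) ^ (s' + 1) * mass ζ := by
        rw [pow_succ]; ring
      linarith)
  obtain ⟨L, hLA, hLt, hLc⟩ := greedy_cover hK hlin mg A
  have hLR : (L.card : ℝ) ≤ τ * R.card := by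
    refine hLc.trans ?_
    exact mul_le_mul hmg hAc (Nat.cast_nonneg _) hτ0
  have hζR : ∀ v ∈ R, ζ v = 0 := fun v hv => le_antisymm ((hζw v).trans (hRw v hv).le) (hζ0 v)
  obtain ⟨Y, hYζ, hYU, hYc, hYt⟩ := absorb_w (Δ := Δ) F hdeg col hsymm c ζ hζ0 ((1 / 2) ^ (s' + 1))
    ((1 / 2) ^ B) (pow_le_one₀ (by norm_num) (by norm_num)) hζE L U'
    (fun v hv => hζR v (hAR (hLA hv))) (by
      intro v hv
      have := hLA hv
      rw [hA, mem_filter, not_lt] at this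
      exact this.2) (by
      have h1 : (U'.card : ℝ) ≤ a * R.card := hU'c.trans (mul_le_mul_of_nonneg_left hR'c ha)
      have h2 : (Δ * Δ + Δ + 1 : ℝ) * L.card ≤ (Δ * Δ + Δ + 1) * (τ * R.card) :=
        mul_le_mul_of_nonneg_left hLR (by positivity)
      have h3 : (1 / 2 : ℝ) ^ B * ((1 / 2) ^ B * (z * R.card)) ≤ (1 / 2) ^ B * mass ζ := by
        apply mul_le_mul_of_nonneg_left _ (by positivity)
        exact (mul_le_mul_of_nonneg_left hzm (by positivity)).trans hζm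
      have h4 := mul_le_mul_of_nonneg_right haz hRc
      calc (U'.card : ℝ) + (Δ * Δ + Δ + 1) * L.card ≤ a * R.card + (Δ * Δ + Δ + 1) * (τ * R.card) :=
            add_le_add h1 h2
        _ = (a + (Δ * Δ + Δ + 1) * τ) * R.card := by ring
        _ ≤ (1 / 2) ^ B * ((1 / 2) ^ B * z) * R.card := h4
        _ = (1 / 2) ^ B * ((1 / 2) ^ B * (z * R.card)) := by ring
        _ ≤ _ := h3)
  have hU'R : ∀ v ∈ U', v ∉ R := by
    intro v hv hvR
    rcases hU'Q v hv with h | h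
    · exact hQ v h hvR
    · exact h (hζR v hvR)
  have hYR : ∀ v ∈ Y, v ∉ R := fun v hv hvR => hYζ v hv (hζR v hvR)
  refine ⟨U' ∪ Y, ?_, ?_, ?_⟩
  · intro v hv
    rw [mem_union] at hv
    have hwv : ζ v ≠ 0 → w v ≠ 0 := fun h hw0 => h (le_antisymm ((hζw v).trans hw0.le) (hζ0 v))
    rcases hv with hv | hv
    · rcases hU'Q v hv with h | h
      · exact Or.inl h
      · exact Or.inr (hwv h)
    · exact Or.inr (hwv (hYζ v hv))
  · have h1 : ((U' ∪ Y).card : ℝ) ≤ U'.card + Y.card := by exact_mod_cast card_union_le _ _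
    have h2 : (Y.card : ℝ) ≤ (Δ * Δ + Δ) * L.card := by exact_mod_cast hYc
    have h3 : (Δ * Δ + Δ : ℝ) * L.card ≤ (Δ * Δ + Δ) * (τ * R.card) :=
      mul_le_mul_of_nonneg_left hLR (by positivity)
    have h4 : (U'.card : ℝ) ≤ a * R.card := hU'c.trans (mul_le_mul_of_nonneg_left hR'c ha)
    calc ((U' ∪ Y).card : ℝ) ≤ a * R.card + (Δ * Δ + Δ) * (τ * R.card) := by linarith
      _ = _ := by ring
  · have hset : R ∪ (U' ∪ Y) = (R' ∪ U') ∪ ((A \ L) ∪ (L ∪ Y)) := by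
      rw [← hRA]
      have : (A \ L) ∪ (L ∪ Y) = A ∪ Y := by
        rw [← union_assoc, sdiff_union_of_subset hLA]
      rw [this]
      ext x
      simp only [mem_union]
      tauto
    rw [hset, add_assoc]
    have t1 := hLt.union (Tiles.single hYt) (by
      rw [disjoint_union_right]
      refine ⟨sdiff_disjoint, ?_⟩
      rw [disjoint_left]
      intro x hx hxY
      exact hYR x hxY (hAR (mem_sdiff.mp hx).1))
    apply hU't.union t1
    rw [disjoint_left]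
    intro x hx hx2
    rw [mem_union] at hx hx2
    rcases hx with hx | hx
    · rcases hx2 with hx2 | hx2
      · exact disjoint_left.mp hRAd hx (mem_sdiff.mp hx2).1
      · rw [mem_union] at hx2
        rcases hx2 with hx2 | hx2
        · exact disjoint_left.mp hRAd hx (hLA hx2)
        · exact hYR x hx2 (hR'R hx)
    · rcases hx2 with hx2 | hx2
      · exact hU'R x hx (hAR (mem_sdiff.mp hx2).1)
      · rw [mem_union] at hx2
        rcases hx2 with hx2 | hx2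
        · exact hU'R x hx (hAR (hLA hx2))
        · exact disjoint_left.mp hYU hx2 hx

end Pool.Agent.H21.Poly
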