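import Pool.Agent.H21.Poly.Bounds

/-! Partitions of the vertex set of an edge coloured complete graph into vertex sets of
monochromatic copies. -/

namespace Pool.Agent.H21.Poly

open Finset Pool.Agent.H21.Tile

/-- In the edge colouring `c` of the complete graph on `N` vertices, the edges of some colour `j`
inside `S` contain a spanning copy of the member of the family with `|S|` vertices. -/
def HasMonoCopy {k N : ℕ} (F : (r : ℕ) → SimpleGraph (Fin r)) (c : Sym2 (Fin N) → Fin k)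
    (S : Finset (Fin N)) : Prop :=
  ∃ (j : Fin k) (e : Fin S.card ≃ S), ∀ a b, (F S.card).Adj a b → c s(↑(e a), ↑(e b)) = j

theorem to_partition {k N m : ℕ} (F : (r : ℕ) → SimpleGraph (Fin r)) (c : Sym2 (Fin N) → Fin k)
    (h : 0 < N → Tiles F (fun a b => c s(a, b)) univ m) :
    ∃ P : Finpartition (univ : Finset (Fin N)), P.parts.card ≤ m ∧
      ∀ S ∈ P.parts, HasMonoCopy F c S := by
  rcases Nat.eq_zero_or_pos N with hN | hN
  · subst hN
    have h0 : (univ : Finset (Fin 0)) = ⊥ := by rw [univ_eq_empty]; rfl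
    rw [h0]
    exact ⟨Finpartition.empty _, by simp, by simp⟩
  obtain ⟨P, hP1, hP2, hP3, hP4, hP5⟩ := unfold_tiles (h hN)
  refine ⟨⟨P, ?_, ?_, ?_⟩, hP1, ?_⟩
  · rw [supIndep_iff_pairwiseDisjoint]
    intro p hp p' hp' hne
    exact hP4 p hp p' hp' hne
  · ext x
    rw [mem_sup]
    exact ⟨fun _ => mem_univ x, fun hx => hP5 x hx⟩
  · intro h
    exact (hP2 _ h).ne_empty rfl
  · intro S hS
    obtain ⟨j, r, f, hf1, hf2, hf3⟩ := hP3 S hS
    have hmem : ∀ i, f i ∈ S := fun i => (hf2 _).mpr ⟨i, rfl⟩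
    have e : Fin r ≃ S := Equiv.ofBijective (fun i => (⟨f i, hmem i⟩ : S))
      ⟨fun a b hab => hf1 (congrArg Subtype.val hab), fun ⟨y, hy⟩ => by
        obtain ⟨i, hi⟩ := (hf2 y).mp hy
        exact ⟨i, Subtype.ext hi⟩⟩
    have hr : S.card = r := by
      have := Fintype.card_congr e
      rw [Fintype.card_fin, Fintype.card_coe] at this
      exact this.symm
    subst hr
    refine ⟨j, Equiv.ofBijective (fun i => (⟨f i, hmem i⟩ : S))
      ⟨fun a b hab => hf1 (congrArg Subtype.val hab), fun ⟨y, hy⟩ => ?_⟩, fun a b hab => ?_⟩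
    · obtain ⟨i, hi⟩ := (hf2 y).mp hy
      exact ⟨i, Subtype.ext hi⟩
    · exact hf3 a b hab

/-- degrees as filters -/
lemma deg_filter {Δ : ℕ} (F : (r : ℕ) → SimpleGraph (Fin r))
    (hdeg : ∀ r v, ((F r).neighborSet v).ncard ≤ Δ) :
    ∀ r (x : Fin r), (@filter _ ((F r).Adj x) (Classical.decPred _) univ).card ≤ Δ := by
  intro r x
  classical
  have h1 := hdeg r x
  have h2 : (F r).neighborSet x =
      ((@filter _ ((F r).Adj x) (Classical.decPred _) univ : Finset (Fin r)) : Set (Fin r)) := by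
    ext y; simp
  rw [h2, Set.ncard_coe_finset] at h1
  exact h1

theorem poly_partition (k : ℕ) : ∃ C : ℕ, ∀ q Δ : ℕ, 1 ≤ Δ →
    ∀ (F : (r : ℕ) → SimpleGraph (Fin r)), (∀ r v, ((F r).neighborSet v).ncard ≤ Δ) →
    (∀ r, (F r).Colorable q) → ∀ (N : ℕ) (c : Sym2 (Fin N) → Fin k),
      ∃ P : Finpartition (univ : Finset (Fin N)),
        P.parts.card ≤ 2 ^ (C * EF k q Δ) ∧ ∀ S ∈ P.parts, HasMonoCopy F c S := by
  rcases Nat.eq_zero_or_pos k with hk | hk
  · subst hk
    refine ⟨0, fun q Δ _ F _ _ N c => to_partition F c ?_⟩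
    intro hN
    exact (c s(⟨0, hN⟩, ⟨0, hN⟩)).elim0
  obtain ⟨C, hC⟩ := main_poly k hk
  refine ⟨C, fun q Δ hΔ F hdeg hcol N c => to_partition F c ?_⟩
  intro hN
  have hq : 1 ≤ q := by
    obtain ⟨f⟩ := hcol 1
    have := (f 0).2
    omega
  have : Nonempty (Fin N) := ⟨⟨0, hN⟩⟩
  have hdeg' := deg_filter F hdeg
  have hcol' : ∀ r, ∃ f : Fin r → Fin q, ∀ x y, (F r).Adj x y → f x ≠ f y := by
    intro r
    obtain ⟨f⟩ := hcol r
    exact ⟨f, fun x y h => f.valid h⟩
  exact hC q Δ hq hΔ F (fun r x => by convert hdeg' r x) hcol' (fun a b => c s(a, b))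
    (fun a b => by rw [Sym2.eq_swap]) univ

lemma colorable_of_deg {Δ : ℕ} (F : (r : ℕ) → SimpleGraph (Fin r))
    (hdeg : ∀ r v, ((F r).neighborSet v).ncard ≤ Δ) (r : ℕ) : (F r).Colorable (Δ + 1) := by
  have hdeg' := deg_filter F hdeg r
  obtain ⟨f, hf⟩ := greedy_colouring (F r) (fun x => by convert hdeg' x)
  exact ⟨SimpleGraph.Coloring.mk f fun {a b} h => hf a b h⟩

end Pool.Agent.H21.Poly
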