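import Pool.Agent.H21.Poly.Dyn

/-! Combining the stages. -/

namespace Pool.Agent.H21.Poly

open Finset Classical Pool.Agent.H21.Tile

/-- exponents of the sparsity parameters, indexed by the number of living colours -/
def sr (Δ ℓ : ℕ) : ℕ → ℕ
  | 0 => 1
  | r + 1 => Bx Δ ℓ (sr Δ ℓ r + 1) r + sr Δ ℓ r + 1

/-- exponents of the static lemma -/
def Br (Δ ℓ r : ℕ) : ℕ := Bx Δ ℓ (sr Δ ℓ r + 1) r

/-- number of absorption steps -/
def Gs (Δ ℓ k : ℕ) : ℕ → ℕ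
  | 0 => 1
  | j + 1 => k.choose (j + 1) * 2 ^ (Br Δ ℓ (k - 1 - (j + 1)) + 1) * Gs Δ ℓ k j + 1

/-- exponents of the sizes -/
def Sg (Δ ℓ k j : ℕ) : ℕ := ∑ i ∈ range (j + 1), Br Δ ℓ (k - 1 - i)

lemma Gs_pos (Δ ℓ k j : ℕ) : 0 < Gs Δ ℓ k j := by
  cases j
  · exact Nat.one_pos
  · exact Nat.succ_pos _

lemma Sg_succ (Δ ℓ k j : ℕ) : Sg Δ ℓ k (j + 1) = Sg Δ ℓ k j + Br Δ ℓ (k - 1 - (j + 1)) := by
  unfold Sg; rw [sum_range_succ]

lemma Sg_mono (Δ ℓ k : ℕ) {i j : ℕ} (h : i ≤ j) : Sg Δ ℓ k i ≤ Sg Δ ℓ k j := by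
  unfold Sg
  apply sum_le_sum_of_subset_of_nonneg
  · intro x hx
    rw [mem_range] at hx ⊢
    omega
  · intro _ _ _; exact Nat.zero_le _

lemma StageP.mono_Y {α : Type*} [Fintype α] {k : ℕ} {F : (r : ℕ) → SimpleGraph (Fin r)}
    {col : α → α → Fin k} {T : ℝ} {j : ℕ} {z δ X : ℝ} {Y Y' : ℕ}
    (h : StageP F col T j z δ X Y) (hY : Y ≤ Y') : StageP F col T j z δ X Y' := by
  intro R Q a b ha haT hQ hcont
  obtain ⟨U, h1, h2, h3⟩ := h R Q a b ha haT hQ hcont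
  exact ⟨U, h1, h2, h3.mono (by omega)⟩

theorem dyn_main {α : Type*} [Fintype α] [Nonempty α] {k Δ ℓ K : ℕ}
    (F : (r : ℕ) → SimpleGraph (Fin r))
    (hdeg : ∀ r x, (univ.filter ((F r).Adj x)).card ≤ Δ)
    (col : α → α → Fin k) (hsymm : ∀ a b, col a b = col b a) (hℓ : Δ + 1 ≤ 2 ^ ℓ)
    (hK : 0 < K) (hlin : LinRam F col K) (hk : 0 < k)
    (σF : ℝ) (hσF : 0 < σF) (hflex : FlexProp F col K σF)
    (τ : ℝ) (hτ : τ = (1 / 2) ^ (2 * Sg Δ ℓ k (k - 1) + 1) * σF /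
      ((Δ * Δ + Δ + 1) * Gs Δ ℓ k (k - 1)))
    (mg ms : ℕ) (hmg : (1 - 1 / (2 * (K : ℝ))) ^ mg ≤ τ)
    (hms : (1 - 1 / (2 * (K : ℝ))) ^ ms * (1 / σF) ≤ 1) (V : Finset α) :
    Tiles F col V (Gs Δ ℓ k (k - 1) * (mg + ms + 3)) := by
  obtain ⟨G, hG⟩ : ∃ G, G = Gs Δ ℓ k (k - 1) := ⟨_, rfl⟩
  obtain ⟨Sm, hSm⟩ : ∃ S, S = Sg Δ ℓ k (k - 1) := ⟨_, rfl⟩
  rw [← hG, ← hSm] at hτ
  have hGR : (1:ℝ) ≤ G := by rw [hG]; exact_mod_cast Gs_pos Δ ℓ k (k - 1)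
  have hΔR : (0:ℝ) ≤ Δ := Nat.cast_nonneg _
  have hΔ1 : (1:ℝ) ≤ Δ * Δ + Δ + 1 := by nlinarith
  obtain ⟨T, hT⟩ : ∃ T : ℝ, T = (1 / 2) ^ (2 * Sm + 1) * σF := ⟨_, rfl⟩
  have hT0 : 0 < T := by rw [hT]; positivity
  have hτ0 : 0 ≤ τ := by rw [hτ]; positivity
  have hτG : (Δ * Δ + Δ + 1) * (G * τ) = T := by
    rw [hτ, ← hT]; field_simp
  have hτ1 : (Δ * Δ + Δ + 1) * τ ≤ T := by
    rw [← hτG]
    apply mul_le_mul_of_nonneg_left _ (by linarith)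
    nlinarith
  have hτ2 : G * ((Δ * Δ + Δ) * τ) ≤ T := by
    rw [← hτG]
    have : 0 ≤ G * τ := by positivity
    nlinarith
  have h2T : T + (Δ * Δ + Δ + 1) * τ ≤ (1 / 2) ^ (2 * Sm) * σF := by
    have : (1 / 2 : ℝ) ^ (2 * Sm) * σF = T + T := by rw [hT, pow_succ]; ring
    linarith
  have hTσ : T ≤ σF := by
    rw [hT]
    apply mul_le_of_le_one_left hσF.le
    exact pow_le_one₀ (by norm_num) (by norm_num)
  have hstage : ∀ j, j + 1 ≤ k → StageP F col T (j + 1) ((1 / 2) ^ (Sg Δ ℓ k j) * σF)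
      ((1 / 2) ^ (sr Δ ℓ (k - (j + 1)))) (Gs Δ ℓ k j * ((Δ * Δ + Δ) * τ))
      (Gs Δ ℓ k j * (mg + ms + 3)) := by
    intro j
    induction j with
    | zero =>
      intro hj
      have h1 := stage_one F hdeg col hsymm hℓ hK hlin hk (sr Δ ℓ (k - 1)) (Br Δ ℓ (k - 1)) rfl σF
        hσF hflex τ hτ0 mg ms hmg hms T (by
          refine h2T.trans ?_
          rw [← mul_assoc, ← pow_add]
          apply mul_le_mul_of_nonneg_right _ hσF.le
          apply half_pow_anti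
          have : Sg Δ ℓ k 0 ≤ Sm := by rw [hSm]; exact Sg_mono Δ ℓ k (Nat.zero_le _)
          have h0 : Sg Δ ℓ k 0 = Br Δ ℓ (k - 1) := by
            unfold Sg; rw [zero_add, sum_range_one, Nat.sub_zero]
          omega) hTσ
      have h0 : Sg Δ ℓ k 0 = Br Δ ℓ (k - 1) := by
        unfold Sg; rw [zero_add, sum_range_one, Nat.sub_zero]
      rw [h0]
      simpa [Gs] using h1
    | succ j ih =>
      intro hj
      have h1 := ih (by omega)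
      have hsr : sr Δ ℓ (k - (j + 1)) = Br Δ ℓ (k - 1 - (j + 1)) + sr Δ ℓ (k - 1 - (j + 1)) + 1 := by
        rw [show k - (j + 1) = (k - 1 - (j + 1)) + 1 by omega, sr, Br]
      have hSg := Sg_succ Δ ℓ k j
      have h2 := stage_succ F hdeg col hsymm hℓ hK hlin (j + 1) (by omega)
        (sr Δ ℓ (k - (j + 1))) (sr Δ ℓ (k - 1 - (j + 1))) (Br Δ ℓ (k - 1 - (j + 1)))
        (by rw [Br, show k - (j + 1) - 1 = k - 1 - (j + 1) by omega]) hsr.ge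
        ((1 / 2) ^ (Sg Δ ℓ k j) * σF) (by positivity) τ hτ0 mg hmg T (by
          refine h2T.trans ?_
          rw [← mul_assoc, ← mul_assoc, ← pow_add, ← pow_add]
          apply mul_le_mul_of_nonneg_right _ hσF.le
          apply half_pow_anti
          have : Sg Δ ℓ k (j + 1) ≤ Sm := by
            rw [hSm]; exact Sg_mono Δ ℓ k (by omega)
          omega) (Gs Δ ℓ k j * ((Δ * Δ + Δ) * τ)) (by positivity) (Gs Δ ℓ k j * (mg + ms + 3)) h1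
        (k.choose (j + 1) * 2 ^ (Br Δ ℓ (k - 1 - (j + 1)) + 1)) rfl
      have e1 : (1 / 2 : ℝ) ^ (Br Δ ℓ (k - 1 - (j + 1))) * ((1 / 2) ^ (Sg Δ ℓ k j) * σF) =
          (1 / 2) ^ (Sg Δ ℓ k (j + 1)) * σF := by
        rw [hSg, pow_add]; ring
      have e2 : (((k.choose (j + 1) * 2 ^ (Br Δ ℓ (k - 1 - (j + 1)) + 1) : ℕ) : ℝ)) *
          (Gs Δ ℓ k j * ((Δ * Δ + Δ) * τ)) + (Δ * Δ + Δ) * τ =
          Gs Δ ℓ k (j + 1) * ((Δ * Δ + Δ) * τ) := by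
        rw [Gs]; push_cast; ring
      rw [e1, e2] at h2
      rw [show k - (j + 1 + 1) = k - 1 - (j + 1) by omega]
      apply h2.mono_Y
      rw [Gs]
      nlinarith
  have hfin := hstage (k - 1) (by omega) V (fun _ => False) 0 0 le_rfl (by
    rw [zero_add, ← hG]; exact hτ2) (by intro v h; exact h.elim) (by
    intro D ζ R' hD _ hζ0 _ _ hζm hζs
    have hDu : D = univ := by
      apply eq_univ_of_card
      rw [Fintype.card_fin]; omega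
    have hR' : R' = ∅ := by
      by_contra hne
      obtain ⟨v, hv⟩ := nonempty_iff_ne_empty.mpr hne
      have h1 := hζs v hv
      rw [hDu, nbw_univ] at h1
      rw [show k - (k - 1 + 1) = 0 by omega, sr, pow_one] at h1
      have h2 : (0:ℝ) < R'.card := by exact_mod_cast card_pos.mpr ⟨v, hv⟩
      have h3 : 0 < (1 / 2 : ℝ) ^ (Sg Δ ℓ k (k - 1)) * σF * R'.card := by positivity
      linarith
    subst hR'
    exact ⟨∅, by simp, by simp, by rw [union_empty]; exact Tiles.empty⟩)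
  obtain ⟨U, hU1, _, hU3⟩ := hfin
  have hU : U = ∅ := by
    rw [← subset_empty]
    intro v hv
    exact (hU1 v hv).elim
  rw [hU, union_empty, zero_add] at hU3
  exact hU3

end Pool.Agent.H21.Poly
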