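import Pool.Agent.H21.Poly.Split

/-! Embedding bounded degree graphs greedily into weight functions. -/

namespace Pool.Agent.H21.Poly

open Finset Classical

variable {α : Type*} [Fintype α] {k : ℕ} (col : α → α → Fin k)

/-- Bounded degree graphs can be embedded in the colour `c` with prescribed candidate sets. -/
def Emb (Δ : ℕ) (c : Fin k) (w : α → ℝ) (δ lam : ℝ) : Prop :=
  ∀ (n : ℕ) (H : SimpleGraph (Fin n)), (∀ x, (univ.filter (H.Adj x)).card ≤ Δ) →
    ∀ C0 : Fin n → Finset α, (∀ x, δ * mass w ≤ ∑ y ∈ C0 x, w y) →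
    ∀ (U : Finset α) (S : Finset (Fin n)), ((U.card : ℝ) + S.card) ≤ lam * mass w →
    ∃ φ : Fin n → α, (∀ x ∈ S, φ x ∈ C0 x ∧ φ x ∉ U) ∧ Set.InjOn φ S ∧
      ∀ x ∈ S, ∀ y ∈ S, H.Adj x y → col (φ x) (φ y) = c

variable {col}

lemma Emb.mono {Δ : ℕ} {c : Fin k} {w : α → ℝ} {δ lam lam' : ℝ} (hw : ∀ x, 0 ≤ w x)
    (h : Emb col Δ c w δ lam) (hl : lam' ≤ lam) : Emb col Δ c w δ lam' := by
  intro n H hdeg C0 hC0 U S hUS
  have : lam' * mass w ≤ lam * mass w := mul_le_mul_of_nonneg_right hl (mass_nonneg hw)
  exact h n H hdeg C0 hC0 U S (hUS.trans this)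

lemma mass_restr_filter (P : α → Prop) (w : α → ℝ) :
    mass (restr P w) = ∑ y ∈ univ.filter P, w y := by
  rw [sum_filter]; rfl

lemma mass_restr_mem (w : α → ℝ) (C : Finset α) :
    mass (restr (fun x => x ∈ C) w) = ∑ y ∈ C, w y := by
  rw [mass_restr_filter]
  congr 1
  ext x; simp

lemma nbw_restr_mem (c : Fin k) (w : α → ℝ) (C : Finset α) (v : α) :
    nbw col {c} (restr (fun x => x ∈ C) w) v = ∑ y ∈ C.filter (fun y => col v y = c), w y := by
  have h1 : nbw col {c} (restr (fun x => x ∈ C) w) v =
      ∑ y, if y ∈ C.filter (fun y => col v y = c) then w y else 0 := by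
    unfold nbw restr
    apply sum_congr rfl
    intro y _
    simp only [mem_filter, mem_singleton]
    by_cases h1 : y ∈ C <;> by_cases h2 : col v y = c <;> simp [h1, h2]
  rw [h1, ← sum_filter]
  apply sum_congr _ fun _ _ => rfl
  ext x; simp

/-- bi-density gives lower regularity for sets -/
lemma BD.reg {c : Fin k} {w : α → ℝ} {ρ ε : ℝ} (hw : ∀ x, 0 ≤ w x) (h : BD col c w ρ ε)
    (Y C : Finset α) (hY : ρ * mass w ≤ ∑ y ∈ Y, w y) (hC : ρ * mass w ≤ ∑ y ∈ C, w y)
    (hY0 : 0 < ∑ y ∈ Y, w y) :
    ∃ y ∈ Y, ε * ∑ z ∈ C, w z ≤ ∑ z ∈ C.filter (fun z => col y z = c), w z := by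
  by_contra hcon
  push Not at hcon
  have h1 := h (restr (fun x => x ∈ Y) w) (restr (fun x => x ∈ C) w) (restr_nonneg hw)
    (restr_le hw) (restr_nonneg hw) (restr_le hw) (by rwa [mass_restr_mem])
    (by rwa [mass_restr_mem])
  rw [mass_restr_mem, mass_restr_mem] at h1
  have h2 : eD col {c} (restr (fun x => x ∈ Y) w) (restr (fun x => x ∈ C) w) =
      ∑ x ∈ Y, w x * ∑ z ∈ C.filter (fun z => col x z = c), w z := by
    unfold eD
    simp_rw [nbw_restr_mem]
    unfold restr
    simp_rw [ite_mul, zero_mul]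
    rw [← sum_filter]
    apply sum_congr _ fun _ _ => rfl
    ext x; simp
  have h3 : ∑ x ∈ Y, w x * ∑ z ∈ C.filter (fun z => col x z = c), w z <
      ∑ x ∈ Y, w x * (ε * ∑ z ∈ C, w z) := by
    obtain ⟨y0, hy0, hy0w⟩ : ∃ y ∈ Y, 0 < w y := by
      by_contra hall
      push Not at hall
      have : ∑ y ∈ Y, w y ≤ 0 := sum_nonpos hall
      linarith
    apply sum_lt_sum
    · intro x hx
      exact mul_le_mul_of_nonneg_left (hcon x hx).le (hw x)
    · exact ⟨y0, hy0, mul_lt_mul_of_pos_left (hcon y0 hy0) hy0w⟩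
  rw [← sum_mul] at h3
  rw [h2] at h1
  have h4 : ε * ((∑ y ∈ Y, w y) * ∑ y ∈ C, w y) = (∑ y ∈ Y, w y) * (ε * ∑ z ∈ C, w z) := by ring
  linarith

lemma sum_le_card {w : α → ℝ} (hw1 : ∀ x, w x ≤ 1) (C : Finset α) : ∑ y ∈ C, w y ≤ C.card := by
  calc ∑ y ∈ C, w y ≤ ∑ y ∈ C, (1:ℝ) := sum_le_sum fun x _ => hw1 x
    _ = C.card := by simp

lemma sum_union_le {w : α → ℝ} (hw : ∀ x, 0 ≤ w x) (A B : Finset α) :
    ∑ y ∈ A ∪ B, w y ≤ ∑ y ∈ A, w y + ∑ y ∈ B, w y := by
  have h1 : ∑ y ∈ A ∪ B, w y = ∑ y ∈ A, w y + ∑ y ∈ B \ A, w y := by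
    rw [← sum_union disjoint_sdiff, union_sdiff_self_eq_union]
  have h2 : ∑ y ∈ B \ A, w y ≤ ∑ y ∈ B, w y :=
    sum_le_sum_of_subset_of_nonneg sdiff_subset fun x _ _ => hw x
  linarith

lemma sum_biUnion_le' {ι : Type*} {w : α → ℝ} (hw : ∀ x, 0 ≤ w x) (s : Finset ι)
    (A : ι → Finset α) : ∑ y ∈ s.biUnion A, w y ≤ ∑ i ∈ s, ∑ y ∈ A i, w y := by
  induction s using Finset.induction_on with
  | empty => simp
  | insert a s ha ih =>
    rw [biUnion_insert, sum_insert ha]
    exact (sum_union_le hw _ _).trans (by linarith)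

theorem emb_of_BD [Nonempty α] (hsymm : ∀ a b, col a b = col b a) {Δ : ℕ} {c : Fin k} {w : α → ℝ}
    {ρ ε δ : ℝ} (hw : ∀ x, 0 ≤ w x) (hw1 : ∀ x, w x ≤ 1) (h : BD col c w ρ ε) (hε : 0 < ε)
    (hε1 : ε ≤ 1) (hδ : 0 < δ) (hρ0 : 0 ≤ ρ) (hρ : (Δ + 1) * ρ ≤ δ * ε ^ Δ / 2) :
    Emb col Δ c w δ (δ * ε ^ Δ / 2) := by
  intro n H hdeg C0 hC0 U S hUS
  have hm0 := mass_nonneg hw
  have hdegT : ∀ (T : Finset (Fin n)) x, (T.filter (H.Adj x)).card ≤ Δ := fun T x =>
    (card_le_card (filter_subset_filter _ (subset_univ T))).trans (hdeg x)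
  have hpow : ∀ n, n ≤ Δ → ε ^ Δ ≤ ε ^ n := fun n hn => pow_le_pow_of_le_one hε.le hε1 hn
  have hρδ : ρ ≤ δ * ε ^ Δ := by
    have h1 : 0 ≤ (Δ:ℝ) * ρ := by positivity
    have h2 : 0 ≤ δ * ε ^ Δ := by positivity
    linarith
  have main : ∀ T : Finset (Fin n), T ⊆ S → ∃ φ : Fin n → α, (∀ x ∈ T, φ x ∈ C0 x ∧ φ x ∉ U) ∧
      Set.InjOn φ T ∧ (∀ x ∈ T, ∀ y ∈ T, H.Adj x y → col (φ x) (φ y) = c) ∧
      ∀ x, x ∉ T → δ * ε ^ (T.filter (H.Adj x)).card * mass w ≤
        ∑ z ∈ (C0 x).filter (fun z => ∀ y ∈ T, H.Adj x y → col (φ y) z = c), w z := by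
    intro T
    induction T using Finset.induction_on with
    | empty =>
      intro _
      obtain ⟨a⟩ := ‹Nonempty α›
      refine ⟨fun _ => a, by simp, by simp, by simp, ?_⟩
      intro x _
      simpa using hC0 x
    | insert a T haT ih =>
      intro hTS
      obtain ⟨φ, h1, h2, h3, h4⟩ := ih ((subset_insert _ _).trans hTS)
      have haS : a ∈ S := hTS (mem_insert_self _ _)
      have hSpos : (1:ℝ) ≤ S.card := by
        exact_mod_cast (card_pos.mpr ⟨a, haS⟩)
      have hUnn : (0:ℝ) ≤ U.card := Nat.cast_nonneg _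
      have hmpos : 0 < mass w := by
        rcases hm0.eq_or_lt with h0 | hpos
        · rw [← h0, mul_zero] at hUS
          linarith
        · exact hpos
      obtain ⟨Cand, hCand⟩ : ∃ Cand : Fin n → Finset α, Cand = fun x => (C0 x).filter
        (fun z => ∀ y ∈ T, H.Adj x y → col (φ y) z = c) := ⟨_, rfl⟩
      have hCandx : ∀ x, (C0 x).filter (fun z => ∀ y ∈ T, H.Adj x y → col (φ y) z = c) = Cand x := by
        intro x; rw [hCand]
      simp only [hCandx] at h4
      have hCandcard : ∀ x, x ∉ T → δ * ε ^ Δ * mass w ≤ ∑ z ∈ Cand x, w z := by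
        intro x hx
        refine le_trans ?_ (h4 x hx)
        have := hpow _ (hdegT T x)
        gcongr
      obtain ⟨Bad, hBad⟩ : ∃ Bad : Fin n → Finset α, Bad = fun x => univ.filter
        (fun z => ∑ v ∈ (Cand x).filter (fun v => col z v = c), w v < ε * ∑ v ∈ Cand x, w v) :=
        ⟨_, rfl⟩
      have hBadcard : ∀ x, x ∉ T → ∑ z ∈ Bad x, w z ≤ ρ * mass w := by
        intro x hxT
        by_contra hcon
        push Not at hcon
        obtain ⟨y, hy, hy2⟩ := h.reg hw (Bad x) (Cand x) hcon.le (by
          refine le_trans ?_ (hCandcard x hxT)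
          gcongr) (lt_of_le_of_lt (by positivity) hcon)
        rw [hBad, mem_filter] at hy
        exact absurd hy2 (not_le.mpr hy.2)
      obtain ⟨BadU, hBadU⟩ : ∃ BadU, BadU = ((univ.filter (H.Adj a)).filter
        (fun x => x ∉ T)).biUnion Bad := ⟨_, rfl⟩
      have hBadUcard : ∑ z ∈ BadU, w z ≤ Δ * (ρ * mass w) := by
        rw [hBadU]
        refine (sum_biUnion_le' hw _ _).trans ?_
        have : ∑ x ∈ (univ.filter (H.Adj a)).filter (fun x => x ∉ T), ∑ z ∈ Bad x, w z ≤
            ∑ x ∈ (univ.filter (H.Adj a)).filter (fun x => x ∉ T), ρ * mass w := by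
          apply sum_le_sum
          intro x hx
          rw [mem_filter] at hx
          exact hBadcard x hx.2
        refine this.trans ?_
        rw [sum_const, nsmul_eq_mul]
        have h5 : (((univ.filter (H.Adj a)).filter (fun x => x ∉ T)).card : ℝ) ≤ Δ := by
          exact_mod_cast (card_le_card (filter_subset _ _)).trans (hdeg a)
        have : (0:ℝ) ≤ ρ * mass w := by positivity
        gcongr
      have hex : ∃ z ∈ Cand a, z ∉ U ∪ (T.image φ ∪ BadU) := by
        by_contra hcon
        push Not at hcon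
        have hsub : Cand a ⊆ U ∪ (T.image φ ∪ BadU) := fun z hz => hcon z hz
        have hc1 : ∑ z ∈ Cand a, w z ≤ ∑ z ∈ U ∪ (T.image φ ∪ BadU), w z :=
          sum_le_sum_of_subset_of_nonneg hsub fun x _ _ => hw x
        have hc2 := sum_union_le hw U (T.image φ ∪ BadU)
        have hc3 := sum_union_le hw (T.image φ) BadU
        have hc4 := sum_le_card hw1 U
        have hc5 : ∑ z ∈ T.image φ, w z ≤ T.card :=
          (sum_le_card hw1 _).trans (by exact_mod_cast card_image_le)
        have hc6 : (T.card : ℝ) + 1 ≤ S.card := by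
          have : T.card + 1 ≤ S.card := by
            rw [← card_insert_of_notMem haT]
            exact card_le_card hTS
          exact_mod_cast this
        have hc7 := hCandcard a haT
        have hc8 : Δ * (ρ * mass w) ≤ δ * ε ^ Δ / 2 * mass w := by
          rw [← mul_assoc]
          apply mul_le_mul_of_nonneg_right _ hm0
          linarith
        have hc9 : δ * ε ^ Δ * mass w = δ * ε ^ Δ / 2 * mass w + δ * ε ^ Δ / 2 * mass w := by ring
        linarith
      obtain ⟨z, hz, hzn⟩ := hex
      rw [mem_union, mem_union] at hzn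
      push Not at hzn
      obtain ⟨hzU, hzT, hzB⟩ := hzn
      have hzC : z ∈ C0 a ∧ ∀ y ∈ T, H.Adj a y → col (φ y) z = c := by
        rw [hCand, mem_filter] at hz; exact hz
      have hup : ∀ y ∈ T, Function.update φ a z y = φ y := by
        intro y hy
        rw [Function.update_of_ne]
        rintro rfl
        exact haT hy
      refine ⟨Function.update φ a z, ?_, ?_, ?_, ?_⟩
      · intro x hx
        rw [mem_insert] at hx
        rcases hx with rfl | hx
        · rw [Function.update_self]
          exact ⟨hzC.1, hzU⟩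
        · rw [hup x hx]; exact h1 x hx
      · intro x hx y hy hxy
        rw [mem_coe, mem_insert] at hx hy
        rcases hx with rfl | hx
        · rcases hy with rfl | hy
          · rfl
          · rw [Function.update_self, hup y hy] at hxy
            exact absurd (mem_image.mpr ⟨y, hy, hxy.symm⟩) hzT
        · rcases hy with rfl | hy
          · rw [Function.update_self, hup x hx] at hxy
            exact absurd (mem_image.mpr ⟨x, hx, hxy⟩) hzT
          · rw [hup x hx, hup y hy] at hxy
            exact h2 hx hy hxy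
      · intro x hx y hy hxy
        rw [mem_insert] at hx hy
        rcases hx with rfl | hx
        · rcases hy with rfl | hy
          · exact absurd hxy (H.irrefl)
          · rw [Function.update_self, hup y hy, hsymm]
            exact hzC.2 y hy hxy
        · rcases hy with rfl | hy
          · rw [Function.update_self, hup x hx]
            exact hzC.2 x hx hxy.symm
          · rw [hup x hx, hup y hy]
            exact h3 x hx y hy hxy
      · intro x hx
        rw [mem_insert] at hx
        push Not at hx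
        obtain ⟨hxa, hxT⟩ := hx
        by_cases hax : H.Adj x a
        · have e1 : (insert a T).filter (H.Adj x) = insert a (T.filter (H.Adj x)) := by
            rw [filter_insert, if_pos hax]
          have e2 : a ∉ T.filter (H.Adj x) := fun h => haT (mem_filter.mp h).1
          rw [e1, card_insert_of_notMem e2]
          have hzgood : ε * ∑ v ∈ Cand x, w v ≤ ∑ v ∈ (Cand x).filter (fun v => col z v = c), w v := by
            by_contra hcon
            push Not at hcon
            apply hzB
            rw [hBadU, mem_biUnion]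
            refine ⟨x, ?_, ?_⟩
            · rw [mem_filter, mem_filter]; exact ⟨⟨mem_univ _, hax.symm⟩, hxT⟩
            · rw [hBad, mem_filter]; exact ⟨mem_univ _, hcon⟩
          have e3 : (Cand x).filter (fun v => col z v = c) ⊆ (C0 x).filter
              (fun v => ∀ y ∈ insert a T, H.Adj x y → col (Function.update φ a z y) v = c) := by
            intro v hv
            rw [mem_filter, hCand, mem_filter] at hv
            rw [mem_filter]
            refine ⟨hv.1.1, ?_⟩
            intro y hy hxy
            rw [mem_insert] at hy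
            rcases hy with rfl | hy
            · rw [Function.update_self]; exact hv.2
            · rw [hup y hy]; exact hv.1.2 y hy hxy
          have e4 : ∑ v ∈ (Cand x).filter (fun v => col z v = c), w v ≤ _ :=
            sum_le_sum_of_subset_of_nonneg e3 fun x _ _ => hw x
          refine le_trans ?_ e4
          refine le_trans ?_ hzgood
          have e5 := h4 x hxT
          have e6 : ε * (δ * ε ^ (T.filter (H.Adj x)).card * mass w) ≤ ε * ∑ v ∈ Cand x, w v :=
            mul_le_mul_of_nonneg_left e5 hε.le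
          refine le_trans (le_of_eq ?_) e6
          ring
        · have e1 : (insert a T).filter (H.Adj x) = T.filter (H.Adj x) := by
            rw [filter_insert, if_neg hax]
          rw [e1]
          refine (h4 x hxT).trans ?_
          apply sum_le_sum_of_subset_of_nonneg _ fun x _ _ => hw x
          intro v hv
          rw [hCand, mem_filter] at hv
          rw [mem_filter]
          refine ⟨hv.1, ?_⟩
          intro y hy hxy
          rw [mem_insert] at hy
          rcases hy with rfl | hy
          · exact absurd hxy hax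
          · rw [hup y hy]; exact hv.2 y hy hxy
  obtain ⟨φ, h1, h2, h3, -⟩ := main S le_rfl
  exact ⟨φ, h1, h2, h3⟩

theorem emb_of_sparse [Nonempty α] (hsymm : ∀ a b, col a b = col b a) {Δ : ℕ} {c : Fin k}
    {w : α → ℝ} {ξ δ : ℝ} (hw : ∀ x, 0 ≤ w x) (hw1 : ∀ x, w x ≤ 1) (D : Finset (Fin k))
    (hD : ∀ c', c' ∉ D → c' = c) (hξ : 0 < ξ)
    (h : eD col D w w ≤ ξ ^ 2 * mass w ^ 2) (hδ : 0 < δ) (hξδ : (Δ + 1) * ξ ≤ δ / 4) :
    Emb col Δ c w δ (δ / 4) := by
  intro n H hdeg C0 hC0 U S hUS
  have hm0 := mass_nonneg hw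
  have hdegT : ∀ (T : Finset (Fin n)) x, (T.filter (H.Adj x)).card ≤ Δ := fun T x =>
    (card_le_card (filter_subset_filter _ (subset_univ T))).trans (hdeg x)
  rcases hm0.eq_or_lt with h0 | hmpos
  · rw [← h0, mul_zero] at hUS
    have hS : S = ∅ := by
      rw [← card_eq_zero]
      have h1 : (0:ℝ) ≤ U.card := Nat.cast_nonneg _
      have h2 : (0:ℝ) ≤ S.card := Nat.cast_nonneg _
      have h3 : (S.card : ℝ) = 0 := by linarith
      exact_mod_cast h3
    obtain ⟨a⟩ := ‹Nonempty α›
    exact ⟨fun _ => a, by simp [hS], by simp [hS], by simp [hS]⟩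
  obtain ⟨B, hB⟩ : ∃ B : Finset α, B = univ.filter (fun y => ¬ nbw col D w y ≤ ξ * mass w) :=
    ⟨_, rfl⟩
  have hBm : ∑ z ∈ B, w z ≤ ξ * mass w := by
    have h1 := markov (col := col) (D := D) hw hw (ξ * mass w)
    have h2 : mass (restr (fun x => ¬ nbw col D w x ≤ ξ * mass w) w) = ∑ z ∈ B, w z := by
      rw [hB, mass_restr_filter]
      apply sum_congr _ fun _ _ => rfl
      ext x; simp
    rw [h2] at h1
    have h3 : ξ * mass w * ∑ z ∈ B, w z ≤ ξ * mass w * (ξ * mass w) := by
      refine (h1.trans h).trans (le_of_eq ?_); ring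
    exact le_of_mul_le_mul_left h3 (by positivity)
  have main : ∀ T : Finset (Fin n), T ⊆ S → ∃ φ : Fin n → α,
      (∀ x ∈ T, φ x ∈ C0 x ∧ φ x ∉ U ∧ φ x ∉ B) ∧
      Set.InjOn φ T ∧ (∀ x ∈ T, ∀ y ∈ T, H.Adj x y → col (φ x) (φ y) = c) := by
    intro T
    induction T using Finset.induction_on with
    | empty =>
      intro _
      obtain ⟨a⟩ := ‹Nonempty α›
      exact ⟨fun _ => a, by simp, by simp, by simp⟩
    | insert a T haT ih =>
      intro hTS
      obtain ⟨φ, h1, h2, h3⟩ := ih ((subset_insert _ _).trans hTS)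
      have haS : a ∈ S := hTS (mem_insert_self _ _)
      obtain ⟨Bad, hBad⟩ : ∃ Bad : Finset α, Bad = (T.filter (H.Adj a)).biUnion
        (fun y => univ.filter (fun z => col (φ y) z ∈ D)) := ⟨_, rfl⟩
      have hBadc : ∑ z ∈ Bad, w z ≤ Δ * (ξ * mass w) := by
        rw [hBad]
        refine (sum_biUnion_le' hw _ _).trans ?_
        have h5 : ∑ y ∈ T.filter (H.Adj a), ∑ z ∈ univ.filter (fun z => col (φ y) z ∈ D), w z ≤
            ∑ y ∈ T.filter (H.Adj a), ξ * mass w := by
          apply sum_le_sum
          intro y hy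
          have h6 := (h1 y (mem_filter.mp hy).1).2.2
          rw [hB, mem_filter] at h6
          simp only [mem_univ, true_and, not_not] at h6
          unfold nbw at h6
          rw [← sum_filter] at h6
          exact h6
        refine h5.trans ?_
        rw [sum_const, nsmul_eq_mul]
        have h6 : ((T.filter (H.Adj a)).card : ℝ) ≤ Δ := by exact_mod_cast hdegT T a
        gcongr
      have hex : ∃ z ∈ C0 a, z ∉ (U ∪ B) ∪ (T.image φ ∪ Bad) := by
        by_contra hcon
        push Not at hcon
        have hsub : C0 a ⊆ (U ∪ B) ∪ (T.image φ ∪ Bad) := fun z hz => hcon z hz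
        have hc1 : ∑ z ∈ C0 a, w z ≤ ∑ z ∈ (U ∪ B) ∪ (T.image φ ∪ Bad), w z :=
          sum_le_sum_of_subset_of_nonneg hsub fun x _ _ => hw x
        have hc2 := sum_union_le hw (U ∪ B) (T.image φ ∪ Bad)
        have hc3 := sum_union_le hw (T.image φ) Bad
        have hc3' := sum_union_le hw U B
        have hc4 := sum_le_card hw1 U
        have hc5 : ∑ z ∈ T.image φ, w z ≤ T.card :=
          (sum_le_card hw1 _).trans (by exact_mod_cast card_image_le)
        have hc6 : (T.card : ℝ) + 1 ≤ S.card := by
          have : T.card + 1 ≤ S.card := by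
            rw [← card_insert_of_notMem haT]
            exact card_le_card hTS
          exact_mod_cast this
        have hc7 := hC0 a
        have hc8 : Δ * (ξ * mass w) + ξ * mass w ≤ δ / 4 * mass w := by
          have : Δ * (ξ * mass w) + ξ * mass w = (Δ + 1) * ξ * mass w := by ring
          rw [this]
          exact mul_le_mul_of_nonneg_right hξδ hm0
        have hc9 : 0 < δ * mass w := by positivity
        linarith
      obtain ⟨z, hz, hzn⟩ := hex
      rw [mem_union, mem_union, mem_union] at hzn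
      push Not at hzn
      obtain ⟨⟨hzU, hzB⟩, hzT, hzBad⟩ := hzn
      have hzc : ∀ y ∈ T, H.Adj a y → col (φ y) z = c := by
        intro y hy hay
        apply hD
        intro hcon
        apply hzBad
        rw [hBad, mem_biUnion]
        refine ⟨y, ?_, ?_⟩
        · rw [mem_filter]; exact ⟨hy, hay⟩
        · rw [mem_filter]; exact ⟨mem_univ _, hcon⟩
      have hup : ∀ y ∈ T, Function.update φ a z y = φ y := by
        intro y hy
        rw [Function.update_of_ne]
        rintro rfl
        exact haT hy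
      refine ⟨Function.update φ a z, ?_, ?_, ?_⟩
      · intro x hx
        rw [mem_insert] at hx
        rcases hx with rfl | hx
        · rw [Function.update_self]
          exact ⟨hz, hzU, hzB⟩
        · rw [hup x hx]; exact h1 x hx
      · intro x hx y hy hxy
        rw [mem_coe, mem_insert] at hx hy
        rcases hx with rfl | hx
        · rcases hy with rfl | hy
          · rfl
          · rw [Function.update_self, hup y hy] at hxy
            exact absurd (mem_image.mpr ⟨y, hy, hxy.symm⟩) hzT
        · rcases hy with rfl | hy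
          · rw [Function.update_self, hup x hx] at hxy
            exact absurd (mem_image.mpr ⟨x, hx, hxy⟩) hzT
          · rw [hup x hx, hup y hy] at hxy
            exact h2 hx hy hxy
      · intro x hx y hy hxy
        rw [mem_insert] at hx hy
        rcases hx with rfl | hx
        · rcases hy with rfl | hy
          · exact absurd hxy (H.irrefl)
          · rw [Function.update_self, hup y hy, hsymm]
            exact hzc y hy hxy
        · rcases hy with rfl | hy
          · rw [Function.update_self, hup x hx]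
            exact hzc x hx hxy.symm
          · rw [hup x hx, hup y hy]
            exact h3 x hx y hy hxy
  obtain ⟨φ, h1, h2, h3⟩ := main S le_rfl
  exact ⟨φ, fun x hx => ⟨(h1 x hx).1, (h1 x hx).2.1⟩, h2, h3⟩

end Pool.Agent.H21.Poly
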