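import Pool.Agent.H21.Poly.Flex2

/-! Flexible sets exist everywhere. -/

namespace Pool.Agent.H21.Poly

open Finset Classical Pool.Agent.H21.Tile

theorem flexProp2 {α : Type*} [Nonempty α] {k q Δ K Kr m2 : ℕ} (F : (r : ℕ) → SimpleGraph (Fin r))
    (hdeg : ∀ r x, (univ.filter ((F r).Adj x)).card ≤ Δ)
    (hcol : ∀ r, ∃ f : Fin r → Fin q, ∀ x y, (F r).Adj x y → f x ≠ f y)
    (col : α → α → Fin k) (hsymm : ∀ a b, col a b = col b a) (hk : 0 < k) (hq : 0 < q)
    (hΔ : 0 < Δ) (hK : 0 < K) (hKr : Kr = 2 * (16 * Δ * k ^ (2 * Δ)) ^ (k * q + 1))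
    (d : ℝ) (hd : d = (1 / (2 * (k : ℝ) ^ Δ) / (4 * Δ)) ^ (k * q + 1) * (1 / (2 * (k : ℝ) ^ Δ)) / 2)
    (hm2 : 1 < (1 + (d / 16) ^ 2 / 2) ^ m2 * d)
    (σ : ℝ) (hσ : σ = d * (d / 16) ^ m2 / (256 * (K + 1) * Kr * q)) : FlexProp F col K σ := by
  intro S hS
  have hkR : (1:ℝ) ≤ k := by exact_mod_cast hk
  have hqR : (1:ℝ) ≤ q := by exact_mod_cast hq
  have hKR : (1:ℝ) ≤ K := by exact_mod_cast hK
  have hΔR : (1:ℝ) ≤ Δ := by exact_mod_cast hΔ
  have hkΔ : (1:ℝ) ≤ (k : ℝ) ^ Δ := one_le_pow₀ hkR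
  have hKrpos : 0 < Kr := by rw [hKr]; positivity
  have hKrR : (1:ℝ) ≤ Kr := by exact_mod_cast hKrpos
  obtain ⟨lam, hlam⟩ : ∃ lam : ℝ, lam = 1 / (2 * (k : ℝ) ^ Δ) := ⟨_, rfl⟩
  obtain ⟨mu, hmu⟩ : ∃ mu : ℝ, mu = lam / (4 * Δ) := ⟨_, rfl⟩
  obtain ⟨θ, hθ⟩ : ∃ θ : ℝ, θ = mu ^ (k * q + 1) * lam := ⟨_, rfl⟩
  have hdθ : d = θ / 2 := by rw [hd, hθ, hmu, hlam]
  have hlam0 : 0 < lam := by rw [hlam]; positivity
  have hlam1 : lam ≤ 1 / 2 := by
    rw [hlam]
    apply one_div_le_one_div_of_le (by norm_num)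
    linarith
  have hmu0 : 0 < mu := by rw [hmu]; positivity
  have hmu1 : mu ≤ 1 := by
    rw [hmu, div_le_one (by positivity)]
    linarith
  have hθ0 : 0 < θ := by rw [hθ]; positivity
  have hθ1 : θ ≤ 1 / 2 := by
    rw [hθ]
    have : mu ^ (k * q + 1) ≤ 1 := pow_le_one₀ hmu0.le hmu1
    nlinarith
  have hd0 : 0 < d := by rw [hdθ]; positivity
  have hd1 : d ≤ 1 := by rw [hdθ]; linarith
  -- the relation between the constants
  have hprod : θ * lam ^ (k * q) * (Kr / 2) = 1 := by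
    have h5 : (mu * lam) * (16 * Δ * (k:ℝ) ^ (2 * Δ)) = 1 := by
      rw [hmu, hlam, mul_comm 2 Δ, pow_mul]
      field_simp
      ring
    have h6 : (mu * lam) ^ (k * q + 1) * (16 * Δ * (k:ℝ) ^ (2 * Δ)) ^ (k * q + 1) = 1 := by
      rw [← mul_pow, h5, one_pow]
    rw [hθ, hKr]
    push_cast
    calc mu ^ (k * q + 1) * lam * lam ^ (k * q) *
          (2 * (16 * (Δ:ℝ) * (k:ℝ) ^ (2 * Δ)) ^ (k * q + 1) / 2) =
          (mu * lam) ^ (k * q + 1) * (16 * (Δ:ℝ) * (k:ℝ) ^ (2 * Δ)) ^ (k * q + 1) := by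
          rw [mul_pow mu lam]; ring
      _ = 1 := h6
  -- size of `S`
  have hσ0 : 0 < σ := by rw [hσ]; positivity
  have hpd : (d / 16) ^ m2 ≤ 1 := pow_le_one₀ (by positivity) (by linarith)
  have hScard : (0:ℝ) ≤ S.card := Nat.cast_nonneg _
  have hσK : σ * (8 * Kr) ≤ 1 := by
    rw [hσ, div_mul_eq_mul_div, div_le_one (by positivity)]
    have h1 : d * (d / 16) ^ m2 ≤ 1 := by
      calc d * (d / 16) ^ m2 ≤ 1 * 1 := by gcongr
        _ = 1 := by norm_num
    have h2 : (1:ℝ) ≤ (K + 1) * q := by nlinarith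
    calc d * (d / 16) ^ m2 * (8 * Kr) ≤ 1 * (8 * Kr) := by gcongr
      _ ≤ 256 * (1 * Kr) := by linarith
      _ ≤ 256 * (((K + 1) * q) * Kr) := by gcongr
      _ = _ := by ring
  have hbig : 1 ≤ (S.card : ℝ) / (8 * Kr) := by
    rw [le_div_iff₀ (by positivity), one_mul]
    by_contra hcon
    push Not at hcon
    have : σ * S.card < σ * (8 * Kr) := mul_lt_mul_of_pos_left hcon hσ0
    linarith
  obtain ⟨r, hr⟩ : ∃ r, r = ⌊(S.card : ℝ) / (8 * Kr)⌋₊ := ⟨_, rfl⟩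
  have hr1 : (r : ℝ) ≤ S.card / (8 * Kr) := by rw [hr]; exact Nat.floor_le (by positivity)
  have hr2 : (S.card : ℝ) / (8 * Kr) < r + 1 := by rw [hr]; exact Nat.lt_floor_add_one _
  have hrpos : 0 < r := by
    rw [hr]; exact Nat.floor_pos.mpr hbig
  have hrR : (1:ℝ) ≤ r := by exact_mod_cast hrpos
  have hr3 : (S.card : ℝ) / (16 * Kr) ≤ r := by
    have h1 : (S.card : ℝ) / (16 * Kr) = (S.card : ℝ) / (8 * Kr) / 2 := by
      field_simp; ring
    rw [h1]; linarith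
  have hrKr : (8 * Kr : ℝ) * r ≤ S.card := by
    rw [le_div_iff₀ (by positivity)] at hr1; linarith
  -- colour classes
  obtain ⟨f0, hf0⟩ := hcol r
  obtain ⟨i0, hi0⟩ : ∃ i0, (r : ℝ) / q ≤ ((univ.filter (fun x => f0 x = i0)).card : ℝ) := by
    by_contra hcon
    push Not at hcon
    have h1 : ∑ i : Fin q, ((univ.filter (fun x => f0 x = i)).card : ℝ) <
        ∑ i : Fin q, (r : ℝ) / q :=
      sum_lt_sum_of_nonempty ⟨⟨0, hq⟩, mem_univ _⟩ fun i _ => hcon i
    rw [sum_const, nsmul_eq_mul, card_univ, Fintype.card_fin] at h1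
    have h2 : (univ : Finset (Fin r)).card = ∑ i : Fin q, (univ.filter (fun x => f0 x = i)).card :=
      card_eq_sum_card_fiberwise (fun _ _ => mem_univ _)
    rw [card_univ, Fintype.card_fin] at h2
    have h3 : (r : ℝ) = ∑ i : Fin q, ((univ.filter (fun x => f0 x = i)).card : ℝ) := by
      exact_mod_cast h2
    rw [← h3] at h1
    have : (q:ℝ) * (r / q) = r := by field_simp
    linarith
  obtain ⟨f, hfdef⟩ : ∃ f : Fin r → Fin q, f = fun x => Equiv.swap i0 ⟨0, hq⟩ (f0 x) := ⟨_, rfl⟩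
  have hf : ∀ x y, (F r).Adj x y → f x ≠ f y := by
    intro x y hxy h
    rw [hfdef] at h
    exact hf0 x y hxy ((Equiv.swap i0 ⟨0, hq⟩).injective h)
  have hf0' : ∀ x, f x = ⟨0, hq⟩ ↔ f0 x = i0 := by
    intro x
    rw [hfdef]
    beta_reduce
    rw [Equiv.swap_apply_eq_iff, Equiv.swap_apply_right]
  have : Nonempty (Fin r) := ⟨⟨0, hrpos⟩⟩
  obtain ⟨c, A, φ, hAS, hAc, hφ1, hφS, hφ3, hφc⟩ := partial_ramsey hk hq hΔ col hsymm (F r) (hdeg r)
    f hf S (by
      rw [← hKr, Fintype.card_fin]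
      have h1 : ((Kr * r : ℕ) : ℝ) ≤ S.card := by
        push_cast
        have : (0:ℝ) ≤ Kr * r := by positivity
        linarith
      exact_mod_cast h1)
  obtain ⟨SH, hSH⟩ : ∃ SH, SH = univ.filter (fun x => f x ≠ ⟨0, hq⟩) := ⟨_, rfl⟩
  obtain ⟨Q, hQ⟩ : ∃ Q, Q = univ.filter (fun x => f0 x = i0) := ⟨_, rfl⟩
  rw [← hSH] at hφ1 hφS hφ3
  simp only [← hSH] at hφc
  rw [← hQ] at hi0
  have hQSH : ∀ x, x ∈ Q ↔ x ∉ SH := by
    intro x
    rw [hQ, hSH, mem_filter, mem_filter]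
    simp [hf0']
  rw [← hlam, ← hmu, ← hθ] at hφc
  rw [← hlam] at hAc
  have hrA : (r : ℝ) ≤ θ * A.card / 16 := by
    have h1 : θ * (lam ^ (k * q) * S.card) ≤ θ * A.card := by gcongr
    have h2 : θ * (lam ^ (k * q) * ((8 * Kr) * r)) ≤ θ * (lam ^ (k * q) * S.card) := by gcongr
    have h3 : θ * (lam ^ (k * q) * ((8 * Kr) * r)) = (θ * lam ^ (k * q) * (Kr / 2)) * (16 * r) := by
      ring
    rw [h3, hprod, one_mul] at h2
    linarith
  -- remove the image of the embedding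
  obtain ⟨A', hA'⟩ : ∃ A', A' = A \ SH.image φ := ⟨_, rfl⟩
  have hSHr : (SH.image φ).card ≤ r := by
    refine card_image_le.trans ?_
    have := card_le_univ SH
    rwa [Fintype.card_fin] at this
  have hAA' : (A.card : ℝ) ≤ A'.card + r := by
    have h1 : A.card ≤ A'.card + (SH.image φ).card := by
      rw [hA']
      have := card_le_card (show A ⊆ (A \ SH.image φ) ∪ SH.image φ by
        rw [sdiff_union_self_eq_union]; exact subset_union_left)
      exact this.trans (card_union_le _ _)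
    have h2 : A.card ≤ A'.card + r := h1.trans (by omega)
    exact_mod_cast h2
  have hA'A : (A'.card : ℝ) ≤ A.card := by
    rw [hA']; exact_mod_cast card_le_card sdiff_subset
  have hA0 : (0:ℝ) ≤ A.card := Nat.cast_nonneg _
  have hθA : θ * A.card ≤ A.card / 2 := by nlinarith
  have hA'2 : (A.card : ℝ) / 2 ≤ A'.card := by linarith
  have hQne : Q.Nonempty := by
    rw [← card_pos]
    have : (0:ℝ) < Q.card := lt_of_lt_of_le (by positivity) hi0
    exact_mod_cast this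
  obtain ⟨g, hg⟩ : ∃ g : ℕ, g = ⌈σ * S.card⌉₊ := ⟨_, rfl⟩
  have hg1 : σ * S.card ≤ g := by rw [hg]; exact Nat.le_ceil _
  have hg2 : (g:ℝ) ≤ 2 * (σ * S.card) := by
    have := Nat.ceil_lt_add_one (show 0 ≤ σ * S.card by positivity)
    rw [← hg] at this
    linarith
  have hgR : (1:ℝ) ≤ g := hS.trans hg1
  have hgh : (K + 1) * g ≤ d / 8 * ((d / 16) ^ m2 * (r / q)) := by
    calc (K + 1) * (g:ℝ) ≤ (K + 1) * (2 * (σ * S.card)) := by gcongr
      _ = d / 8 * ((d / 16) ^ m2 * (S.card / (16 * Kr) / q)) := by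
          rw [hσ]; field_simp; ring
      _ ≤ d / 8 * ((d / 16) ^ m2 * (r / q)) := by gcongr
  obtain ⟨Φ, X, hΦA, hXA, hΦX, hKg, hmono⟩ := flex_of_cand (K := K) F col hsymm c r Q SH hQSH
    (by
      intro x hx y hy hxy
      rw [hQ, mem_filter] at hx hy
      exact hf0 x y hxy (hx.2.trans hy.2.symm)) hQne φ hφ1 hφ3 A' (by
      intro x hx h
      rw [hA', mem_sdiff] at h
      exact h.2 (mem_image_of_mem φ hx)) d hd0 hd1 (by
      intro x hx
      have h1 : f x = ⟨0, hq⟩ := by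
        rw [hQ, mem_filter] at hx
        exact (hf0' x).mpr hx.2
      have h2 := hφc x h1
      have h3 : ((A.filter (fun w => ∀ y ∈ SH, (F r).Adj x y → col (φ y) w = c)).card : ℝ) ≤
          ((A'.filter (fun w => ∀ y ∈ SH, (F r).Adj x y → col (φ y) w = c)).card : ℝ) + r := by
        have h4 : (A.filter (fun w => ∀ y ∈ SH, (F r).Adj x y → col (φ y) w = c)).card ≤
            (A'.filter (fun w => ∀ y ∈ SH, (F r).Adj x y → col (φ y) w = c)).card +
            (SH.image φ).card := by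
          refine (card_le_card ?_).trans (card_union_le _ _)
          intro w hw
          rw [mem_filter] at hw
          rw [mem_union, mem_filter, hA', mem_sdiff]
          by_cases hwi : w ∈ SH.image φ
          · exact Or.inr hwi
          · exact Or.inl ⟨⟨hw.1, hwi⟩, hw.2⟩
        have h5 := h4.trans (Nat.add_le_add_left hSHr _)
        exact_mod_cast h5
      have h4 : d * A'.card ≤ d * A.card := by gcongr
      rw [hdθ] at h4 ⊢
      linarith) (by
      have h1 : d * (A.card / 2) ≤ d * A'.card := by gcongr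
      rw [hdθ] at h1 ⊢
      linarith) m2 hm2 ((d / 16) ^ m2 * (r / q)) (by gcongr) (by
      have h1 : (2:ℝ) ≤ (K + 1) * g := by nlinarith
      linarith) g hgh
  refine ⟨Φ, X, g, ?_, ?_, hΦX, hg1, hKg, hmono⟩
  · refine hΦA.trans ?_
    rw [hA']
    exact sdiff_subset.trans hAS
  · refine hXA.trans (union_subset ?_ ?_)
    · intro y hy
      rw [mem_image] at hy
      obtain ⟨x, hx, rfl⟩ := hy
      exact hφS x hx
    · rw [hA']
      exact sdiff_subset.trans hAS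

end Pool.Agent.H21.Poly
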