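import Pool.Agent.H21.Poly.DynMain
import Pool.Agent.H21.Poly.FlexProp2
import Pool.Agent.H21.Poly.Asym2
import Pool.Agent.H21.Tile.Asym

/-! The number of tiles. -/

namespace Pool.Agent.H21.Poly

open Finset Classical Pool.Agent.H21.Tile

lemma linRam_of' {α : Type*} [Nonempty α] {k q Δ : ℕ} (F : (r : ℕ) → SimpleGraph (Fin r))
    (hdeg : ∀ r x, (univ.filter ((F r).Adj x)).card ≤ Δ)
    (hcol : ∀ r, ∃ f : Fin r → Fin q, ∀ x y, (F r).Adj x y → f x ≠ f y)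
    (col : α → α → Fin k) (hsymm : ∀ a b, col a b = col b a) (hk : 0 < k) (hΔ : 0 < Δ) :
    LinRam F col (2 * (16 * Δ * k ^ (2 * Δ)) ^ (k * q + 1)) := by
  intro S b hb hS
  obtain ⟨f, hf⟩ := hcol b
  have : Nonempty (Fin b) := ⟨⟨0, hb⟩⟩
  obtain ⟨c, φ, h1, h2, h3⟩ := linear_ramsey hk hΔ col hsymm (F b) (hdeg b) f hf S
    (by rw [Fintype.card_fin]; exact hS)
  refine ⟨univ.image φ, ?_, ?_, c, b, φ, h1, rfl, h3⟩
  · intro y hy
    rw [mem_image] at hy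
    obtain ⟨x, _, rfl⟩ := hy
    exact h2 x
  · rw [card_image_of_injective _ h1, card_univ, Fintype.card_fin]

/-- binary length -/
def lg (D : ℕ) : ℕ := Nat.log 2 D + 1

/-- the exponent of the number of tiles -/
def EF (k q D : ℕ) : ℕ := D * q + ∑ r ∈ range (k - 1), Br D (lg D) r

lemma EF_ge_mul (k q D : ℕ) : D * q ≤ EF k q D := Nat.le_add_right _ _

lemma EF_ge (k q D : ℕ) (hq : 1 ≤ q) : D ≤ EF k q D :=
  (Nat.le_mul_of_pos_right _ hq).trans (EF_ge_mul k q D)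

lemma EF_pos (k : ℕ) : ∀ q D, 1 ≤ q → 1 ≤ D → 1 ≤ EF k q D := fun q D hq hD =>
  hD.trans (EF_ge k q D hq)

lemma lg_spec (D : ℕ) : D + 1 ≤ 2 ^ lg D := Nat.lt_pow_succ_log_self (by norm_num) D

lemma lg_le (D : ℕ) (hD : 1 ≤ D) : lg D ≤ D := by
  unfold lg
  have : Nat.log 2 D < D := Nat.log_lt_self 2 (by omega)
  omega

section poly

variable {E : ℕ → ℕ → ℕ} (hE : ∀ q D, 1 ≤ q → 1 ≤ D → 1 ≤ E q D)
  (hED : ∀ q D, 1 ≤ q → 1 ≤ D → D ≤ E q D)

include hE hED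

lemma EE_D : EE E (fun _ D => (D : ℝ)) := by
  refine ⟨1, fun q D hq hD => ?_⟩
  have h1 : D ≤ 2 ^ (1 * E q D) := by
    rw [one_mul]
    exact (hED q D hq hD).trans Nat.lt_two_pow_self.le
  change (D : ℝ) ≤ _
  exact_mod_cast h1

lemma EE_lg : EE E (fun _ D => (lg D : ℝ)) :=
  (EE_D hE hED).mono fun _ D _ hD => by exact_mod_cast lg_le D hD

lemma EE_Bx (r : ℕ) : ∀ p : ℕ → ℕ → ℕ, EE E (fun q D => (p q D : ℝ)) →
    EE E (fun q D => (Bx D (lg D) (p q D) r : ℝ)) := by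
  have hD := EE_D hE hED
  have hl := EE_lg hE hED
  induction r with
  | zero =>
    intro p hp
    have h1 : EE E (fun q D => (2:ℝ) * ((p q D : ℝ) + 2 + lg D)) :=
      (EE.const hE 2).mul (EE.add hE (EE.add hE hp (EE.const hE 2)) hl)
        (fun _ _ _ _ => by positivity)
    refine h1.mono fun q D _ _ => le_of_eq ?_
    rw [Bx]; push_cast; ring
  | succ r ih =>
    intro p hp
    have h0 := ih p hp
    have h1 : EE E (fun q D => (Bx D (lg D) (p q D) r : ℝ) + 1 +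
        2 * (((Bx D (lg D) (p q D) r : ℝ) + 2) *
          ((p q D : ℝ) + D * ((Bx D (lg D) (p q D) r : ℝ) + 4) + lg D + 3))) := by
      refine EE.add hE (EE.add hE h0 (EE.const hE 1)) ((EE.const hE 2).mul
        ((EE.add hE h0 (EE.const hE 2)).mul (EE.add hE (EE.add hE (EE.add hE hp
          (hD.mul (EE.add hE h0 (EE.const hE 4)) (fun _ _ _ _ => by positivity))) hl)
          (EE.const hE 3)) (fun _ _ _ _ => by positivity)) (fun _ _ _ _ => by positivity))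
    refine h1.mono fun q D _ _ => le_of_eq ?_
    rw [Bx]; push_cast; ring

lemma EE_sr (r : ℕ) : EE E (fun _ D => (sr D (lg D) r : ℝ)) := by
  induction r with
  | zero =>
    refine (EE.const hE 1).mono fun q D _ _ => le_of_eq ?_
    rw [sr]; norm_num
  | succ r ih =>
    have h1 : EE E (fun _ D => ((sr D (lg D) r + 1 : ℕ) : ℝ)) :=
      (EE.add hE ih (EE.const hE 1)).mono fun q D _ _ => le_of_eq (by push_cast; rfl)
    have h2 := EE_Bx hE hED r (fun _ D => sr D (lg D) r + 1) h1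
    refine (EE.add hE (EE.add hE h2 ih) (EE.const hE 1)).mono fun q D _ _ => le_of_eq ?_
    rw [sr]; push_cast; rfl

lemma EE_Br (r : ℕ) : EE E (fun _ D => (Br D (lg D) r : ℝ)) := by
  have h1 : EE E (fun _ D => ((sr D (lg D) r + 1 : ℕ) : ℝ)) :=
    (EE.add hE (EE_sr hE hED r) (EE.const hE 1)).mono fun q D _ _ => le_of_eq (by push_cast; rfl)
  exact EE_Bx hE hED r (fun _ D => sr D (lg D) r + 1) h1

lemma EE_Sg (k j : ℕ) : EE E (fun _ D => (Sg D (lg D) k j : ℝ)) := by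
  have h1 := EE.sum hE (range (j + 1)) (fun i _ D => (Br D (lg D) (k - 1 - i) : ℝ))
    (fun i _ => EE_Br hE hED (k - 1 - i))
  refine h1.mono fun q D _ _ => le_of_eq ?_
  unfold Sg; push_cast; rfl

end poly

lemma EE_Gs (k : ℕ) (j : ℕ) (hj : j ≤ k - 1) :
    EE (EF k) (fun _ D => (Gs D (lg D) k j : ℝ)) := by
  have hE := EF_pos k
  induction j with
  | zero =>
    refine (EE.const hE 1).mono fun q D _ _ => le_of_eq ?_
    rw [Gs]; norm_num
  | succ j ih =>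
    have h0 := ih (by omega)
    have h1 : EE (EF k) (fun _ D => (2:ℝ) ^ (Br D (lg D) (k - 1 - (j + 1)) + 1)) := by
      apply EE.two_pow 2
      intro q D hq hD
      have h2 : Br D (lg D) (k - 1 - (j + 1)) ≤ ∑ r ∈ range (k - 1), Br D (lg D) r :=
        single_le_sum (f := fun r => Br D (lg D) r) (fun _ _ => Nat.zero_le _)
          (mem_range.mpr (by omega))
      have h3 := EF_ge k q D hq
      have h4 : ∑ r ∈ range (k - 1), Br D (lg D) r ≤ EF k q D := Nat.le_add_left _ _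
      omega
    have h2 : EE (EF k) (fun _ D => (k.choose (j + 1) : ℝ) *
        2 ^ (Br D (lg D) (k - 1 - (j + 1)) + 1) * Gs D (lg D) k j + 1) :=
      EE.add hE (((EE.const hE _).mul h1 (fun _ _ _ _ => by positivity)).mul h0
        (fun _ _ _ _ => by positivity)) (EE.const hE 1)
    refine h2.mono fun q D _ _ => le_of_eq ?_
    rw [Gs]; push_cast; rfl

theorem main_poly (k : ℕ) (hk : 0 < k) : ∃ C : ℕ, ∀ q Δ : ℕ, 1 ≤ q → 1 ≤ Δ →
    ∀ {α : Type} [Fintype α] [Nonempty α] (F : (r : ℕ) → SimpleGraph (Fin r)),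
    (∀ r x, (univ.filter ((F r).Adj x)).card ≤ Δ) →
    (∀ r, ∃ f : Fin r → Fin q, ∀ x y, (F r).Adj x y → f x ≠ f y) →
    ∀ (col : α → α → Fin k), (∀ a b, col a b = col b a) → ∀ V : Finset α,
    Tiles F col V (2 ^ (C * EF k q Δ)) := by
  have hkR : (1:ℝ) ≤ k := by exact_mod_cast hk
  have hE := EF_pos k
  have hED : ∀ q D, 1 ≤ q → 1 ≤ D → D ≤ EF k q D := fun q D hq _ => EF_ge k q D hq
  obtain ⟨Kf, hKf⟩ : ∃ f : ℕ → ℕ → ℕ, f = fun q D =>
    2 * (16 * D * k ^ (2 * D)) ^ (k * q + 1) := ⟨_, rfl⟩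
  obtain ⟨df, hdf⟩ : ∃ f : ℕ → ℕ → ℝ, f = fun (q D : ℕ) =>
    (1 / (2 * (k : ℝ) ^ D) / (4 * (D : ℝ))) ^ (k * q + 1) * (1 / (2 * (k : ℝ) ^ D)) / 2 := ⟨_, rfl⟩
  obtain ⟨m2f, hm2f⟩ : ∃ f : ℕ → ℕ → ℕ, f = fun q D => ⌈512 / df q D ^ 3⌉₊ := ⟨_, rfl⟩
  obtain ⟨σf, hσf⟩ : ∃ f : ℕ → ℕ → ℝ, f = fun q D =>
    df q D * (df q D / 16) ^ m2f q D / (256 * (Kf q D + 1) * Kf q D * q) := ⟨_, rfl⟩
  obtain ⟨τf, hτf⟩ : ∃ f : ℕ → ℕ → ℝ, f = fun q D =>
    (1 / 2) ^ (2 * Sg D (lg D) k (k - 1) + 1) * σf q D /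
      ((D * D + D + 1) * Gs D (lg D) k (k - 1)) := ⟨_, rfl⟩
  obtain ⟨mgf, hmgf⟩ : ∃ f : ℕ → ℕ → ℕ, f = fun q D =>
    ⌈2 * Kf q D * (- Real.log (τf q D))⌉₊ := ⟨_, rfl⟩
  obtain ⟨msf, hmsf⟩ : ∃ f : ℕ → ℕ → ℕ, f = fun q D =>
    ⌈2 * Kf q D * (- Real.log (σf q D))⌉₊ := ⟨_, rfl⟩
  -- elementary exponential bounds
  have hk2 : k ≤ 2 ^ k := Nat.lt_two_pow_self.le
  have hD2 : ∀ D : ℕ, D ≤ 2 ^ D := fun D => Nat.lt_two_pow_self.le
  have EEK : EE (EF k) (fun q D => (Kf q D : ℝ)) := by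
    refine ⟨1 + (4 + 1 + 2 * k) * (k + 1), fun q D hq hD => ?_⟩
    have h1 : Kf q D ≤ 2 ^ (1 + (4 + D + k * (2 * D)) * (k * q + 1)) := by
      rw [hKf]
      beta_reduce
      rw [pow_add 2 1, pow_one, pow_mul 2]
      apply Nat.mul_le_mul_left
      apply Nat.pow_le_pow_left
      rw [pow_add 2 (4 + D), pow_add 2 4, pow_mul 2]
      apply Nat.mul_le_mul
      · apply Nat.mul_le_mul (by norm_num) (hD2 D)
      · exact Nat.pow_le_pow_left hk2 _
    have h2 : 1 + (4 + D + k * (2 * D)) * (k * q + 1) ≤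
        (1 + (4 + 1 + 2 * k) * (k + 1)) * EF k q D := by
      have h3 := EF_ge_mul k q D
      have h4 : 4 + D + k * (2 * D) ≤ (4 + 1 + 2 * k) * D := by nlinarith
      have h5 : k * q + 1 ≤ (k + 1) * q := by nlinarith
      have h6 : 1 ≤ D * q := Nat.mul_pos hD hq
      calc 1 + (4 + D + k * (2 * D)) * (k * q + 1) ≤
            D * q + ((4 + 1 + 2 * k) * D) * ((k + 1) * q) := by gcongr
        _ = (1 + (4 + 1 + 2 * k) * (k + 1)) * (D * q) := by ring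
        _ ≤ _ := Nat.mul_le_mul_left _ h3
    have h3 : Kf q D ≤ 2 ^ ((1 + (4 + 1 + 2 * k) * (k + 1)) * EF k q D) :=
      h1.trans (Nat.pow_le_pow_right (by norm_num) h2)
    change (Kf q D : ℝ) ≤ _
    exact_mod_cast h3
  have hKf1 : ∀ q D, 1 ≤ q → 1 ≤ D → (1:ℝ) ≤ Kf q D := by
    intro q D _ hD
    have : 0 < Kf q D := by rw [hKf]; positivity
    exact_mod_cast this
  have EEdinv : EE (EF k) (fun q D => 2 * ((2 * (k : ℝ) ^ D * (4 * (D : ℝ))) ^ (k * q + 1) *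
      (2 * (k : ℝ) ^ D))) := by
    refine ⟨1 + (1 + k + 2 + 1) * (k + 1) + (1 + k), fun q D hq hD => ?_⟩
    have h1 : 2 * ((2 * k ^ D * (4 * D)) ^ (k * q + 1) * (2 * k ^ D)) ≤
        2 ^ (1 + ((1 + k * D + (2 + D)) * (k * q + 1) + (1 + k * D))) := by
      rw [pow_add 2 1, pow_one]
      apply Nat.mul_le_mul_left
      have h2 : 2 * k ^ D ≤ 2 ^ (1 + k * D) := by
        rw [pow_add 2 1, pow_one, pow_mul 2]
        exact Nat.mul_le_mul_left _ (Nat.pow_le_pow_left hk2 _)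
      rw [pow_add 2 _ (1 + k * D)]
      apply Nat.mul_le_mul _ h2
      rw [pow_mul 2]
      apply Nat.pow_le_pow_left
      rw [pow_add 2 _ (2 + D)]
      apply Nat.mul_le_mul h2
      rw [pow_add 2 2]
      exact Nat.mul_le_mul (by norm_num) (hD2 D)
    have h2 : 1 + ((1 + k * D + (2 + D)) * (k * q + 1) + (1 + k * D)) ≤
        (1 + (1 + k + 2 + 1) * (k + 1) + (1 + k)) * EF k q D := by
      have h3 := EF_ge_mul k q D
      have h4 : 1 + k * D + (2 + D) ≤ (1 + k + 2 + 1) * D := by nlinarith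
      have h5 : k * q + 1 ≤ (k + 1) * q := by nlinarith
      have h6 : 1 ≤ D * q := Nat.mul_pos hD hq
      have h7 : 1 + k * D ≤ (1 + k) * (D * q) := by
        have : D ≤ D * q := Nat.le_mul_of_pos_right _ hq
        nlinarith
      calc 1 + ((1 + k * D + (2 + D)) * (k * q + 1) + (1 + k * D)) ≤
            D * q + (((1 + k + 2 + 1) * D) * ((k + 1) * q) + (1 + k) * (D * q)) := by gcongr
        _ = (1 + (1 + k + 2 + 1) * (k + 1) + (1 + k)) * (D * q) := by ring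
        _ ≤ _ := Nat.mul_le_mul_left _ h3
    have h3 := h1.trans (Nat.pow_le_pow_right (by norm_num) h2)
    change 2 * ((2 * (k : ℝ) ^ D * (4 * (D : ℝ))) ^ (k * q + 1) * (2 * (k : ℝ) ^ D)) ≤ _
    exact_mod_cast h3
  have hdinv1 : ∀ q D : ℕ, 1 ≤ q → 1 ≤ D → (1:ℝ) ≤ 2 * ((2 * (k : ℝ) ^ D * (4 * D)) ^ (k * q + 1) *
      (2 * (k : ℝ) ^ D)) := by
    intro q D _ hD
    have h1 : (1:ℝ) ≤ (k:ℝ) ^ D := one_le_pow₀ hkR
    have hDR : (1:ℝ) ≤ D := by exact_mod_cast hD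
    have h2 : (1:ℝ) ≤ 2 * (k : ℝ) ^ D := by linarith
    have h3 : (1:ℝ) ≤ 2 * (k : ℝ) ^ D * (4 * D) := by nlinarith
    have h4 : (1:ℝ) ≤ (2 * (k : ℝ) ^ D * (4 * D)) ^ (k * q + 1) := one_le_pow₀ h3
    nlinarith
  have hdfinv : ∀ q D : ℕ, 1 ≤ q → 1 ≤ D → df q D =
      1 / (2 * ((2 * (k : ℝ) ^ D * (4 * D)) ^ (k * q + 1) * (2 * (k : ℝ) ^ D))) := by
    intro q D _ hD
    have hDR : (0:ℝ) < D := by exact_mod_cast hD
    rw [hdf]
    beta_reduce
    rw [div_div, one_div_pow]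
    field_simp
  have LEd : LE' (EF k) df := by
    have h1 := LE'.inv EEdinv hdinv1
    refine ⟨fun q D hq hD => ?_, fun q D hq hD => ?_, ?_⟩
    · rw [hdfinv q D hq hD]; exact h1.1 q D hq hD
    · rw [hdfinv q D hq hD]; exact h1.2.1 q D hq hD
    · refine h1.2.2.mono fun q D hq hD => le_of_eq ?_
      rw [hdfinv q D hq hD]
  have EEm2 : EE (EF k) (fun q D => (m2f q D : ℝ)) := by
    rw [hm2f]
    apply EE.ceil hE
    · have h1 : EE (EF k) (fun q D => 512 * (2 * ((2 * (k : ℝ) ^ D * (4 * D)) ^ (k * q + 1) *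
          (2 * (k : ℝ) ^ D))) ^ 3) :=
        (EE.const hE 512).mul (EEdinv.pow (fun _ _ _ _ => by positivity) 3)
          (fun _ _ _ _ => by positivity)
      refine h1.mono fun q D hq hD => le_of_eq ?_
      rw [hdfinv q D hq hD, one_div_pow, div_div_eq_mul_div, div_one]
    · intro q D hq hD
      have := LEd.1 q D hq hD
      positivity
  have LEd16 : LE' (EF k) (fun q D => df q D / 16) :=
    LE'.div hE LEd (EE.const hE 16) (fun _ _ _ _ => by norm_num)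
  have EEq : EE (EF k) (fun q _ => (q : ℝ)) := by
    refine ⟨1, fun q D hq hD => ?_⟩
    have h1 : q ≤ 2 ^ (1 * EF k q D) := by
      rw [one_mul]
      exact ((Nat.le_mul_of_pos_left q hD).trans (EF_ge_mul k q D)).trans Nat.lt_two_pow_self.le
    change (q : ℝ) ≤ _
    exact_mod_cast h1
  have LEσ : LE' (EF k) σf := by
    rw [hσf]
    apply LE'.div hE (LE'.mul hE LEd (LEd16.pow EEm2))
    · exact (((EE.const hE 256).mul (EE.add hE EEK (EE.const hE 1))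
        (fun _ _ _ _ => by positivity)).mul EEK (fun _ _ _ _ => by positivity)).mul EEq
        (fun _ _ _ _ => by positivity)
    · intro q D hq hD
      have h1 := hKf1 q D hq hD
      have h2 : (1:ℝ) ≤ q := by exact_mod_cast hq
      have h3 : (1:ℝ) ≤ 256 * (Kf q D + 1) := by linarith
      have h4 : (1:ℝ) ≤ 256 * (Kf q D + 1) * Kf q D := by nlinarith
      nlinarith
  have LEhalf : LE' (EF k) (fun _ _ => (1 / 2 : ℝ)) :=
    ⟨fun _ _ _ _ => by norm_num, fun _ _ _ _ => by norm_num, EE.const hE _⟩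
  have EESg : EE (EF k) (fun _ D => ((2 * Sg D (lg D) k (k - 1) + 1 : ℕ) : ℝ)) := by
    refine (EE.add hE ((EE.const hE 2).mul (EE_Sg hE hED k (k - 1))
      (fun _ _ _ _ => by positivity)) (EE.const hE 1)).mono fun q D _ _ => le_of_eq ?_
    push_cast; rfl
  have EEG := EE_Gs k (k - 1) le_rfl
  have hG1 : ∀ D, (1:ℝ) ≤ Gs D (lg D) k (k - 1) := fun D => by
    exact_mod_cast Gs_pos D (lg D) k (k - 1)
  have LEτ : LE' (EF k) τf := by
    rw [hτf]
    apply LE'.div hE (LE'.mul hE (LEhalf.pow EESg) LEσ)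
    · exact (EE.add hE (EE.add hE ((EE_D hE hED).mul (EE_D hE hED) (fun _ _ _ _ => by positivity))
        (EE_D hE hED)) (EE.const hE 1)).mul EEG (fun _ _ _ _ => by positivity)
    · intro q D hq hD
      have h1 := hG1 D
      have h2 : (1:ℝ) ≤ D := by exact_mod_cast hD
      have h3 : (1:ℝ) ≤ D * D + D + 1 := by nlinarith
      nlinarith
  have EE2K : EE (EF k) (fun q D => 2 * (Kf q D : ℝ)) :=
    (EE.const hE 2).mul EEK (fun _ _ _ _ => Nat.cast_nonneg _)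
  have EEmg : EE (EF k) (fun q D => (mgf q D : ℝ)) := by
    rw [hmgf]
    apply EE.ceil hE (EE2K.mul LEτ.2.2 LEτ.neglog_nonneg)
    intro q D hq hD
    have := LEτ.neglog_nonneg q D hq hD
    positivity
  have EEms : EE (EF k) (fun q D => (msf q D : ℝ)) := by
    rw [hmsf]
    apply EE.ceil hE (EE2K.mul LEσ.2.2 LEσ.neglog_nonneg)
    intro q D hq hD
    have := LEσ.neglog_nonneg q D hq hD
    positivity
  obtain ⟨C, hC⟩ : EE (EF k) (fun q D =>
      ((Gs D (lg D) k (k - 1) * (mgf q D + msf q D + 3) : ℕ) : ℝ)) := by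
    have h1 : EE (EF k) (fun q D => (Gs D (lg D) k (k - 1) : ℝ) *
        ((mgf q D : ℝ) + msf q D + 3)) :=
      EEG.mul (EE.add hE (EE.add hE EEmg EEms) (EE.const hE 3)) (fun _ _ _ _ => by positivity)
    refine h1.mono fun q D _ _ => le_of_eq ?_
    push_cast; ring
  refine ⟨C, ?_⟩
  intro q Δ hq hΔ α _ _ F hdeg hcol col hsymm V
  have hfin : Gs Δ (lg Δ) k (k - 1) * (mgf q Δ + msf q Δ + 3) ≤ 2 ^ (C * EF k q Δ) := by
    have h1 := hC q Δ hq hΔ
    beta_reduce at h1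
    exact_mod_cast h1
  refine Tiles.mono ?_ hfin
  have hd0 := LEd.1 q Δ hq hΔ
  have hKpos : 0 < Kf q Δ := by
    have := hKf1 q Δ hq hΔ
    have h0 : (0:ℝ) < Kf q Δ := by linarith
    exact_mod_cast h0
  have hlin : LinRam F col (Kf q Δ) := by
    rw [hKf]
    exact linRam_of' F hdeg hcol col hsymm hk hΔ
  have hm2c : 1 < (1 + (df q Δ / 16) ^ 2 / 2) ^ (m2f q Δ) * df q Δ := by
    apply bernoulli_big _ _ (by positivity) hd0
    have h1 : 512 / df q Δ ^ 3 ≤ m2f q Δ := by rw [hm2f]; exact Nat.le_ceil _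
    refine le_trans (le_of_eq ?_) h1
    field_simp
    ring
  have hflex : FlexProp F col (Kf q Δ) (σf q Δ) :=
    flexProp2 (Kr := Kf q Δ) (m2 := m2f q Δ) F hdeg hcol col hsymm hk hq hΔ hKpos (by rw [hKf])
      (df q Δ) (by rw [hdf]) hm2c (σf q Δ) (by rw [hσf])
  have hσ0 := LEσ.1 q Δ hq hΔ
  have hτ0 := LEτ.1 q Δ hq hΔ
  have hKR := hKf1 q Δ hq hΔ
  apply dyn_main F hdeg col hsymm (lg_spec Δ) hKpos hlin hk (σf q Δ) hσ0 hflex (τf q Δ)
    (by rw [hτf]) (mgf q Δ) (msf q Δ)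
  · apply pow_small (Kf q Δ) hKR (τf q Δ) hτ0
    rw [hmgf]
    exact Nat.le_ceil _
  · have h1 : (1 - 1 / (2 * (Kf q Δ : ℝ))) ^ (msf q Δ) ≤ σf q Δ := by
      apply pow_small (Kf q Δ) hKR _ hσ0
      rw [hmsf]
      exact Nat.le_ceil _
    calc (1 - 1 / (2 * (Kf q Δ : ℝ))) ^ (msf q Δ) * (1 / σf q Δ) ≤ σf q Δ * (1 / σf q Δ) := by
          gcongr
      _ = 1 := by field_simp

end Pool.Agent.H21.Poly
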