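import Pool.Agent.H21.Tile.Flex
import Pool.Agent.H21.Poly.PartRam
import Pool.Agent.H21.Poly.FlexDef

/-! Flexible sets from an embedding with candidate sets. -/

namespace Pool.Agent.H21.Poly

open Finset Classical Pool.Agent.H21.Tile

theorem flex_of_cand {α : Type*} [Nonempty α] {k K : ℕ} (F : (r : ℕ) → SimpleGraph (Fin r))
    (col : α → α → Fin k) (hsymm : ∀ a b, col a b = col b a) (c : Fin k) (r : ℕ)
    (Q SH : Finset (Fin r)) (hQSH : ∀ x, x ∈ Q ↔ x ∉ SH)
    (hQind : ∀ x ∈ Q, ∀ y ∈ Q, ¬ (F r).Adj x y) (hQne : Q.Nonempty)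
    (φ : Fin r → α) (hφ2 : Set.InjOn φ SH)
    (hφ3 : ∀ x ∈ SH, ∀ y ∈ SH, (F r).Adj x y → col (φ x) (φ y) = c)
    (A : Finset α) (hφn : ∀ x ∈ SH, φ x ∉ A) (d : ℝ) (hd0 : 0 < d) (hd1 : d ≤ 1)
    (hcand0 : ∀ x ∈ Q, d * A.card ≤
      ((A.filter (fun w => ∀ y ∈ SH, (F r).Adj x y → col (φ y) w = c)).card : ℝ))
    (hAr : 4 * (r:ℝ) ≤ d * A.card)
    (m2 : ℕ) (hm2 : 1 < (1 + (d / 16) ^ 2 / 2) ^ m2 * d)
    (h : ℝ) (hh : h ≤ (d / 16) ^ m2 * Q.card) (hh2 : 8 ≤ d / 2 * h)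
    (g : ℕ) (hg : (K + 1) * g ≤ d / 8 * h) :
    ∃ Φ X : Finset α, Φ ⊆ A ∧ X ⊆ SH.image φ ∪ A ∧ Disjoint Φ X ∧ K * g + g ≤ Φ.card ∧
      ∀ Φ' ⊆ Φ, Φ'.card + g = Φ.card → MonoSet F col (X ∪ Φ') := by
  have hr : 0 < r := by
    obtain ⟨x, _⟩ := hQne
    exact Fin.pos x
  have hr0 : (0:ℝ) < r := by exact_mod_cast hr
  have hQr : Q.card ≤ r := by
    have := card_le_univ Q
    rwa [Fintype.card_fin] at this
  have hQpos : (0:ℝ) < Q.card := by exact_mod_cast card_pos.mpr hQne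
  -- the candidate graph
  obtain ⟨rel2, hrel2⟩ : ∃ rel2 : Fin r → α → Prop, ∀ x w, rel2 x w ↔
      ∀ y ∈ SH, (F r).Adj x y → col (φ y) w = c := ⟨_, fun _ _ => Iff.rfl⟩
  have hcand : ∀ x ∈ Q, d * A.card ≤ ((A.filter (rel2 x)).card : ℝ) := by
    intro x hx
    refine (hcand0 x hx).trans (le_of_eq ?_)
    congr 2
    ext w
    simp only [mem_filter, hrel2]
  have hArd : (r:ℝ) ≤ A.card := by
    have : d * A.card ≤ 1 * A.card := by gcongr
    linarith
  have hQA : Q.card ≤ A.card := by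
    have : ((Q.card : ℕ) : ℝ) ≤ A.card := le_trans (by exact_mod_cast hQr) hArd
    exact_mod_cast this
  obtain ⟨B1, hB1, hB1c, hB1e⟩ := avg_subset'
    (fun w => ((Q.filter (fun x => rel2 x w)).card : ℝ)) A hQA
  rw [← ed_comm, ← ed_comm] at hB1e
  have hed1 : Q.card * (d * A.card) ≤ ed rel2 Q A := by
    unfold ed
    rw [← nsmul_eq_mul, ← sum_const]
    exact sum_le_sum fun x hx => hcand x hx
  have hA0pos : (0:ℝ) < A.card := by linarith
  have hed2 : d * (Q.card * B1.card) ≤ ed rel2 Q B1 := by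
    rw [hB1c]
    have h1 : A.card * (d * (Q.card * Q.card)) ≤ A.card * ed rel2 Q B1 := by
      calc (A.card : ℝ) * (d * (Q.card * Q.card)) = Q.card * (Q.card * (d * A.card)) := by
            ring
        _ ≤ Q.card * ed rel2 Q A := by gcongr
        _ ≤ _ := hB1e
    exact le_of_mul_le_mul_left h1 hA0pos
  obtain ⟨Q', hQ', B', hB', hQ'ne, hQB', hQ'c, hreg2⟩ := balreg rel2 (d / 16) (by positivity)
    (by linarith) m2 d Q B1 hd0 hQne hB1c.symm hm2 hed2
  set n := Q'.card with hn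
  have hhn : h ≤ n := by
    exact hh.trans hQ'c
  have hnpos : (0:ℝ) < n := by
    have : 0 < n := card_pos.mpr hQ'ne
    exact_mod_cast this
  have hdn : d / 2 * h ≤ d / 2 * n := by gcongr
  set e := ⌈d / 16 * n⌉₊ with he
  have he1 : d / 16 * n ≤ e := Nat.le_ceil _
  have he2 : (e : ℝ) < d / 16 * n + 1 := Nat.ceil_lt_add_one (by positivity)
  have he0 : 0 < e := Nat.ceil_pos.mpr (by positivity)
  have hgR : (g : ℝ) ≤ d / 8 * n := by
    have h1 : (g : ℝ) ≤ (K + 1) * g := by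
      have : (0:ℝ) ≤ K := Nat.cast_nonneg _
      have : (0:ℝ) ≤ g := Nat.cast_nonneg _
      nlinarith
    have h2 : d / 8 * h ≤ d / 8 * n := by gcongr
    linarith
  have heg : (2 * e + g : ℝ) ≤ d / 2 * n := by linarith
  obtain ⟨Qf, hQf, Φ, hΦ, hQfc, hΦc, hQΦ, hrob⟩ := robust_matching rel2 Q' B' n g e rfl hQB'.symm
    (d / 16) (d / 2) (by positivity) he1 he0 (by
      intro A' hA' B'' hB'' h1 h2
      exact hreg2 A' hA' B'' hB'' h1 (by rw [← hQB']; exact h2)) heg (by linarith)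
  have hnr : n ≤ r := (card_le_card hQ').trans hQr
  have hen : e ≤ n := by
    have : (e:ℝ) ≤ n := by
      have : d / 2 * n ≤ n := by nlinarith
      have : (0:ℝ) ≤ g := Nat.cast_nonneg _
      have : (0:ℝ) ≤ e := Nat.cast_nonneg _
      linarith
    exact_mod_cast this
  have hΦr : Φ.card ≤ r := by omega
  have hΦA : Φ ⊆ A := hΦ.trans (hB'.trans hB1)
  have hQfQ : Qf ⊆ Q := hQf.trans hQ'
  -- the rest of `Q`
  obtain ⟨ψr, hψr1, hψr2⟩ := sdr (Q \ Qf) (fun x => (A.filter (rel2 x)) \ Φ) (by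
    intro x hx
    have hxQ : x ∈ Q := (mem_sdiff.mp hx).1
    have h1 := hcand x hxQ
    have h2 : (A.filter (rel2 x)).card ≤ ((A.filter (rel2 x)) \ Φ).card + Φ.card := by
      have := card_le_card (show A.filter (rel2 x) ⊆ ((A.filter (rel2 x)) \ Φ) ∪ Φ by
        intro y hy
        by_cases hyΦ : y ∈ Φ
        · exact mem_union_right _ hyΦ
        · exact mem_union_left _ (mem_sdiff.mpr ⟨hy, hyΦ⟩))
      exact this.trans (card_union_le _ _)
    have h3 : 4 * r ≤ (A.filter (rel2 x)).card := by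
      have : (4 * r : ℝ) ≤ ((A.filter (rel2 x)).card : ℝ) := hAr.trans h1
      exact_mod_cast this
    have h4 : (Q \ Qf).card ≤ Q.card := card_le_card sdiff_subset
    omega)
  set X := SH.image φ ∪ (Q \ Qf).image ψr with hX
  have hψrA : ∀ x ∈ Q \ Qf, ψr x ∈ A ∧ ψr x ∉ Φ ∧ rel2 x (ψr x) := by
    intro x hx
    have h1 := mem_sdiff.mp (hψr1 x hx)
    have h2 := mem_filter.mp h1.1
    exact ⟨h2.1, h1.2, h2.2⟩
  refine ⟨Φ, X, hΦA, ?_, ?_, ?_, ?_⟩
  · rw [hX]
    apply union_subset_union_right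
    intro x hx
    rw [mem_image] at hx
    obtain ⟨y, hy, rfl⟩ := hx
    exact (hψrA y hy).1
  · rw [disjoint_left]
    intro x hxΦ hx
    rw [hX, mem_union, mem_image, mem_image] at hx
    rcases hx with ⟨y, hy, rfl⟩ | ⟨y, hy, rfl⟩
    · exact hφn y hy (hΦA hxΦ)
    · exact (hψrA y hy).2.1 hxΦ
  · have h1 : ((K * g + g : ℕ) : ℝ) ≤ (Φ.card : ℝ) := by
      rw [hΦc, Nat.cast_sub hen]
      push_cast
      have h2 : (K * g + g : ℝ) ≤ d / 8 * n := by
        have h2 : d / 8 * h ≤ d / 8 * n := by gcongr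
        linarith
      have h3 : d / 8 * n ≤ n / 8 := by nlinarith
      have h4 : (e:ℝ) ≤ n / 4 := by
        have : (g:ℝ) ≥ 0 := Nat.cast_nonneg _
        nlinarith
      linarith
    exact_mod_cast h1
  · intro Φ' hΦ' hΦ'c
    have hΦ'Q : Φ'.card = Qf.card := by omega
    obtain ⟨ψ, hψinj, hψ⟩ := hrob Φ' hΦ' hΦ'Q
    have hψimg : univ.image ψ = Φ' := by
      apply eq_of_subset_of_card_le
      · intro y hy
        rw [mem_image] at hy
        obtain ⟨x, _, rfl⟩ := hy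
        exact (hψ x).1
      · rw [card_image_of_injective _ hψinj, card_univ, Fintype.card_coe, hΦ'Q]
    set tot : Fin r → α := fun x => if x ∈ SH then φ x else if hx : x ∈ Qf then ψ ⟨x, hx⟩ else ψr x
      with htot
    have htSH : ∀ x ∈ SH, tot x = φ x := fun x hx => by simp [htot, hx]
    have htQf : ∀ x (hx : x ∈ Qf), tot x = ψ ⟨x, hx⟩ := fun x hx => by
      have : x ∉ SH := (hQSH x).mp (hQfQ hx)
      simp [htot, this, hx]
    have htQr : ∀ x ∈ Q \ Qf, tot x = ψr x := fun x hx => by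
      rw [mem_sdiff] at hx
      have : x ∉ SH := (hQSH x).mp hx.1
      simp [htot, this, hx.2]
    have hcases : ∀ x, x ∈ SH ∨ x ∈ Qf ∨ x ∈ Q \ Qf := by
      intro x
      by_cases h1 : x ∈ SH
      · exact Or.inl h1
      · have h2 := (hQSH x).mpr h1
        by_cases h3 : x ∈ Qf
        · exact Or.inr (Or.inl h3)
        · exact Or.inr (Or.inr (mem_sdiff.mpr ⟨h2, h3⟩))
    have htQ : ∀ x ∈ Q, tot x ∈ A ∧ rel2 x (tot x) := by
      intro x hx
      by_cases h3 : x ∈ Qf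
      · rw [htQf x h3]
        exact ⟨hΦA (hΦ' (hψ ⟨x, h3⟩).1), (hψ ⟨x, h3⟩).2⟩
      · have h4 := mem_sdiff.mpr ⟨hx, h3⟩
        rw [htQr x h4]
        exact ⟨(hψrA x h4).1, (hψrA x h4).2.2⟩
    refine ⟨c, r, tot, ?_, ?_, ?_⟩
    · intro x y hxy
      rcases hcases x with hx | hx | hx <;> rcases hcases y with hy | hy | hy
      · rw [htSH x hx, htSH y hy] at hxy; exact hφ2 hx hy hxy
      · rw [htSH x hx] at hxy
        exact absurd (hxy ▸ (htQ y (hQfQ hy)).1) (hφn x hx)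
      · rw [htSH x hx] at hxy
        exact absurd (hxy ▸ (htQ y (mem_sdiff.mp hy).1).1) (hφn x hx)
      · rw [htSH y hy] at hxy
        exact absurd (hxy ▸ (htQ x (hQfQ hx)).1) (hφn y hy)
      · rw [htQf x hx, htQf y hy] at hxy
        have := hψinj hxy
        simpa using this
      · rw [htQf x hx, htQr y hy] at hxy
        exact absurd (hxy ▸ hΦ' (hψ ⟨x, hx⟩).1) (hψrA y hy).2.1
      · rw [htSH y hy] at hxy
        exact absurd (hxy ▸ (htQ x (mem_sdiff.mp hx).1).1) (hφn y hy)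
      · rw [htQr x hx, htQf y hy] at hxy
        exact absurd (hxy ▸ hΦ' (hψ ⟨y, hy⟩).1) (hψrA x hx).2.1
      · rw [htQr x hx, htQr y hy] at hxy
        exact hψr2 hx hy hxy
    · ext y
      rw [mem_image, mem_union, hX, mem_union, mem_image, mem_image]
      constructor
      · rintro ⟨x, _, rfl⟩
        rcases hcases x with hx | hx | hx
        · exact Or.inl (Or.inl ⟨x, hx, (htSH x hx).symm⟩)
        · right; rw [htQf x hx]; exact (hψ ⟨x, hx⟩).1
        · exact Or.inl (Or.inr ⟨x, hx, (htQr x hx).symm⟩)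
      · rintro ((⟨x, hx, rfl⟩ | ⟨x, hx, rfl⟩) | hy)
        · exact ⟨x, mem_univ _, htSH x hx⟩
        · exact ⟨x, mem_univ _, htQr x hx⟩
        · rw [← hψimg, mem_image] at hy
          obtain ⟨x, _, rfl⟩ := hy
          exact ⟨x, mem_univ _, htQf x x.2⟩
    · intro x y hxy
      by_cases hx : x ∈ SH
      · by_cases hy : y ∈ SH
        · rw [htSH x hx, htSH y hy]; exact hφ3 x hx y hy hxy
        · have hyQ := (hQSH y).mpr hy
          rw [htSH x hx]
          exact (hrel2 _ _).mp (htQ y hyQ).2 x hx hxy.symm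
      · have hxQ := (hQSH x).mpr hx
        by_cases hy : y ∈ SH
        · rw [htSH y hy, hsymm]
          exact (hrel2 _ _).mp (htQ x hxQ).2 y hy hxy
        · have hyQ := (hQSH y).mpr hy
          exact absurd hxy (hQind x hxQ y hyQ)


end Pool.Agent.H21.Poly
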