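import Pool.Agent.H21.Poly.Weight

/-! The splitting lemma: a weight function dominates either a bi-dense one or a sparse one. -/

namespace Pool.Agent.H21.Poly

open Finset Classical

variable {α : Type*} [Fintype α] {k : ℕ} (col : α → α → Fin k)

/-- bi-density in the colour `c` -/
def BD (c : Fin k) (w : α → ℝ) (ρ ε : ℝ) : Prop :=
  ∀ f g : α → ℝ, (∀ x, 0 ≤ f x) → (∀ x, f x ≤ w x) → (∀ x, 0 ≤ g x) → (∀ x, g x ≤ w x) →
    ρ * mass w ≤ mass f → ρ * mass w ≤ mass g → ε * (mass f * mass g) ≤ eD col {c} f g

variable {col}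

theorem split (hsymm : ∀ a b, col a b = col b a) (c : Fin k) (ρ ε : ℝ) (hρ : 0 < ρ) (hρ1 : ρ ≤ 1)
    (hε : 0 < ε) (d : ℕ) :
    ∀ w : α → ℝ, (∀ x, 0 ≤ w x) → (∀ w' : α → ℝ, (∀ x, 0 ≤ w' x) → (∀ x, w' x ≤ w x) →
      (ρ / 4) ^ d * mass w ≤ mass w' → ¬ BD col c w' ρ ε) →
    ∃ u : α → ℝ, (∀ x, 0 ≤ u x) ∧ (∀ x, u x ≤ w x) ∧ mass u = (ρ / 2) ^ d * mass w ∧
      eD col {c} u u ≤ ((1 / 2) ^ d + 4 * ε) * mass u ^ 2 := by
  induction d with
  | zero =>
    intro w hw _
    refine ⟨w, hw, fun _ => le_rfl, by simp, ?_⟩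
    have h1 := eD_le (col := col) (D := {c}) hw hw
    have h2 : 0 ≤ mass w ^ 2 := by positivity
    rw [pow_zero]
    nlinarith
  | succ d ih =>
    intro w hw hno
    rcases (mass_nonneg hw).eq_or_lt with h0 | hpos
    · refine ⟨w, hw, fun _ => le_rfl, by rw [← h0, mul_zero], ?_⟩
      have h1 := eD_le (col := col) (D := {c}) hw hw
      rw [← h0] at h1 ⊢
      simpa using h1
    have hρ4 : ρ / 4 ≤ 1 := by linarith
    have hρ40 : 0 < ρ / 4 := by linarith
    have h1 : ¬ BD col c w ρ ε := hno w hw (fun _ => le_rfl) (by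
      have : (ρ / 4) ^ (d + 1) ≤ 1 := pow_le_one₀ hρ40.le hρ4
      nlinarith)
    unfold BD at h1
    push Not at h1
    obtain ⟨f, g, hf0, hfw, hg0, hgw, hfm, hgm, hfg⟩ := h1
    have hfpos : 0 < mass f := lt_of_lt_of_le (by positivity) hfm
    have hgpos : 0 < mass g := lt_of_lt_of_le (by positivity) hgm
    -- scaling
    have scale : ∀ h : α → ℝ, (∀ x, 0 ≤ h x) → ρ / 4 * mass w ≤ mass h → ∃ h' : α → ℝ,
        (∀ x, 0 ≤ h' x) ∧ (∀ x, h' x ≤ h x) ∧ mass h' = ρ / 4 * mass w := by
      intro h hh hm
      have hmpos : 0 < mass h := lt_of_lt_of_le (by positivity) hm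
      have ht : ρ / 4 * mass w / mass h ≤ 1 := by rw [div_le_one hmpos]; exact hm
      refine ⟨fun x => (ρ / 4 * mass w / mass h) * h x, fun x => ?_, fun x => ?_, ?_⟩
      · have := hh x; positivity
      · have := hh x
        exact mul_le_of_le_one_left this ht
      · rw [mass_smul]; field_simp
    -- first half
    set P : α → Prop := fun x => nbw col {c} g x ≤ 2 * ε * mass g with hP
    have hbad : mass (restr (fun x => ¬ P x) f) ≤ mass f / 2 := by
      have h2 := markov (col := col) (D := {c}) hf0 hg0 (2 * ε * mass g)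
      have h3 : 2 * ε * mass g * mass (restr (fun x => ¬ P x) f) ≤ 2 * ε * mass g * (mass f / 2) := by
        have : 2 * ε * mass g * (mass f / 2) = ε * (mass f * mass g) := by ring
        rw [this]
        exact h2.trans hfg.le
      exact le_of_mul_le_mul_left h3 (by positivity)
    have hgood : mass f / 2 ≤ mass (restr P f) := by
      have := mass_restr P f
      linarith
    obtain ⟨f2, hf20, hf2le, hf2m⟩ := scale (fun x => 1 / 2 * restr P f x)
      (fun x => by have := restr_nonneg (P := P) hf0 x; positivity) (by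
        rw [mass_smul]; linarith)
    have hf2w : ∀ x, f2 x ≤ w x / 2 := by
      intro x
      have h2 := hf2le x
      have h3 := restr_le (P := P) hf0 x
      have h4 := hfw x
      beta_reduce at h2
      linarith
    obtain ⟨u1, hu10, hu1le, hu1m, hu1e⟩ := ih f2 hf20 (by
      intro w' hw' hw'f hm
      apply hno w' hw'
      · intro x
        have := hf2w x
        have := hw'f x
        have := hw x
        linarith
      · rw [hf2m] at hm
        rw [pow_succ, mul_assoc]
        exact hm)
    rw [hf2m] at hu1m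
    have hu1pos : 0 < mass u1 := by rw [hu1m]; positivity
    have hu1g : eD col {c} u1 g ≤ 2 * ε * mass g * mass u1 := by
      apply eD_restr_le hu10
      intro x hx
      by_contra hcon
      apply hx
      have h2 : restr P f x = 0 := by
        unfold restr; rw [if_neg hcon]
      have h3 := hu1le x
      have h4 := hf2le x
      beta_reduce at h4
      rw [h2] at h4
      have h5 := hu10 x
      linarith
    -- second half
    set P' : α → Prop := fun x => nbw col {c} u1 x ≤ 4 * ε * mass u1 with hP'
    have hbad' : mass (restr (fun x => ¬ P' x) g) ≤ mass g / 2 := by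
      have h2 := markov (col := col) (D := {c}) hg0 hu10 (4 * ε * mass u1)
      rw [eD_comm hsymm] at h2
      have h3 : 4 * ε * mass u1 * mass (restr (fun x => ¬ P' x) g) ≤
          4 * ε * mass u1 * (mass g / 2) := by
        have : 4 * ε * mass u1 * (mass g / 2) = 2 * ε * mass g * mass u1 := by ring
        rw [this]
        exact h2.trans hu1g
      exact le_of_mul_le_mul_left h3 (by positivity)
    have hgood' : mass g / 2 ≤ mass (restr P' g) := by
      have := mass_restr P' g
      linarith
    obtain ⟨g2, hg20, hg2le, hg2m⟩ := scale (fun x => 1 / 2 * restr P' g x)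
      (fun x => by have := restr_nonneg (P := P') hg0 x; positivity) (by
        rw [mass_smul]; linarith)
    have hg2w : ∀ x, g2 x ≤ w x / 2 := by
      intro x
      have h2 := hg2le x
      have h3 := restr_le (P := P') hg0 x
      have h4 := hgw x
      beta_reduce at h2
      linarith
    obtain ⟨u2, hu20, hu2le, hu2m, hu2e⟩ := ih g2 hg20 (by
      intro w' hw' hw'f hm
      apply hno w' hw'
      · intro x
        have := hg2w x
        have := hw'f x
        have := hw x
        linarith
      · rw [hg2m] at hm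
        rw [pow_succ, mul_assoc]
        exact hm)
    rw [hg2m] at hu2m
    have hu21 : eD col {c} u2 u1 ≤ 4 * ε * mass u1 * mass u2 := by
      apply eD_restr_le hu20
      intro x hx
      by_contra hcon
      apply hx
      have h2 : restr P' g x = 0 := by
        unfold restr; rw [if_neg hcon]
      have h3 := hu2le x
      have h4 := hg2le x
      beta_reduce at h4
      rw [h2] at h4
      have h5 := hu20 x
      linarith
    refine ⟨fun x => u1 x + u2 x, fun x => add_nonneg (hu10 x) (hu20 x), ?_, ?_, ?_⟩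
    · intro x
      have h1 := hu1le x
      have h2 := hf2w x
      have h3 := hu2le x
      have h4 := hg2w x
      simp only
      linarith
    · rw [mass_add, hu1m, hu2m, pow_succ]; ring
    · rw [mass_add, eD_add_left, eD_add_right, eD_add_right, eD_comm hsymm u1 u2]
      have hmm : mass u2 = mass u1 := by rw [hu1m, hu2m]
      rw [hmm] at hu2e hu21 ⊢
      have e1 : ((1 / 2 : ℝ) ^ (d + 1) + 4 * ε) * (mass u1 + mass u1) ^ 2 =
          2 * ((1 / 2) ^ d * mass u1 ^ 2) + 16 * ε * mass u1 ^ 2 := by
        rw [pow_succ]; ring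
      rw [e1]
      have e2 : ((1 / 2 : ℝ) ^ d + 4 * ε) * mass u1 ^ 2 =
          (1 / 2) ^ d * mass u1 ^ 2 + 4 * (ε * mass u1 ^ 2) := by ring
      rw [e2] at hu1e hu2e
      have e3 : 4 * ε * mass u1 * mass u1 = 4 * (ε * mass u1 ^ 2) := by ring
      rw [e3] at hu21
      linarith

end Pool.Agent.H21.Poly
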