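import Pool.Agent.H21.Poly.Emb

/-! The static lemma: inside a weight function which is sparse in the colours of `D` there is a
weight function into which bounded degree graphs embed in some colour outside `D`. -/

namespace Pool.Agent.H21.Poly

open Finset Classical

variable {α : Type*} [Fintype α] {k : ℕ} {col : α → α → Fin k}

/-- the exponents -/
def Bx (Δ ℓ p : ℕ) : ℕ → ℕ
  | 0 => 2 * (p + 2 + ℓ)
  | r + 1 => Bx Δ ℓ p r + 1 + 2 * ((Bx Δ ℓ p r + 2) * (p + Δ * (Bx Δ ℓ p r + 4) + ℓ + 3))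

lemma half_pow_anti {m n : ℕ} (h : m ≤ n) : (1 / 2 : ℝ) ^ n ≤ (1 / 2) ^ m :=
  pow_le_pow_of_le_one (by norm_num) (by norm_num) h

lemma half_pow_pos (n : ℕ) : (0 : ℝ) < (1 / 2) ^ n := by positivity

theorem static [Nonempty α] (hsymm : ∀ a b, col a b = col b a) {Δ ℓ : ℕ} (hℓ : Δ + 1 ≤ 2 ^ ℓ)
    (p r : ℕ) :
    ∀ D : Finset (Fin k), (univ \ D).card = r + 1 → ∀ w : α → ℝ, (∀ x, 0 ≤ w x) →
      (∀ x, w x ≤ 1) → eD col D w w ≤ (1 / 2) ^ (Bx Δ ℓ p r) * mass w ^ 2 →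
      ∃ c, c ∉ D ∧ ∃ w' : α → ℝ, (∀ x, 0 ≤ w' x) ∧ (∀ x, w' x ≤ w x) ∧
        (1 / 2) ^ (Bx Δ ℓ p r) * mass w ≤ mass w' ∧
        Emb col Δ c w' ((1 / 2) ^ p) ((1 / 2) ^ (Bx Δ ℓ p r)) := by
  have hℓR : (Δ:ℝ) + 1 ≤ 2 ^ ℓ := by exact_mod_cast hℓ
  have h22 : ∀ n : ℕ, (2:ℝ) ^ n * (1 / 2) ^ n = 1 := by
    intro n; rw [← mul_pow]; norm_num
  induction r with
  | zero =>
    intro D hD w hw hw1 he
    obtain ⟨c, hc⟩ := card_eq_one.mp (by rw [hD])
    have hcD : c ∉ D := by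
      have : c ∈ univ \ D := by rw [hc]; exact mem_singleton_self c
      exact (mem_sdiff.mp this).2
    refine ⟨c, hcD, w, hw, fun _ => le_rfl, ?_, ?_⟩
    · have := mass_nonneg hw
      have : (1 / 2 : ℝ) ^ (Bx Δ ℓ p 0) ≤ 1 := pow_le_one₀ (by norm_num) (by norm_num)
      nlinarith
    · have h1 := emb_of_sparse (Δ := Δ) hsymm (ξ := (1 / 2) ^ (p + 2 + ℓ)) (δ := (1 / 2) ^ p)
        (c := c) hw hw1 D (by
          intro c' hc'
          have : c' ∈ univ \ D := mem_sdiff.mpr ⟨mem_univ _, hc'⟩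
          rw [hc] at this
          exact mem_singleton.mp this) (half_pow_pos _) (by
          rw [← pow_mul, mul_comm (p + 2 + ℓ) 2]
          exact he) (half_pow_pos _) (by
          rw [pow_add]
          calc (Δ + 1 : ℝ) * ((1 / 2) ^ (p + 2) * (1 / 2) ^ ℓ) ≤
                2 ^ ℓ * ((1 / 2) ^ (p + 2) * (1 / 2) ^ ℓ) := by
                apply mul_le_mul_of_nonneg_right hℓR; positivity
            _ = (2 ^ ℓ * (1 / 2) ^ ℓ) * (1 / 2) ^ (p + 2) := by ring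
            _ = (1 / 2) ^ (p + 2) := by rw [h22, one_mul]
            _ = (1 / 2) ^ p / 4 := by rw [pow_add]; ring
            _ ≤ _ := le_rfl)
      refine h1.mono hw ?_
      calc (1 / 2 : ℝ) ^ (Bx Δ ℓ p 0) ≤ (1 / 2) ^ (p + 2) := by
            apply half_pow_anti; unfold Bx; omega
        _ = (1 / 2) ^ p / 4 := by rw [pow_add]; ring
  | succ r ih =>
    intro D hD w hw hw1 he
    obtain ⟨b, hb⟩ : ∃ b, b = Bx Δ ℓ p r := ⟨_, rfl⟩
    obtain ⟨a, ha⟩ : ∃ a, a = p + Δ * (b + 4) + ℓ + 1 := ⟨_, rfl⟩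
    have hB : Bx Δ ℓ p (r + 1) = b + 1 + 2 * ((b + 2) * (a + 2)) := by
      rw [Bx, ← hb, ha]
    obtain ⟨B, hBdef⟩ : ∃ B, B = Bx Δ ℓ p (r + 1) := ⟨_, rfl⟩
    rw [← hBdef] at he hB ⊢
    have hB1 : (a + 2) * (b + 2) ≤ B := by rw [hB]; nlinarith
    have hB2 : p + (b + 4) * Δ + 1 ≤ B := by
      have : p + (b + 4) * Δ + 1 ≤ a := by rw [ha]; nlinarith
      nlinarith
    have hB3 : b + 1 + ((a + 1) * (b + 2) + (a + 1) * (b + 2)) ≤ B := by rw [hB]; nlinarith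
    have hB4 : b + (a + 1) * (b + 2) ≤ B := by rw [hB]; nlinarith
    have hm0 := mass_nonneg hw
    obtain ⟨c, hc⟩ : ∃ c, c ∈ univ \ D := card_pos.mp (by omega)
    have hcD : c ∉ D := (mem_sdiff.mp hc).2
    obtain ⟨ρ, hρ⟩ : ∃ ρ : ℝ, ρ = (1 / 2) ^ a := ⟨_, rfl⟩
    obtain ⟨ε, hε⟩ : ∃ ε : ℝ, ε = (1 / 2) ^ (b + 4) := ⟨_, rfl⟩
    have hρ0 : 0 < ρ := by rw [hρ]; positivity
    have hε0 : 0 < ε := by rw [hε]; positivity
    have hρ1 : ρ ≤ 1 := by rw [hρ]; exact pow_le_one₀ (by norm_num) (by norm_num)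
    have hε1 : ε ≤ 1 := by rw [hε]; exact pow_le_one₀ (by norm_num) (by norm_num)
    have hρ4 : (ρ / 4) ^ (b + 2) = (1 / 2) ^ ((a + 2) * (b + 2)) := by
      rw [pow_mul, hρ]; congr 1; rw [pow_add]; ring
    have hρ2 : (ρ / 2) ^ (b + 2) = (1 / 2) ^ ((a + 1) * (b + 2)) := by
      rw [pow_mul, hρ]; congr 1; rw [pow_add]; ring
    by_cases hcase : ∃ w' : α → ℝ, (∀ x, 0 ≤ w' x) ∧ (∀ x, w' x ≤ w x) ∧
        (ρ / 4) ^ (b + 2) * mass w ≤ mass w' ∧ BD col c w' ρ ε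
    · obtain ⟨w', hw'0, hw'w, hw'm, hw'B⟩ := hcase
      refine ⟨c, hcD, w', hw'0, hw'w, ?_, ?_⟩
      · refine le_trans ?_ hw'm
        rw [hρ4]
        exact mul_le_mul_of_nonneg_right (half_pow_anti hB1) hm0
      · have h1 := emb_of_BD (Δ := Δ) (δ := (1 / 2) ^ p) hsymm hw'0
          (fun x => (hw'w x).trans (hw1 x)) hw'B hε0 hε1 (half_pow_pos _) hρ0.le (by
            rw [hρ, hε, ← pow_mul, ha]
            have e1 : (1 / 2 : ℝ) ^ (p + Δ * (b + 4) + ℓ + 1) =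
                (1 / 2) ^ p * (1 / 2) ^ ((b + 4) * Δ) * (1 / 2) ^ ℓ * (1 / 2) := by
              rw [← pow_add, ← pow_add, ← pow_succ]; congr 1; ring
            rw [e1]
            calc (Δ + 1 : ℝ) * ((1 / 2) ^ p * (1 / 2) ^ ((b + 4) * Δ) * (1 / 2) ^ ℓ * (1 / 2)) ≤
                  2 ^ ℓ * ((1 / 2) ^ p * (1 / 2) ^ ((b + 4) * Δ) * (1 / 2) ^ ℓ * (1 / 2)) := by
                  apply mul_le_mul_of_nonneg_right hℓR; positivity
              _ = (2 ^ ℓ * (1 / 2) ^ ℓ) * ((1 / 2) ^ p * (1 / 2) ^ ((b + 4) * Δ) / 2) := by ring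
              _ = _ := by rw [h22, one_mul])
        refine h1.mono hw'0 ?_
        calc (1 / 2 : ℝ) ^ B ≤ (1 / 2) ^ (p + (b + 4) * Δ + 1) := half_pow_anti hB2
          _ = (1 / 2) ^ p * ε ^ Δ / 2 := by
              rw [hε, ← pow_mul, pow_succ, pow_add]; ring
    · push Not at hcase
      obtain ⟨u, hu0, huw, hum, hue⟩ := split hsymm c ρ ε hρ0 hρ1 hε0 (b + 2) w hw (by
        intro w' h1 h2 h3; exact hcase w' h1 h2 h3)
      rw [hρ2] at hum
      have hu1 : eD col {c} u u ≤ (1 / 2) ^ (b + 1) * mass u ^ 2 := by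
        refine hue.trans (le_of_eq ?_)
        congr 1
        rw [hε]
        rw [show b + 4 = b + 1 + 3 by ring, show b + 2 = b + 1 + 1 by ring, pow_add, pow_add]
        ring
      have hu2 : eD col D u u ≤ (1 / 2) ^ (b + 1) * mass u ^ 2 := by
        refine (eD_mono hu0 hu0 huw huw).trans (he.trans ?_)
        rw [hum]
        have e1 : (1 / 2 : ℝ) ^ (b + 1) * ((1 / 2) ^ ((a + 1) * (b + 2)) * mass w) ^ 2 =
            (1 / 2) ^ (b + 1 + ((a + 1) * (b + 2) + (a + 1) * (b + 2))) * mass w ^ 2 := by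
          rw [pow_add (1 / 2 : ℝ) (b + 1), pow_add (1 / 2 : ℝ) ((a + 1) * (b + 2))]; ring
        rw [e1]
        exact mul_le_mul_of_nonneg_right (half_pow_anti hB3) (by positivity)
      have hu3 : eD col (insert c D) u u ≤ (1 / 2) ^ (Bx Δ ℓ p r) * mass u ^ 2 := by
        rw [eD_insert hcD, ← hb]
        have e1 : (1 / 2 : ℝ) ^ b * mass u ^ 2 =
            (1 / 2) ^ (b + 1) * mass u ^ 2 + (1 / 2) ^ (b + 1) * mass u ^ 2 := by
          rw [pow_succ]; ring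
        rw [e1]
        exact add_le_add hu1 hu2
      have hcard : (univ \ insert c D).card = r + 1 := by
        have e1 : univ \ insert c D = (univ \ D).erase c := by
          ext x; simp [mem_sdiff, mem_insert, mem_erase, not_or]
        rw [e1, card_erase_of_mem hc]
        omega
      obtain ⟨c', hc', w', hw'0, hw'u, hw'm, hw'e⟩ := ih (insert c D) hcard u hu0
        (fun x => (huw x).trans (hw1 x)) hu3
      refine ⟨c', fun h => hc' (mem_insert_of_mem h), w', hw'0, fun x => (hw'u x).trans (huw x),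
        ?_, ?_⟩
      · refine le_trans ?_ hw'm
        rw [hum, ← hb, ← mul_assoc, ← pow_add]
        exact mul_le_mul_of_nonneg_right (half_pow_anti hB4) hm0
      · apply hw'e.mono hw'0
        apply half_pow_anti
        rw [← hb]
        omega

end Pool.Agent.H21.Poly
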