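import Mathlib

/-! Weight functions on the vertex set of an edge coloured complete graph. -/

namespace Pool.Agent.H21.Poly

open Finset Classical

variable {α : Type*} [Fintype α] {k : ℕ} (col : α → α → Fin k)

/-- total mass -/
def mass (w : α → ℝ) : ℝ := ∑ x, w x

/-- mass of the neighbours of `v` in the colours of `D` -/
noncomputable def nbw (D : Finset (Fin k)) (w : α → ℝ) (v : α) : ℝ :=
  ∑ y, if col v y ∈ D then w y else 0

/-- mass of the pairs joined in the colours of `D` -/
noncomputable def eD (D : Finset (Fin k)) (f g : α → ℝ) : ℝ := ∑ x, f x * nbw col D g x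

lemma mass_nonneg {w : α → ℝ} (hw : ∀ x, 0 ≤ w x) : 0 ≤ mass w := sum_nonneg fun x _ => hw x

lemma mass_mono {w w' : α → ℝ} (h : ∀ x, w x ≤ w' x) : mass w ≤ mass w' :=
  sum_le_sum fun x _ => h x

lemma mass_add (w w' : α → ℝ) : mass (fun x => w x + w' x) = mass w + mass w' := by
  unfold mass; rw [sum_add_distrib]

lemma mass_smul (t : ℝ) (w : α → ℝ) : mass (fun x => t * w x) = t * mass w := by
  unfold mass; rw [mul_sum]

variable {col}

lemma nbw_nonneg {D : Finset (Fin k)} {w : α → ℝ} (hw : ∀ x, 0 ≤ w x) (v : α) :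
    0 ≤ nbw col D w v := by
  unfold nbw
  apply sum_nonneg
  intro y _
  split_ifs
  · exact hw y
  · exact le_rfl

lemma nbw_mono {D : Finset (Fin k)} {w w' : α → ℝ} (h : ∀ x, w x ≤ w' x) (v : α) :
    nbw col D w v ≤ nbw col D w' v := by
  unfold nbw
  apply sum_le_sum
  intro y _
  split_ifs
  · exact h y
  · exact le_rfl

lemma nbw_le_mass {D : Finset (Fin k)} {w : α → ℝ} (hw : ∀ x, 0 ≤ w x) (v : α) :
    nbw col D w v ≤ mass w := by
  unfold nbw mass
  apply sum_le_sum
  intro y _
  split_ifs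
  · exact le_rfl
  · exact hw y

lemma nbw_univ (w : α → ℝ) (v : α) : nbw col univ w v = mass w := by
  unfold nbw mass; simp

lemma nbw_empty (w : α → ℝ) (v : α) : nbw col ∅ w v = 0 := by
  unfold nbw; simp

lemma nbw_smul {D : Finset (Fin k)} (t : ℝ) (w : α → ℝ) (v : α) :
    nbw col D (fun x => t * w x) v = t * nbw col D w v := by
  unfold nbw
  rw [mul_sum]
  apply sum_congr rfl
  intro y _
  split_ifs <;> simp

lemma nbw_add {D : Finset (Fin k)} (w w' : α → ℝ) (v : α) :
    nbw col D (fun x => w x + w' x) v = nbw col D w v + nbw col D w' v := by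
  unfold nbw
  rw [← sum_add_distrib]
  apply sum_congr rfl
  intro y _
  split_ifs <;> simp

lemma nbw_sum {ι : Type*} {D : Finset (Fin k)} (s : Finset ι) (w : ι → α → ℝ) (v : α) :
    nbw col D (fun x => ∑ i ∈ s, w i x) v = ∑ i ∈ s, nbw col D (w i) v := by
  unfold nbw
  rw [sum_comm]
  apply sum_congr rfl
  intro y _
  split_ifs
  · rfl
  · simp

lemma mass_sum {ι : Type*} (s : Finset ι) (w : ι → α → ℝ) :
    mass (fun x => ∑ i ∈ s, w i x) = ∑ i ∈ s, mass (w i) := by
  unfold mass
  rw [sum_comm]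

lemma nbw_insert {D : Finset (Fin k)} {c : Fin k} (hc : c ∉ D) (w : α → ℝ) (v : α) :
    nbw col (insert c D) w v = nbw col {c} w v + nbw col D w v := by
  unfold nbw
  rw [← sum_add_distrib]
  apply sum_congr rfl
  intro y _
  by_cases h1 : col v y = c
  · have h2 : col v y ∉ D := by rw [h1]; exact hc
    simp [h1, hc]
  · simp [h1]

lemma eD_nonneg {D : Finset (Fin k)} {f g : α → ℝ} (hf : ∀ x, 0 ≤ f x) (hg : ∀ x, 0 ≤ g x) :
    0 ≤ eD col D f g := sum_nonneg fun x _ => mul_nonneg (hf x) (nbw_nonneg hg x)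

lemma eD_mono {D : Finset (Fin k)} {f f' g g' : α → ℝ} (hf : ∀ x, 0 ≤ f x) (hg : ∀ x, 0 ≤ g x)
    (hff : ∀ x, f x ≤ f' x) (hgg : ∀ x, g x ≤ g' x) : eD col D f g ≤ eD col D f' g' := by
  unfold eD
  apply sum_le_sum
  intro x _
  exact mul_le_mul (hff x) (nbw_mono hgg x) (nbw_nonneg hg x) ((hf x).trans (hff x))

lemma eD_le {D : Finset (Fin k)} {f g : α → ℝ} (hf : ∀ x, 0 ≤ f x) (hg : ∀ x, 0 ≤ g x) :
    eD col D f g ≤ mass f * mass g := by
  unfold eD
  calc ∑ x, f x * nbw col D g x ≤ ∑ x, f x * mass g := by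
        apply sum_le_sum
        intro x _
        exact mul_le_mul_of_nonneg_left (nbw_le_mass hg x) (hf x)
    _ = mass f * mass g := by rw [← sum_mul]; rfl

lemma eD_comm (hsymm : ∀ a b, col a b = col b a) {D : Finset (Fin k)} (f g : α → ℝ) :
    eD col D f g = eD col D g f := by
  unfold eD nbw
  simp_rw [mul_sum]
  rw [sum_comm]
  apply sum_congr rfl
  intro x _
  apply sum_congr rfl
  intro y _
  rw [hsymm y x]
  split_ifs
  · ring
  · ring

lemma eD_add_left {D : Finset (Fin k)} (f f' g : α → ℝ) :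
    eD col D (fun x => f x + f' x) g = eD col D f g + eD col D f' g := by
  unfold eD
  rw [← sum_add_distrib]
  apply sum_congr rfl
  intro x _
  ring

lemma eD_add_right {D : Finset (Fin k)} (f g g' : α → ℝ) :
    eD col D f (fun x => g x + g' x) = eD col D f g + eD col D f g' := by
  unfold eD
  rw [← sum_add_distrib]
  apply sum_congr rfl
  intro x _
  rw [nbw_add]
  ring

lemma eD_smul_left {D : Finset (Fin k)} (t : ℝ) (f g : α → ℝ) :
    eD col D (fun x => t * f x) g = t * eD col D f g := by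
  unfold eD
  rw [mul_sum]
  apply sum_congr rfl
  intro x _
  ring

lemma eD_smul_right {D : Finset (Fin k)} (t : ℝ) (f g : α → ℝ) :
    eD col D f (fun x => t * g x) = t * eD col D f g := by
  unfold eD
  rw [mul_sum]
  apply sum_congr rfl
  intro x _
  rw [nbw_smul]
  ring

lemma eD_sum_left {ι : Type*} {D : Finset (Fin k)} (s : Finset ι) (f : ι → α → ℝ) (g : α → ℝ) :
    eD col D (fun x => ∑ i ∈ s, f i x) g = ∑ i ∈ s, eD col D (f i) g := by
  unfold eD
  rw [sum_comm]
  apply sum_congr rfl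
  intro x _
  rw [sum_mul]

lemma eD_sum_right {ι : Type*} {D : Finset (Fin k)} (s : Finset ι) (f : α → ℝ) (g : ι → α → ℝ) :
    eD col D f (fun x => ∑ i ∈ s, g i x) = ∑ i ∈ s, eD col D f (g i) := by
  unfold eD
  rw [sum_comm]
  apply sum_congr rfl
  intro x _
  rw [nbw_sum, mul_sum]

lemma eD_insert {D : Finset (Fin k)} {c : Fin k} (hc : c ∉ D) (f g : α → ℝ) :
    eD col (insert c D) f g = eD col {c} f g + eD col D f g := by
  unfold eD
  rw [← sum_add_distrib]
  apply sum_congr rfl
  intro x _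
  rw [nbw_insert hc]
  ring

lemma eD_empty (f g : α → ℝ) : eD col ∅ f g = 0 := by
  unfold eD; simp [nbw_empty]

/-- restriction of a weight function to the points satisfying `P` -/
noncomputable def restr (P : α → Prop) (w : α → ℝ) : α → ℝ := fun x => if P x then w x else 0

lemma restr_nonneg {P : α → Prop} {w : α → ℝ} (hw : ∀ x, 0 ≤ w x) (x : α) : 0 ≤ restr P w x := by
  unfold restr; split_ifs; exacts [hw x, le_rfl]

lemma restr_le {P : α → Prop} {w : α → ℝ} (hw : ∀ x, 0 ≤ w x) (x : α) : restr P w x ≤ w x := by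
  unfold restr; split_ifs; exacts [le_rfl, hw x]

lemma mass_restr (P : α → Prop) (w : α → ℝ) :
    mass (restr P w) + mass (restr (fun x => ¬ P x) w) = mass w := by
  unfold mass restr
  rw [← sum_add_distrib]
  apply sum_congr rfl
  intro x _
  by_cases h : P x <;> simp [h]

/-- Markov: the points with many neighbours carry little mass. -/
lemma markov {D : Finset (Fin k)} {f g : α → ℝ} (hf : ∀ x, 0 ≤ f x) (hg : ∀ x, 0 ≤ g x) (t : ℝ) :
    t * mass (restr (fun x => ¬ nbw col D g x ≤ t) f) ≤ eD col D f g := by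
  unfold mass eD restr
  rw [mul_sum]
  apply sum_le_sum
  intro x _
  by_cases h : nbw col D g x ≤ t
  · simp only [h, not_true_eq_false, if_false, mul_zero]
    exact mul_nonneg (hf x) (nbw_nonneg hg x)
  · rw [if_pos h, mul_comm]
    exact mul_le_mul_of_nonneg_left (not_le.mp h).le (hf x)

/-- the complementary bound -/
lemma eD_restr_le {D : Finset (Fin k)} {f g : α → ℝ} (hf : ∀ x, 0 ≤ f x) (t : ℝ)
    (h : ∀ x, f x ≠ 0 → nbw col D g x ≤ t) : eD col D f g ≤ t * mass f := by
  unfold mass eD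
  rw [mul_sum]
  apply sum_le_sum
  intro x _
  by_cases hx : f x = 0
  · rw [hx]; simp
  · rw [mul_comm]
    exact mul_le_mul_of_nonneg_right (h x hx) (hf x)

end Pool.Agent.H21.Poly
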